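import Pool.Agent.H15.HF.Sym

/-!
# Module Cpl: coupling of `Nm m` and `Nm m'`

`e = dir m`, `e' = dir m'` (`m' ≠ 0` since `len (m'-m) ≤ len m / 2`), `ρ = len m' / len m`. `len (e - e') ≤ 2 len (m'-m)/len m ≤ 1`, so `nsq (e+e') = 4 - nsq (e-e') ≥ 3`; `u = dir (e+e')`; `refl u e = e'` (`2 (e·u) u = e + e'` because `2 e·(e+e') = nsq (e+e')`). So `m' = ρ • refl u m` and by `Nm_smul`, `Nm_refl`, `Nm_neg`:
`Nm m' = (Nm m).map L`, `L h = -(ρ • refl u h) = ρ • (h - 2(h·u) u)`. `len (L h - h) ≤ |ρ-1| len h + 2 |h·u|·1 ` times `ρ ≤ 3/2`: precisely `L h - h = (ρ-1)•h - (2 ρ (h·u))•u`, `|h·u| = |h·(e+e')|/len(e+e') = |h·(e'-e)|/len (e+e')` for `h ⊥ m` (`Nm_ae`) `≤ len h len (e-e')/√3 ≤ len h · 2 len(m'-m)/(√3 len m)`. `|ρ-1| ≤ len (m'-m)/len m`. Sum `≤ (1 + 6/√3) ≤ 5` times `len h len(m'-m)/len m`.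
-/

set_option autoImplicit false

open MeasureTheory Set Filter Topology Pool.Agent.H25.Kin Pool.Agent.H48.PL Pool.Agent.H48.PD
open Pool.Agent.H82.BK Pool.Agent.H82.CM Pool.Agent.H48.PR Pool.Agent.H82.HF
open scoped ENNReal

namespace Pool.Agent.H15.HF

variable {d : ℕ} {γ s C Ca cb : ℝ} {b : ℝ → ℝ}

private lemma Cpl_ls (a : ℝ) (z : Vec d) : len (a • z) = |a| * len z := by
  unfold len
  rw [nsq_smul, Real.sqrt_mul (sq_nonneg a), Real.sqrt_sq_eq_abs]

private lemma Cpl_dot (u v : Vec d) : |dot u v| ≤ len u * len v := by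
  refine abs_le_of_sq_le_sq ?_ (mul_nonneg (len_nonneg u) (len_nonneg v))
  rw [mul_pow, len_sq, len_sq]
  exact dot_sq_le u v

private lemma Cpl_x {D l l' p x : ℝ} (l0 : 0 < l) (hx : D = x * l) (t2 : l ≤ 2 * l') (p1 : p ≤ 1)
    (hdd : D ^ 2 = (l' - l) ^ 2 + l * l' * (2 - 2 * p)) : 2 - 2 * p ≤ 2 * x ^ 2 := by
  have a1 : l * l' * (2 - 2 * p) ≤ D ^ 2 := by
    rw [hdd]
    have := sq_nonneg (l' - l)
    linarith
  have a2 : l * l * (2 - 2 * p) ≤ l * (2 * l') * (2 - 2 * p) :=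
    mul_le_mul_of_nonneg_right (mul_le_mul_of_nonneg_left t2 l0.le) (by linarith)
  have a3 : (l * l) * (2 - 2 * p) ≤ (l * l) * (2 * x ^ 2) := by
    rw [hx] at a1
    calc (l * l) * (2 - 2 * p) ≤ l * (2 * l') * (2 - 2 * p) := a2
      _ = 2 * (l * l' * (2 - 2 * p)) := by ring
      _ ≤ 2 * (x * l) ^ 2 := by linarith
      _ = (l * l) * (2 * x ^ 2) := by ring
  exact le_of_mul_le_mul_left a3 (mul_pos l0 l0)

theorem coup (H : Hyp d γ s b C Ca) (ε : ℝ) {m m' : Vec d} (hm : m ≠ 0)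
    (h : len (m' - m) ≤ len m / 2) : ∃ L : Vec d → Vec d, Measurable L ∧
      Nm γ b ε m' = (Nm γ b ε m).map L ∧
      ∀ᵐ x ∂(Nm γ b ε m), len (L x - x) ≤ 5 * (len x * (len (m' - m) / len m)) := by
  have hd : 1 ≤ d := H.hd1
  obtain ⟨l, hl⟩ : ∃ l, l = len m := ⟨_, rfl⟩
  obtain ⟨l', hl'⟩ : ∃ l', l' = len m' := ⟨_, rfl⟩
  obtain ⟨D, hD⟩ : ∃ D, D = len (m' - m) := ⟨_, rfl⟩
  have l0 : 0 < l := by rw [hl]; exact len_pos hm
  have D0 : 0 ≤ D := by rw [hD]; exact len_nonneg _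
  rw [← hl, ← hD] at h ⊢
  have t1 : l' ≤ l + D := by
    have e := len_le_add_sub m' m
    rwa [← hl, ← hl', ← hD] at e
  have t2 : l ≤ l' + D := by
    have e := len_le_add_sub m m'
    rw [← len_neg (m - m'), neg_sub, ← hl, ← hl', ← hD] at e
    exact e
  have l'0 : 0 < l' := by linarith
  have hm' : m' ≠ 0 := by
    rintro rfl
    rw [len_zero] at hl'
    exact l'0.ne' hl'
  have me : m = l • dir m := by
    unfold dir
    rw [← hl, smul_smul, mul_inv_cancel₀ l0.ne', one_smul]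
  have me' : m' = l' • dir m' := by
    unfold dir
    rw [← hl', smul_smul, mul_inv_cancel₀ l'0.ne', one_smul]
  have n1 : nsq (dir m) = 1 := nsq_dir hm
  have n1' : nsq (dir m') = 1 := nsq_dir hm'
  obtain ⟨e, he⟩ : ∃ e, e = dir m := ⟨_, rfl⟩
  obtain ⟨e', he'⟩ : ∃ e', e' = dir m' := ⟨_, rfl⟩
  rw [← he] at me n1
  rw [← he'] at me' n1'
  obtain ⟨p, hp⟩ : ∃ p, p = dot e e' := ⟨_, rfl⟩
  have hpp := abs_le.1 (dot_le_one n1 n1')
  rw [← hp] at hpp
  have hdd : D ^ 2 = (l' - l) ^ 2 + l * l' * (2 - 2 * p) := by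
    rw [hD, len_sq, me, me', nsq_sub, nsq_smul, nsq_smul, n1, n1', smul_dot, dot_smul,
      dot_comm e' e, ← hp]
    ring
  obtain ⟨x, hx⟩ : ∃ x, x = D / l := ⟨_, rfl⟩
  have x0 : 0 ≤ x := by rw [hx]; positivity
  have hx1 : x ≤ 1 / 2 := by
    rw [hx, div_le_iff₀ l0]
    linarith
  have hDx : D = x * l := by rw [hx, div_mul_cancel₀ _ l0.ne']
  have h2p : 2 - 2 * p ≤ 2 * x ^ 2 := Cpl_x l0 hDx (by linarith) hpp.2 hdd
  have hp0 : 3 / 4 ≤ p := by
    have : x ^ 2 ≤ (1 / 2) ^ 2 := pow_le_pow_left₀ x0 hx1 2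
    linarith
  obtain ⟨w, hw⟩ : ∃ w, w = e + e' := ⟨_, rfl⟩
  have hnw : nsq w = 2 + 2 * p := by
    rw [hw, nsq_add, n1, n1', ← hp]
    ring
  have hw0 : w ≠ 0 := by
    rintro rfl
    have e0 : nsq (0 : Vec d) = 0 := by simp [nsq]
    rw [e0] at hnw
    linarith
  obtain ⟨lw, hlw⟩ : ∃ lw, lw = len w := ⟨_, rfl⟩
  have hlw2 : lw ^ 2 = 2 + 2 * p := by rw [hlw, len_sq, hnw]
  have hlw0 : 3 / 2 ≤ lw := by
    rw [hlw]
    unfold len
    exact Real.le_sqrt_of_sq_le (by rw [hnw]; linarith)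
  have hlwp : 0 < lw := by linarith
  have hee : len (e' - e) ≤ 3 / 2 * x := by
    unfold len
    refine Real.sqrt_le_iff.2 ⟨by positivity, ?_⟩
    rw [nsq_sub, n1, n1', dot_comm, ← hp]
    have := sq_nonneg x
    calc 1 - 2 * p + 1 = 2 - 2 * p := by ring
      _ ≤ 2 * x ^ 2 := h2p
      _ ≤ (3 / 2 * x) ^ 2 := by
        rw [mul_pow]
        linarith
  obtain ⟨u, hu⟩ : ∃ u, u = dir w := ⟨_, rfl⟩
  have hu1 : nsq u = 1 := by rw [hu]; exact nsq_dir hw0
  have hu2 : u = lw⁻¹ • w := by rw [hu, hlw]; rfl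
  have hlu : len u = 1 := by
    unfold len
    rw [hu1, Real.sqrt_one]
  have hre : refl u e = e' := by
    have hwe : dot w e = 1 + p := by
      rw [dot_comm, hw, dot_add, dot_self, n1, ← hp]
    have a1 : 2 * (lw⁻¹ * dot w e) * lw⁻¹ = 1 := by
      rw [hwe]
      have a2 : 2 * (lw⁻¹ * (1 + p)) * lw⁻¹ = (2 + 2 * p) * (lw ^ 2)⁻¹ := by ring
      rw [a2, ← hlw2]
      exact mul_inv_cancel₀ (by positivity)
    rw [refl_apply, hu2, smul_dot, smul_smul, a1, one_smul, hw, add_sub_cancel_left]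
  obtain ⟨ρ, hρ⟩ : ∃ ρ, ρ = l' / l := ⟨_, rfl⟩
  have hρ0 : 0 < ρ := by rw [hρ]; positivity
  have hρl : ρ * l = l' := by rw [hρ, div_mul_cancel₀ _ l0.ne']
  have hρ1 : |ρ - 1| ≤ x := by
    rw [abs_le]
    constructor
    · have : (1 - x) * l ≤ ρ * l := by
        rw [hρl, sub_mul, one_mul, ← hDx]
        linarith
      have := le_of_mul_le_mul_right this l0
      linarith
    · have : ρ * l ≤ (1 + x) * l := by
        rw [hρl, add_mul, one_mul, ← hDx]
        exact t1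
      have := le_of_mul_le_mul_right this l0
      linarith
  have hρ2 : ρ ≤ 3 / 2 := by linarith [(abs_le.1 hρ1).2]
  have hmm : m' = ρ • refl u m := by
    rw [me, map_smul, hre, smul_smul, hρl]
    exact me'
  have hrm : Measurable (refl u) := (refl_preserving hd hu1).measurable
  refine ⟨fun h => -(ρ • refl u h), ((measurable_const_smul ρ).comp hrm).neg, ?_, ?_⟩
  · calc Nm γ b ε m' = (Nm γ b ε m').map (fun h => -h) := (Nm_neg hd H.bm γ ε m').symm
      _ = ((Nm γ b ε (refl u m)).map (fun h => ρ • h)).map (fun h => -h) := by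
          rw [← Nm_smul H.bm γ ε hρ0, ← hmm]
      _ = (((Nm γ b ε m).map (refl u)).map (fun h => ρ • h)).map (fun h => -h) := by
          rw [Nm_refl hd H.bm γ ε hu1 m]
      _ = _ := by
          rw [Measure.map_map (measurable_const_smul ρ) hrm,
            Measure.map_map measurable_neg ((measurable_const_smul ρ).comp hrm)]
          rfl
  · filter_upwards [Nm_ae H ε m] with z hz
    have hz1 := hz.1
    obtain ⟨t, ht⟩ : ∃ t, t = dot u z := ⟨_, rfl⟩
    have e1 : -(ρ • refl u z) - z = (ρ - 1) • z - (2 * ρ * t) • u := by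
      rw [refl_apply, ← ht]
      module
    have hez : dot e z = 0 := by
      rw [me, smul_dot] at hz1
      exact (mul_eq_zero.1 hz1).resolve_left l0.ne'
    have htw : t * lw = dot (e' - e) z := by
      have a1 : dot (e' - e) z = dot w z := by
        rw [dot_comm, dot_sub, hw, dot_comm (e + e'), dot_add, dot_comm z e, hez]
        ring
      rw [a1, ht, hu2, smul_dot]
      field_simp
    have hz0 := len_nonneg z
    have htb : |t| ≤ x * len z := by
      have a1 : |t| * lw ≤ 3 / 2 * x * len z := by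
        calc |t| * lw = |t * lw| := by rw [abs_mul, abs_of_pos hlwp]
          _ = |dot (e' - e) z| := by rw [htw]
          _ ≤ len (e' - e) * len z := Cpl_dot _ _
          _ ≤ 3 / 2 * x * len z := mul_le_mul_of_nonneg_right hee hz0
      have a2 : |t| * (3 / 2) ≤ |t| * lw := mul_le_mul_of_nonneg_left hlw0 (abs_nonneg t)
      linarith
    show len (-(ρ • refl u z) - z) ≤ _
    rw [e1, ← hx]
    calc len ((ρ - 1) • z - (2 * ρ * t) • u) ≤ len ((ρ - 1) • z) + len ((2 * ρ * t) • u) :=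
          len_sub_le _ _
      _ = |ρ - 1| * len z + 2 * ρ * |t| := by
          rw [Cpl_ls, Cpl_ls, hlu, mul_one, abs_mul, abs_of_pos (by positivity : 0 < 2 * ρ)]
      _ ≤ x * len z + 2 * (3 / 2) * (x * len z) := by
          have a1 := mul_le_mul_of_nonneg_right hρ1 hz0
          have a2 : 2 * ρ * |t| ≤ 2 * (3 / 2) * (x * len z) :=
            mul_le_mul (by linarith) htb (abs_nonneg t) (by norm_num)
          linarith
      _ ≤ 5 * (len z * x) := by
          have : 0 ≤ x * len z := mul_nonneg x0 hz0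
          linarith

end Pool.Agent.H15.HF
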