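import Pool.Agent.H15.HF.Upp
import Pool.Agent.H15.HF.Cpl

/-!
# Module JfB: bounds of `Jf`

`0 ≤ 1 - cos x ≤ 2 min 1 |x|`, `|cos x - cos y| ≤ 2 min 1 |x-y|`, `|dot κ h| ≤ len κ len h`; `upp_mu` with `μ = len κ` etc. (functions divided by `2`).
`Jf_cpl`: `coup`: `Jf κ m' = ∫ (1 - cos (κ·L x)) dNm(m)` (`integral_map`), `|cos (κ·x) - cos (κ·L x)| ≤ 2 min 1 (μ len x)` a.e., `μ = 5 len κ len (m'-m)/len m`; `upp_mu`: `≤ 2A (μ len m)^(2s) = 2A (5 len κ len (m'-m))^(2s)` (replace the difference by a measurable function with the bound everywhere, or use `upp_mu` for `min 1 (μ len h)` itself and `norm_integral_le_of_norm_le`).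
`Th_dif` (`Θ(m) = len m^γ Jf κ m`), `len κ len δ ≤ D`, `len δ ≤ D`, `len δ > 0`. If `len m ≥ 2 len δ`: `|Θ(m) - Θ(m+δ)| ≤ len m^γ |Jf κ m - Jf κ (m+δ)| + |len m^γ - len (m+δ)^γ| Jf κ (m+δ)`; first `≤ K (1+nsq m)`; second: `|x^γ - y^γ| ≤ K_γ x^γ (|x-y|/x)` for `|x-y| ≤ x/2`, `|x-y|/x ≤ (len δ/len m)^(2s)` (as it is `≤ 1`, `2s ≤ 1`), `Jf κ (m+δ) ≤ 2A (len κ · (3/2) len m)^(2s)`: product `≤ K len m^γ (len κ len δ)^(2s) ≤ K len m^γ`.
If `len m < 2 len δ`: `Θ(m) ≤ (3 len δ)^γ 2A (len κ 3 len δ)^(2s) ≤ K`, the same for `m+δ`. `len m^γ ≤ 1 + nsq m` (`0 ≤ γ ≤ 2`).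
-/

set_option autoImplicit false

open MeasureTheory Set Filter Topology Pool.Agent.H25.Kin Pool.Agent.H48.PL Pool.Agent.H48.PD
open Pool.Agent.H82.BK Pool.Agent.H82.CM Pool.Agent.H48.PR Pool.Agent.H82.HF
open scoped ENNReal

namespace Pool.Agent.H15.HF

variable {d : ℕ} {γ s C Ca cb : ℝ} {b : ℝ → ℝ}

private lemma JfB_abs_dot (u v : Vec d) : |dot u v| ≤ len u * len v := by
  refine abs_le_of_sq_le_sq ?_ (mul_nonneg (len_nonneg _) (len_nonneg _))
  rw [mul_pow, len_sq, len_sq]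
  exact Finset.sum_mul_sq_le_sq_mul_sq _ _ _

private lemma JfB_cos (x y z : ℝ) (h : |x - y| ≤ z) : |(Real.cos x - Real.cos y) / 2| ≤ min 1 z := by
  have h1 := Real.abs_cos_sub_cos_le x y
  have h2 := Real.neg_one_le_cos x
  have h3 := Real.cos_le_one x
  have h4 := Real.neg_one_le_cos y
  have h5 := Real.cos_le_one y
  have h6 : 0 ≤ |x - y| := abs_nonneg _
  refine le_min ?_ ?_
  · rw [abs_le]
    constructor <;> linarith
  · have h7 : |Real.cos x - Real.cos y| ≤ z := h1.trans h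
    rw [abs_le] at h7
    have h8 : 0 ≤ z := h6.trans h
    rw [abs_le]
    constructor <;> linarith [h7.1, h7.2]

private lemma JfB_mcos (κ : Vec d) : Measurable fun h : Vec d => Real.cos (dot κ h) := by
  have h : Continuous fun h : Vec d => dot κ h := by
    unfold dot
    fun_prop
  exact (Real.continuous_cos.comp h).measurable

lemma Jf_nonneg (γ : ℝ) (b : ℝ → ℝ) (ε : ℝ) (κ m : Vec d) : 0 ≤ Jf γ b ε κ m := by
  exact integral_nonneg fun h => sub_nonneg.2 (Real.cos_le_one _)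

lemma Jf_meas (hb : Measurable b) (γ ε : ℝ) (κ : Vec d) : Measurable fun m => Jf γ b ε κ m := by
  have h : Measurable fun z : Vec d × Vec d => 1 - Real.cos (dot κ z.2) :=
    measurable_const.sub ((JfB_mcos κ).comp measurable_snd)
  exact meas_Nm hb γ ε h

theorem Jf_le (H : Hyp d γ s b C Ca) (hs : 2 * s < 1) : ∃ A : ℝ, 0 ≤ A ∧ ∀ ε : ℝ, 0 ≤ ε →
    ∀ κ κ' m : Vec d, Integrable (fun h => 1 - Real.cos (dot κ h)) (Nm γ b ε m) ∧
      Jf γ b ε κ m ≤ A * (len κ * len m) ^ (2 * s) ∧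
      |Jf γ b ε κ m - Jf γ b ε κ' m| ≤ A * (len (κ - κ') * len m) ^ (2 * s) := by
  obtain ⟨A, hA, hU⟩ := upp_mu H hs
  refine ⟨2 * A, by positivity, fun ε hε κ κ' m => ?_⟩
  have key : ∀ κ : Vec d, Integrable (fun h => 1 - Real.cos (dot κ h)) (Nm γ b ε m) ∧
      Jf γ b ε κ m ≤ 2 * A * (len κ * len m) ^ (2 * s) := by
    intro κ
    have hm : Measurable fun h : Vec d => (Real.cos 0 - Real.cos (dot κ h)) / 2 :=
      (measurable_const.sub (JfB_mcos κ)).div_const 2
    have hb : ∀ h : Vec d, |(Real.cos 0 - Real.cos (dot κ h)) / 2| ≤ min 1 (len κ * len h) := by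
      intro h
      refine JfB_cos 0 _ _ ?_
      rw [zero_sub, abs_neg]
      exact JfB_abs_dot κ h
    obtain ⟨h1, h2⟩ := hU ε hε m (len κ) (len_nonneg _) _ hm hb
    have e : (fun h : Vec d => 1 - Real.cos (dot κ h)) =
        fun h => 2 * ((Real.cos 0 - Real.cos (dot κ h)) / 2) := by
      funext h
      rw [Real.cos_zero]
      ring
    have e2 : Jf γ b ε κ m = 2 * ∫ h, (Real.cos 0 - Real.cos (dot κ h)) / 2 ∂(Nm γ b ε m) := by
      unfold Jf
      rw [e, integral_const_mul]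
    refine ⟨?_, ?_⟩
    · rw [e]
      exact h1.const_mul 2
    · rw [e2]
      have h3 := (le_abs_self _).trans h2
      linarith
  refine ⟨(key κ).1, (key κ).2, ?_⟩
  have hm : Measurable fun h : Vec d => (Real.cos (dot κ' h) - Real.cos (dot κ h)) / 2 :=
    ((JfB_mcos κ').sub (JfB_mcos κ)).div_const 2
  have hb : ∀ h : Vec d, |(Real.cos (dot κ' h) - Real.cos (dot κ h)) / 2| ≤
      min 1 (len (κ - κ') * len h) := by
    intro h
    refine JfB_cos _ _ _ ?_
    have e : dot κ' h - dot κ h = -dot (κ - κ') h := by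
      rw [dot_comm (κ - κ') h, dot_sub, dot_comm h κ, dot_comm h κ']
      ring
    rw [e, abs_neg]
    exact JfB_abs_dot _ h
  obtain ⟨-, h2⟩ := hU ε hε m (len (κ - κ')) (len_nonneg _) _ hm hb
  have e : Jf γ b ε κ m - Jf γ b ε κ' m =
      2 * ∫ h, (Real.cos (dot κ' h) - Real.cos (dot κ h)) / 2 ∂(Nm γ b ε m) := by
    unfold Jf
    rw [← integral_sub (key κ).1 (key κ').1, ← integral_const_mul]
    refine integral_congr_ae (Eventually.of_forall fun h => ?_)
    show 1 - Real.cos (dot κ h) - (1 - Real.cos (dot κ' h)) =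
      2 * ((Real.cos (dot κ' h) - Real.cos (dot κ h)) / 2)
    ring
  rw [e, abs_mul, abs_of_pos (by norm_num : (0 : ℝ) < 2)]
  linarith

theorem Jf_cpl (H : Hyp d γ s b C Ca) (hs : 2 * s < 1) : ∃ A : ℝ, 0 ≤ A ∧ ∀ ε : ℝ, 0 ≤ ε →
    ∀ κ m m' : Vec d, m ≠ 0 → len (m' - m) ≤ len m / 2 →
      |Jf γ b ε κ m - Jf γ b ε κ m'| ≤ A * (len κ * len (m' - m)) ^ (2 * s) := by
  obtain ⟨A, hA, hU⟩ := upp_mu H hs
  obtain ⟨A', hA', hJ⟩ := Jf_le H hs
  refine ⟨2 * A * 5 ^ (2 * s), by positivity, fun ε hε κ m m' hm hmm => ?_⟩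
  obtain ⟨L, hL, hN, hae⟩ := coup H ε hm hmm
  have hm0 : 0 < len m := len_pos hm
  set μ : ℝ := 5 * (len κ * (len (m' - m) / len m)) with hμ
  have hμ0 : 0 ≤ μ := by
    have := len_nonneg κ
    have := len_nonneg (m' - m)
    positivity
  have hI1 := (hJ ε hε κ κ m).1
  have hI2 := (hJ ε hε κ κ m').1
  have hgm : Measurable fun h : Vec d => 1 - Real.cos (dot κ h) :=
    measurable_const.sub (JfB_mcos κ)
  rw [hN] at hI2
  have hI3 : Integrable (fun x => 1 - Real.cos (dot κ (L x))) (Nm γ b ε m) :=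
    (integrable_map_measure hgm.aestronglyMeasurable hL.aemeasurable).1 hI2
  have e1 : Jf γ b ε κ m' = ∫ x, (1 - Real.cos (dot κ (L x))) ∂(Nm γ b ε m) := by
    unfold Jf
    rw [hN, integral_map hL.aemeasurable hgm.aestronglyMeasurable]
  set ψ : Vec d → ℝ := fun x => (Real.cos (dot κ (L x)) - Real.cos (dot κ x)) / 2 with hψ
  set g : Vec d → ℝ := fun x => min 1 (μ * len x) with hg
  have hg0 : ∀ x, 0 ≤ g x := fun x => le_min zero_le_one (mul_nonneg hμ0 (len_nonneg x))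
  have hψm : Measurable ψ := (((JfB_mcos κ).comp hL).sub (JfB_mcos κ)).div_const 2
  have hgm' : Measurable g :=
    measurable_const.min (measurable_const.mul continuous_len.measurable)
  have hφm : Measurable fun x => max (-(g x)) (min (g x) (ψ x)) := hgm'.neg.max (hgm'.min hψm)
  have hφb : ∀ x, |max (-(g x)) (min (g x) (ψ x))| ≤ min 1 (μ * len x) := by
    intro x
    have h0 := hg0 x
    rw [abs_le]
    refine ⟨le_max_left _ _, max_le ?_ (min_le_left _ _)⟩
    exact (neg_nonpos.2 h0).trans h0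
  obtain ⟨-, h2⟩ := hU ε hε m μ hμ0 _ hφm hφb
  have hae2 : (fun x => max (-(g x)) (min (g x) (ψ x))) =ᵐ[Nm γ b ε m] ψ := by
    filter_upwards [hae] with x hx
    have h3 : |ψ x| ≤ g x := by
      refine JfB_cos _ _ _ ?_
      have e : dot κ (L x) - dot κ x = dot κ (L x - x) := (dot_sub κ (L x) x).symm
      rw [e]
      refine (JfB_abs_dot _ _).trans ?_
      refine (mul_le_mul_of_nonneg_left hx (len_nonneg κ)).trans (le_of_eq ?_)
      rw [hμ]
      ring
    rw [abs_le] at h3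
    show max (-(g x)) (min (g x) (ψ x)) = ψ x
    rw [min_eq_right h3.2, max_eq_right h3.1]
  have e2 : Jf γ b ε κ m - Jf γ b ε κ m' =
      2 * ∫ x, max (-(g x)) (min (g x) (ψ x)) ∂(Nm γ b ε m) := by
    rw [integral_congr_ae hae2, e1]
    unfold Jf
    rw [← integral_sub hI1 hI3, ← integral_const_mul]
    refine integral_congr_ae (Eventually.of_forall fun x => ?_)
    show 1 - Real.cos (dot κ x) - (1 - Real.cos (dot κ (L x))) =
      2 * ((Real.cos (dot κ (L x)) - Real.cos (dot κ x)) / 2)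
    ring
  have e3 : μ * len m = 5 * (len κ * len (m' - m)) := by
    rw [hμ]
    field_simp
  rw [e3, Real.mul_rpow (by norm_num) (mul_nonneg (len_nonneg _) (len_nonneg _))] at h2
  rw [e2, abs_mul, abs_of_pos (by norm_num : (0 : ℝ) < 2)]
  calc 2 * |∫ x, max (-(g x)) (min (g x) (ψ x)) ∂(Nm γ b ε m)|
      ≤ 2 * (A * (5 ^ (2 * s) * (len κ * len (m' - m)) ^ (2 * s))) :=
        mul_le_mul_of_nonneg_left h2 (by norm_num)
    _ = _ := by ring

/-- `|u^γ - 1| ≤ 3 |u - 1|` for `0 ≤ γ ≤ 2`, `0 < u ≤ 2` -/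
private lemma JfB_pow {γ u : ℝ} (h0 : 0 ≤ γ) (h2 : γ ≤ 2) (hu : 0 < u) (hu2 : u ≤ 2) :
    |u ^ γ - 1| ≤ 3 * |u - 1| := by
  have e : u ^ (2 : ℝ) = u ^ 2 := by
    exact_mod_cast Real.rpow_natCast u 2
  rcases le_total 1 u with h | h
  · have h3 : 1 ≤ u ^ γ := Real.one_le_rpow h h0
    have h4 : u ^ γ ≤ u ^ (2 : ℝ) := Real.rpow_le_rpow_of_exponent_le h h2
    rw [e] at h4
    rw [abs_of_nonneg (by linarith), abs_of_nonneg (by linarith)]
    nlinarith
  · have h3 : u ^ γ ≤ 1 := Real.rpow_le_one hu.le h h0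
    have h4 : u ^ (2 : ℝ) ≤ u ^ γ := Real.rpow_le_rpow_of_exponent_ge hu h h2
    rw [e] at h4
    rw [abs_of_nonpos (by linarith), abs_of_nonpos (by linarith)]
    nlinarith

private lemma JfB_one {γ : ℝ} (h0 : 0 ≤ γ) (h2 : γ ≤ 2) (m : Vec d) : len m ^ γ ≤ 1 + nsq m := by
  have hx := len_nonneg m
  have hn : 0 ≤ nsq m := sq_nonneg' m
  rcases le_total 1 (len m) with h | h
  · have h4 : len m ^ γ ≤ len m ^ (2 : ℝ) := Real.rpow_le_rpow_of_exponent_le h h2
    have e : len m ^ (2 : ℝ) = nsq m := by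
      rw [← len_sq]
      exact_mod_cast Real.rpow_natCast (len m) 2
    linarith
  · have h3 : len m ^ γ ≤ 1 := Real.rpow_le_one hx h h0
    linarith

theorem Th_dif (H : Hyp d γ s b C Ca) (h0 : 0 ≤ γ) (hs : 2 * s < 1) (D : ℝ) : ∃ A : ℝ, 0 ≤ A ∧
    ∀ ε : ℝ, 0 ≤ ε → ∀ κ m δ : Vec d, len κ * len δ ≤ D → len δ ≤ D →
      |len m ^ γ * Jf γ b ε κ m - len (m + δ) ^ γ * Jf γ b ε κ (m + δ)| ≤ A * (1 + nsq m) := by
  obtain ⟨A₁, hA₁, hJ⟩ := Jf_le H hs
  obtain ⟨A₂, hA₂, hC⟩ := Jf_cpl H hs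
  have hγ2 := H.g2
  have hs0 := H.hs
  have h2s : 0 ≤ 2 * s := by linarith
  set E : ℝ := |D| with hE
  have hE0 : 0 ≤ E := abs_nonneg D
  refine ⟨(3 * E) ^ γ * (A₁ * (3 * E) ^ (2 * s)) + (A₂ * E ^ (2 * s) + 3 * (A₁ * (2 * E) ^ (2 * s))),
    by positivity, fun ε hε κ m δ h1 h2 => ?_⟩
  have hDE : D ≤ E := le_abs_self D
  have h1' : len κ * len δ ≤ E := h1.trans hDE
  have h2' : len δ ≤ E := h2.trans hDE
  have hn : 0 ≤ nsq m := sq_nonneg' m
  have hk := len_nonneg κ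
  have hx := len_nonneg m
  have ht := len_nonneg δ
  have hy := len_nonneg (m + δ)
  have hyx : len (m + δ) ≤ len m + len δ := len_add_le m δ
  have hxy : len m ≤ len (m + δ) + len δ := by
    have := len_sub_le (m + δ) δ
    rwa [add_sub_cancel_right] at this
  have hJx := (hJ ε hε κ κ m).2.1
  have hJy := (hJ ε hε κ κ (m + δ)).2.1
  have hJx0 := Jf_nonneg γ b ε κ m
  have hJy0 := Jf_nonneg γ b ε κ (m + δ)
  have c1 : 0 ≤ (3 * E) ^ γ * (A₁ * (3 * E) ^ (2 * s)) := by positivity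
  have c2 : 0 ≤ A₂ * E ^ (2 * s) := by positivity
  have c3 : 0 ≤ 3 * (A₁ * (2 * E) ^ (2 * s)) := by positivity
  rcases lt_or_ge (len m) (2 * len δ) with hc | hc
  · -- small `m`
    have key : ∀ z : Vec d, len z ≤ 3 * len δ → len z ^ γ * Jf γ b ε κ z ≤
        (3 * E) ^ γ * (A₁ * (3 * E) ^ (2 * s)) := by
      intro z hz
      have hz0 := len_nonneg z
      have hJz := (hJ ε hε κ κ z).2.1
      have hz1 : len z ≤ 3 * E := hz.trans (by linarith)
      have hz2 : len κ * len z ≤ 3 * E := by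
        have := mul_le_mul_of_nonneg_left hz hk
        linarith
      refine mul_le_mul (Real.rpow_le_rpow hz0 hz1 h0) (hJz.trans ?_) (Jf_nonneg _ _ _ _ _)
        (by positivity)
      exact mul_le_mul_of_nonneg_left (Real.rpow_le_rpow (by positivity) hz2 h2s) hA₁
    have k1 := key m (by linarith)
    have k2 := key (m + δ) (by linarith)
    have k3 : 0 ≤ len m ^ γ * Jf γ b ε κ m := mul_nonneg (Real.rpow_nonneg hx _) hJx0
    have k4 : 0 ≤ len (m + δ) ^ γ * Jf γ b ε κ (m + δ) := mul_nonneg (Real.rpow_nonneg hy _) hJy0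
    have k5 : |len m ^ γ * Jf γ b ε κ m - len (m + δ) ^ γ * Jf γ b ε κ (m + δ)| ≤
        (3 * E) ^ γ * (A₁ * (3 * E) ^ (2 * s)) := by
      rw [abs_le]
      constructor <;> linarith
    refine k5.trans ?_
    nlinarith
  · -- large `m`
    by_cases hm : m = 0
    · have hδ : δ = 0 := by
        by_contra hne
        have := len_pos hne
        rw [hm, len_zero] at hc
        linarith
      rw [hδ, add_zero, sub_self, abs_zero]
      positivity
    have hm0 : 0 < len m := len_pos hm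
    have e0 : m + δ - m = δ := by abel
    have hd1 := hC ε hε κ m (m + δ) hm (by rw [e0]; linarith)
    rw [e0] at hd1
    have hd2 : |Jf γ b ε κ m - Jf γ b ε κ (m + δ)| ≤ A₂ * E ^ (2 * s) :=
      hd1.trans (mul_le_mul_of_nonneg_left (Real.rpow_le_rpow (by positivity) h1' h2s) hA₂)
    have hxg := JfB_one h0 hγ2 m
    have hxg0 : 0 ≤ len m ^ γ := Real.rpow_nonneg hx _
    have hy0 : 0 < len (m + δ) := by linarith
    set u : ℝ := len (m + δ) / len m with hu
    have hu0 : 0 < u := div_pos hy0 hm0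
    have hu2 : u ≤ 3 / 2 := by
      rw [hu, div_le_iff₀ hm0]
      linarith
    have hyu : len (m + δ) = len m * u := by
      rw [hu]
      field_simp
    have hu1 : |u - 1| ≤ len δ / len m := by
      have e : u - 1 = (len (m + δ) - len m) / len m := by
        rw [hu]
        field_simp
      rw [e, abs_div, abs_of_pos hm0]
      refine div_le_div_of_nonneg_right ?_ hm0.le
      rw [abs_le]
      constructor <;> linarith
    have hp : |len m ^ γ - len (m + δ) ^ γ| ≤ 3 * (len m ^ γ * (len δ / len m)) := by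
      have e : len m ^ γ - len (m + δ) ^ γ = -(len m ^ γ * (u ^ γ - 1)) := by
        rw [hyu, Real.mul_rpow hx hu0.le]
        ring
      rw [e, abs_neg, abs_mul, abs_of_nonneg hxg0]
      have := JfB_pow h0 hγ2 hu0 (by linarith)
      have h3 : |u ^ γ - 1| ≤ 3 * (len δ / len m) := this.trans (by linarith)
      have h4 := mul_le_mul_of_nonneg_left h3 hxg0
      linarith
    have ht0 : 0 ≤ len δ / len m := by positivity
    have ht1 : len δ / len m ≤ 1 := by
      rw [div_le_one hm0]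
      linarith
    have hts : len δ / len m ≤ (len δ / len m) ^ (2 * s) := by
      rcases ht0.eq_or_lt with h | h
      · rw [← h, Real.zero_rpow (by linarith)]
      · have := Real.rpow_le_rpow_of_exponent_ge h ht1 hs.le
        rwa [Real.rpow_one] at this
    have hprod : len δ / len m * Jf γ b ε κ (m + δ) ≤ A₁ * (2 * E) ^ (2 * s) := by
      have q1 : Jf γ b ε κ (m + δ) ≤ A₁ * (len κ * (3 / 2 * len m)) ^ (2 * s) := by
        refine hJy.trans (mul_le_mul_of_nonneg_left (Real.rpow_le_rpow (by positivity) ?_ h2s) hA₁)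
        refine mul_le_mul_of_nonneg_left ?_ hk
        linarith
      have q2 : len δ / len m * Jf γ b ε κ (m + δ) ≤
          (len δ / len m) ^ (2 * s) * (A₁ * (len κ * (3 / 2 * len m)) ^ (2 * s)) :=
        mul_le_mul hts q1 hJy0 (by positivity)
      refine q2.trans ?_
      have q3 : (len δ / len m) ^ (2 * s) * (A₁ * (len κ * (3 / 2 * len m)) ^ (2 * s)) =
          A₁ * ((len δ / len m) * (len κ * (3 / 2 * len m))) ^ (2 * s) := by
        rw [Real.mul_rpow ht0 (by positivity)]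
        ring
      rw [q3]
      refine mul_le_mul_of_nonneg_left (Real.rpow_le_rpow (by positivity) ?_ h2s) hA₁
      have q4 : len δ / len m * (len κ * (3 / 2 * len m)) = 3 / 2 * (len κ * len δ) := by
        field_simp
      rw [q4]
      linarith
    have e : len m ^ γ * Jf γ b ε κ m - len (m + δ) ^ γ * Jf γ b ε κ (m + δ) =
        len m ^ γ * (Jf γ b ε κ m - Jf γ b ε κ (m + δ)) +
          (len m ^ γ - len (m + δ) ^ γ) * Jf γ b ε κ (m + δ) := by ring
    rw [e]
    refine (abs_add_le _ _).trans ?_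
    rw [abs_mul, abs_mul, abs_of_nonneg hxg0, abs_of_nonneg hJy0]
    have r1 : len m ^ γ * |Jf γ b ε κ m - Jf γ b ε κ (m + δ)| ≤ A₂ * E ^ (2 * s) * (1 + nsq m) := by
      have := mul_le_mul hxg hd2 (abs_nonneg _) (by linarith : (0 : ℝ) ≤ 1 + nsq m)
      linarith
    have r2 : |len m ^ γ - len (m + δ) ^ γ| * Jf γ b ε κ (m + δ) ≤
        3 * (A₁ * (2 * E) ^ (2 * s)) * (1 + nsq m) := by
      have r3 := mul_le_mul_of_nonneg_right hp hJy0
      have r4 : 3 * (len m ^ γ * (len δ / len m)) * Jf γ b ε κ (m + δ) =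
          3 * (len m ^ γ * (len δ / len m * Jf γ b ε κ (m + δ))) := by ring
      rw [r4] at r3
      refine r3.trans ?_
      have r5 := mul_le_mul hxg hprod (mul_nonneg ht0 hJy0) (by linarith : (0 : ℝ) ≤ 1 + nsq m)
      linarith
    have r6 : 0 ≤ (3 * E) ^ γ * (A₁ * (3 * E) ^ (2 * s)) * (1 + nsq m) :=
      mul_nonneg c1 (by linarith)
    nlinarith

end Pool.Agent.H15.HF
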