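import Pool.Agent.H15.HF.NmA

/-!
# Module Low: lower bound of the second moment of `Nm` (full kernel)

`shell_low` (H82/CM/Shell): the set `u ≤ 1 - dot e σ ≤ 32 u` has surface measure `≥ c u^((d-1)/2)`, `e = dir m`. Choose `u = R²/(256·... |m|²)` so small that on it `|h|² = |m|²(1-c²)/c² ≤ 4 |m|² (1-c) ≤ 128 u |m|² ≤ R²`, i.e. `u = R²/(256 |m|²) ≤ 1/256`. There `1-c² ≥ 1-c ≥ u`, so `|h|² ≥ |m|² u`; `Kn(c) = 2^(d-1) c^(-2-γ) bt b 0 (2c²-1) ≥ bt b 0 (x)`, `x = 2c²-1`, `1 - x = 2(1-c²) ≤ 4(1-c) ≤ 128 u ≤ 1/2`, `bt b 0 x ≥ b x ≥ cb (1-x)^(-β) ≥ cb (128 u)^(-β)`, `β = (d-1)/2+s` (`bt_ge` with `ε = 0`, `HL.lo`; `c < 1` there).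
Integral `≥ c' |m|² u · u^(-β) · u^((d-1)/2) = c' |m|² u^(1-s)`, `u = R²/(256|m|²)`. See `slack_low`, `loss_low` in H82/CM/LowK for the handling of the shell integrals.
-/

set_option autoImplicit false

open MeasureTheory Set Filter Topology Pool.Agent.H25.Kin Pool.Agent.H48.PL Pool.Agent.H48.PD
open Pool.Agent.H82.BK Pool.Agent.H82.CM Pool.Agent.H48.PR Pool.Agent.H82.HF
open scoped ENNReal

namespace Pool.Agent.H15.HF

variable {d : ℕ} {γ s C Ca cb : ℝ} {b : ℝ → ℝ}

/-- the power of `u` -/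
private lemma Low_pow {s l R : ℝ} (hl : 0 < l) (hR : 0 < R) :
    l ^ 2 * (R ^ 2 / (256 * l ^ 2)) ^ (1 - s) =
      256 ^ (-(1 - s)) * l ^ (2 * s) * R ^ (2 - 2 * s) := by
  have e1 : R ^ 2 / (256 * l ^ 2) = R ^ 2 * (256⁻¹ * (l ^ 2)⁻¹) := by
    rw [div_eq_mul_inv, mul_inv]
  rw [e1, Real.mul_rpow (by positivity) (by positivity),
    Real.mul_rpow (by positivity) (by positivity), Real.inv_rpow (by norm_num),
    Real.inv_rpow (by positivity), ← Real.rpow_neg (by norm_num), ← Real.rpow_neg (by positivity)]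
  have e2 : (R ^ 2) ^ (1 - s) = R ^ (2 - 2 * s) := by
    rw [← Real.rpow_natCast R 2, ← Real.rpow_mul hR.le]
    norm_num
    ring_nf
  have e3 : l ^ 2 * (l ^ 2) ^ (-(1 - s)) = l ^ (2 * s) := by
    rw [← Real.rpow_natCast l 2, ← Real.rpow_mul hl.le, ← Real.rpow_add hl]
    norm_num
    ring_nf
  rw [e2]
  calc l ^ 2 * (R ^ (2 - 2 * s) * (256 ^ (-(1 - s)) * (l ^ 2) ^ (-(1 - s))))
      = 256 ^ (-(1 - s)) * (l ^ 2 * (l ^ 2) ^ (-(1 - s))) * R ^ (2 - 2 * s) := by ring
    _ = _ := by rw [e3]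

theorem sec_low (HL : HypL d γ s b C Ca cb) (h0 : 0 ≤ γ) : ∃ c : ℝ, 0 < c ∧
    ∀ (m : Vec d) (R : ℝ), m ≠ 0 → 0 < R → R ≤ len m →
      ENNReal.ofReal (c * len m ^ (2 * s) * R ^ (2 - 2 * s)) ≤
        ∫⁻ h in {h : Vec d | len h ≤ R}, ENNReal.ofReal (nsq h) ∂(Nm γ b 0 m) := by
  obtain ⟨c, hc, hsh⟩ := shell_low HL.H.hd
  have hcb := HL.lo.1
  have hβ := HL.H.β0
  have hs0 := HL.H.hs
  have hs1 := HL.H.hs1
  set D : ℝ := ((d : ℝ) - 1) / 2 with hD
  set B : ℝ := D + s with hB
  set M : ℝ := cb * 128 ^ (-B) with hM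
  have hM0 : 0 < M := by positivity
  refine ⟨M * c * 256 ^ (-(1 - s)), by positivity, fun m R hm hR hRm => ?_⟩
  have hl := len_pos hm
  set u : ℝ := R ^ 2 / (256 * len m ^ 2) with hu'
  have hu : 0 < u := by positivity
  have hu1 : u ≤ 1 / 256 := by
    rw [hu', div_le_div_iff₀ (by positivity) (by norm_num)]
    nlinarith
  have hue : 256 * u * len m ^ 2 = R ^ 2 := by
    rw [hu']
    field_simp
  have hk := nsq_dir hm
  have h1 := hsh (dir m) hk u hu (by linarith)
  set S : Set (Vec d) := {σ : Vec d | u ≤ 1 - dot (dir m) σ ∧ 1 - dot (dir m) σ ≤ 32 * u} with hS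
  have hSm : MeasurableSet S :=
    ((isClosed_le continuous_const (continuous_const.sub (dot_cont (dir m)))).inter
      (isClosed_le (continuous_const.sub (dot_cont (dir m))) continuous_const)).measurableSet
  have hSsub : S ⊆ {σ : Vec d | 0 < dot m σ} := by
    intro σ hσ
    have h3 := hσ.2
    have h4 : 0 < co m σ := by rw [co_eq]; linarith
    unfold co at h4
    have := mul_pos h4 hl
    rw [div_mul_cancel₀ _ hl.ne'] at this
    exact this
  set T : Set (Vec d) := {h : Vec d | len h ≤ R} with hT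
  have hnm : Measurable fun h : Vec d => nsq h := continuous_sq.measurable
  have hTm : MeasurableSet T := by
    have : Measurable fun h : Vec d => len h := by
      unfold len
      exact hnm.sqrt
    exact measurableSet_le this measurable_const
  have hφ : Measurable (T.indicator fun h : Vec d => ENNReal.ofReal (nsq h)) :=
    hnm.ennreal_ofReal.indicator hTm
  rw [← lintegral_indicator hTm, lint_Nm HL.H.bm γ 0 m hφ]
  calc ENNReal.ofReal (M * c * 256 ^ (-(1 - s)) * len m ^ (2 * s) * R ^ (2 - 2 * s))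
      = ENNReal.ofReal (M * u ^ (-B) * (len m ^ 2 * u)) * ENNReal.ofReal (c * u ^ D) := by
        rw [← ENNReal.ofReal_mul (by positivity)]
        congr 1
        have e1 : u ^ (1 - s) = u ^ (-B) * u * u ^ D := by
          have : u ^ (-B) * u = u ^ (-B + 1) := by
            rw [Real.rpow_add hu, Real.rpow_one]
          rw [this, ← Real.rpow_add hu, hB]
          congr 1
          ring
        have e2 := Low_pow (s := s) hl hR
        rw [← hu'] at e2
        calc M * c * 256 ^ (-(1 - s)) * len m ^ (2 * s) * R ^ (2 - 2 * s)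
            = M * c * (256 ^ (-(1 - s)) * len m ^ (2 * s) * R ^ (2 - 2 * s)) := by ring
          _ = M * c * (len m ^ 2 * u ^ (1 - s)) := by rw [e2]
          _ = M * c * (len m ^ 2 * (u ^ (-B) * u * u ^ D)) := by rw [e1]
          _ = _ := by ring
    _ ≤ ENNReal.ofReal (M * u ^ (-B) * (len m ^ 2 * u)) * surf d S := by gcongr
    _ = ∫⁻ _σ in S, ENNReal.ofReal (M * u ^ (-B) * (len m ^ 2 * u)) ∂(surf d) := by
        rw [setLIntegral_const]
    _ ≤ ∫⁻ σ in S, ENNReal.ofReal (Kn d γ (bt b 0) (co m σ)) *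
          T.indicator (fun h : Vec d => ENNReal.ofReal (nsq h)) (hh σ m) ∂(surf d) := by
        refine setLIntegral_mono_ae' hSm ?_
        filter_upwards [surf_ae (d := d)] with σ hσ1 hσ
        have hdot : 0 < dot m σ := hSsub hσ
        obtain ⟨h2, h3⟩ := hσ
        rw [← co_eq] at h2 h3
        have hn := nsq_hh hσ1 hdot
        set c' := co m σ with hc'
        have hc1 : 7 / 8 ≤ c' := by linarith
        have hc2 : c' < 1 := by linarith
        have hc0 : 0 < c' := by linarith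
        have hx0 : 0 < 2 * c' ^ 2 - 1 := by nlinarith
        have hx1 : 2 * c' ^ 2 - 1 < 1 := by nlinarith
        have h4 := bt_ge (ε := 0) HL.H.bd hx0 hx1.le (by linarith)
        have h5 := HL.lo.2 (2 * c' ^ 2 - 1) hx0.le hx1
        have h6 : (128 * u) ^ (-B) ≤ (1 - (2 * c' ^ 2 - 1)) ^ (-B) := by
          refine Real.rpow_le_rpow_of_nonpos (by linarith) ?_ (by linarith)
          nlinarith
        have h7 : (128 * u) ^ (-B) = 128 ^ (-B) * u ^ (-B) :=
          Real.mul_rpow (by norm_num) hu.le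
        have h8 : cb * (128 ^ (-B) * u ^ (-B)) ≤ bt b 0 (2 * c' ^ 2 - 1) := by
          rw [← h7]
          exact (mul_le_mul_of_nonneg_left h6 hcb.le).trans (h5.trans h4)
        have h9 : 1 ≤ c' ^ (-2 - γ) :=
          Real.one_le_rpow_of_pos_of_le_one_of_nonpos hc0 hc2.le (by linarith)
        have h10 : (1 : ℝ) ≤ 2 ^ (d - 1) := one_le_pow₀ (by norm_num)
        have h12 : 0 < u ^ (-B) := Real.rpow_pos_of_pos hu _
        have hb0 : 0 ≤ cb * (128 ^ (-B) * u ^ (-B)) := by positivity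
        have hb1 : 0 ≤ bt b 0 (2 * c' ^ 2 - 1) := hb0.trans h8
        have h13 : bt b 0 (2 * c' ^ 2 - 1) ≤
            2 ^ (d - 1) * c' ^ (-2 - γ) * bt b 0 (2 * c' ^ 2 - 1) := by
          refine le_mul_of_one_le_left hb1 ?_
          exact one_le_mul_of_one_le_of_one_le h10 h9
        have h14 : M * u ^ (-B) ≤ Kn d γ (bt b 0) c' := by
          unfold Kn
          calc M * u ^ (-B) = cb * (128 ^ (-B) * u ^ (-B)) := by rw [hM]; ring
            _ ≤ _ := h8.trans h13
        have hc3 : 0 < c' ^ 2 := by positivity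
        have hq1 : (1 - c' ^ 2) / c' ^ 2 ≤ 4 * (1 - c') := by
          rw [div_le_iff₀ hc3]
          have e1 : 1 + c' ≤ 4 * c' ^ 2 := by nlinarith
          calc 1 - c' ^ 2 = (1 - c') * (1 + c') := by ring
            _ ≤ (1 - c') * (4 * c' ^ 2) := mul_le_mul_of_nonneg_left e1 (by linarith)
            _ = 4 * (1 - c') * c' ^ 2 := by ring
        have hq2 : u ≤ (1 - c' ^ 2) / c' ^ 2 := by
          rw [le_div_iff₀ hc3]
          have e1 : c' ^ 2 ≤ 1 := by nlinarith
          calc u * c' ^ 2 ≤ u * 1 := mul_le_mul_of_nonneg_left e1 hu.le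
            _ = u := mul_one u
            _ ≤ 1 - c' := h2
            _ ≤ 1 - c' ^ 2 := by nlinarith
        have hlm : 0 < len m ^ 2 := by positivity
        have hn1 : nsq (hh σ m) ≤ R ^ 2 := by
          rw [hn, ← len_sq m]
          calc len m ^ 2 * ((1 - c' ^ 2) / c' ^ 2) ≤ len m ^ 2 * (4 * (1 - c')) :=
                mul_le_mul_of_nonneg_left hq1 hlm.le
            _ ≤ len m ^ 2 * (256 * u) := mul_le_mul_of_nonneg_left (by linarith) hlm.le
            _ = R ^ 2 := by rw [← hue]; ring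
        have hmem : hh σ m ∈ T := by
          show len (hh σ m) ≤ R
          unfold len
          exact Real.sqrt_le_iff.2 ⟨hR.le, hn1⟩
        rw [indicator_of_mem hmem, ← ENNReal.ofReal_mul ((by positivity : 0 ≤ M * u ^ (-B)).trans h14)]
        refine ENNReal.ofReal_le_ofReal ?_
        refine mul_le_mul h14 ?_ (by positivity) ((by positivity : 0 ≤ M * u ^ (-B)).trans h14)
        rw [hn, ← len_sq m]
        exact mul_le_mul_of_nonneg_left hq2 hlm.le
    _ ≤ _ := lintegral_mono_set hSsub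

end Pool.Agent.H15.HF
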