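import Pool.Agent.H15.HF.NmA

/-!
# Module Out: the outer integral

`(1 + nsq m) ≤ 2 (1 + nsq v)(1 + nsq (v-m))`, `Wp q (v-m) (1+nsq (v-m))^2 = Wp (q-2) (v-m)` integrable (`q - 2 ≥ d + 8`), translation invariance (`lintegral_sub_left_eq_self`). `len m ^ γ ≤ 1 + nsq m` (`0 ≤ γ ≤ 2`).
-/

set_option autoImplicit false

open MeasureTheory Set Filter Topology Pool.Agent.H25.Kin Pool.Agent.H48.PL Pool.Agent.H48.PD
open Pool.Agent.H82.BK Pool.Agent.H82.CM Pool.Agent.H48.PR Pool.Agent.H82.HF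
open scoped ENNReal

namespace Pool.Agent.H15.HF

variable {d : ℕ} {γ s C Ca cb : ℝ} {b : ℝ → ℝ}

private lemma out_len {γ : ℝ} (h0 : 0 ≤ γ) (h2 : γ ≤ 2) (m : Vec d) : len m ^ γ ≤ 1 + nsq m := by
  have hl := len_nonneg m
  have hn := sq_nonneg' m
  rcases le_total (len m) 1 with h | h
  · have := Real.rpow_le_one hl h h0
    linarith
  · have h3 : len m ^ γ ≤ len m ^ (2 : ℝ) := Real.rpow_le_rpow_of_exponent_le h h2
    rw [Real.rpow_two, len_sq] at h3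
    linarith

private lemma out_nsq (v m : Vec d) : 1 + nsq m ≤ 2 * ((1 + nsq v) * (1 + nsq (v - m))) := by
  have h1 := sq_nonneg' v
  have h2 := sq_nonneg' (v - m)
  have h3 : nsq m ≤ 2 * nsq v + 2 * nsq (v - m) := by
    unfold nsq
    rw [Finset.mul_sum, Finset.mul_sum, ← Finset.sum_add_distrib]
    refine Finset.sum_le_sum fun i _ => ?_
    rw [Pi.sub_apply]
    nlinarith [sq_nonneg (2 * v i - m i)]
  nlinarith [mul_nonneg h1 h2]

private lemma out_W (p k : ℕ) (v : Vec d) : Wp (p + k) v * (1 + nsq v) ^ k = Wp p v := by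
  have h := sq_nonneg' v
  have h1 : (1 + nsq v) ≠ 0 := by positivity
  unfold Wp
  rw [pow_add, mul_inv, mul_assoc, inv_mul_cancel₀ (pow_ne_zero _ h1), mul_one]

private lemma out_wt {q : ℕ} (hq : d + 1 ≤ 2 * q) (z : Vec d) : Wp q z ≤ 2 ^ q * wt d z := by
  have h := sq_nonneg' z
  have h1 := one_le_w z
  have h2 : (1 + ‖z‖) ^ (d + 1) ≤ 2 ^ q * (1 + nsq z) ^ q := by
    calc (1 + ‖z‖) ^ (d + 1) ≤ (1 + ‖z‖) ^ (2 * q) := pow_le_pow_right₀ h1 hq
      _ = ((1 + ‖z‖) ^ 2) ^ q := pow_mul _ _ _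
      _ ≤ (2 * (1 + nsq z)) ^ q := pow_le_pow_left₀ (by positivity) (norm_le_nsq z) q
      _ = 2 ^ q * (1 + nsq z) ^ q := mul_pow _ _ _
  unfold Wp wt
  have h3 : 0 < (1 + nsq z) ^ q := by positivity
  have h4 : 0 < (1 + ‖z‖) ^ (d + 1) := by positivity
  rw [← div_eq_mul_inv, inv_eq_one_div, div_le_div_iff₀ h3 h4, one_mul]
  exact h2

private lemma out_nsq_cont : Continuous (nsq : Vec d → ℝ) := by
  unfold nsq
  fun_prop

private lemma out_cont (q k : ℕ) (v : Vec d) :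
    Continuous fun m : Vec d => (1 + nsq m) ^ k * Wp q (v - m) := by
  have h1 : Continuous fun m : Vec d => (1 + nsq m) ^ k :=
    (continuous_const.add out_nsq_cont).pow k
  have h2 : Continuous fun m : Vec d => Wp q (v - m) :=
    (Wp_cont q).comp (continuous_const.sub continuous_id)
  exact h1.mul h2

private lemma out_bound {q k : ℕ} (hq : d + 1 ≤ 2 * q) (v m : Vec d) :
    (1 + nsq m) ^ k * Wp (q + k) (v - m) ≤ 2 ^ k * 2 ^ q * (1 + nsq v) ^ k * wt d (v - m) := by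
  have hm := sq_nonneg' m
  have hv := sq_nonneg' v
  have hz := sq_nonneg' (v - m)
  have hW := (Wp_pos (q + k) (v - m)).le
  have h1 := pow_le_pow_left₀ (by positivity) (out_nsq v m) k
  have h2 := out_W q k (v - m)
  have h3 := out_wt (d := d) hq (v - m)
  calc (1 + nsq m) ^ k * Wp (q + k) (v - m) ≤
        (2 * ((1 + nsq v) * (1 + nsq (v - m)))) ^ k * Wp (q + k) (v - m) :=
        mul_le_mul_of_nonneg_right h1 hW
    _ = 2 ^ k * (1 + nsq v) ^ k * (Wp (q + k) (v - m) * (1 + nsq (v - m)) ^ k) := by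
        rw [mul_pow, mul_pow]; ring
    _ = 2 ^ k * (1 + nsq v) ^ k * Wp q (v - m) := by rw [h2]
    _ ≤ 2 ^ k * (1 + nsq v) ^ k * (2 ^ q * wt d (v - m)) :=
        mul_le_mul_of_nonneg_left h3 (by positivity)
    _ = _ := by ring

private lemma out_int {q k : ℕ} (hq : d + 1 ≤ 2 * q) (v : Vec d) :
    Integrable (fun m : Vec d => (1 + nsq m) ^ k * Wp (q + k) (v - m)) ∧
    ∫ m : Vec d, (1 + nsq m) ^ k * Wp (q + k) (v - m) ≤
      (2 ^ k * 2 ^ q * ∫ z : Vec d, wt d z) * (1 + nsq v) ^ k := by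
  have hI : Integrable fun m : Vec d => wt d (v - m) := integrable_wt.comp_sub_left v
  have hJ : Integrable fun m : Vec d => 2 ^ k * 2 ^ q * (1 + nsq v) ^ k * wt d (v - m) :=
    hI.const_mul _
  have hK : Integrable (fun m : Vec d => (1 + nsq m) ^ k * Wp (q + k) (v - m)) := by
    refine hJ.mono' (out_cont (q + k) k v).aestronglyMeasurable (Eventually.of_forall fun m => ?_)
    have hm := sq_nonneg' m
    have hW := (Wp_pos (q + k) (v - m)).le
    rw [Real.norm_of_nonneg (by positivity)]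
    exact out_bound hq v m
  refine ⟨hK, ?_⟩
  calc ∫ m : Vec d, (1 + nsq m) ^ k * Wp (q + k) (v - m) ≤
        ∫ m : Vec d, 2 ^ k * 2 ^ q * (1 + nsq v) ^ k * wt d (v - m) :=
        integral_mono hK hJ fun m => out_bound hq v m
    _ = 2 ^ k * 2 ^ q * (1 + nsq v) ^ k * ∫ m : Vec d, wt d (v - m) := integral_const_mul _ _
    _ = 2 ^ k * 2 ^ q * (1 + nsq v) ^ k * ∫ z : Vec d, wt d z := by
        rw [integral_sub_left_eq_self (fun z : Vec d => wt d z) volume v]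
    _ = _ := by ring

theorem W_int {q : ℕ} (hq : d + 10 ≤ q) : ∃ K : ℝ, 0 ≤ K ∧ ∀ v : Vec d,
    Integrable (fun m : Vec d => (1 + nsq m) ^ 2 * Wp q (v - m)) ∧
    ∫ m : Vec d, (1 + nsq m) ^ 2 * Wp q (v - m) ≤ K * (1 + nsq v) ^ 2 := by
  obtain ⟨r, rfl⟩ : ∃ r, q = r + 2 := ⟨q - 2, by omega⟩
  have hI : 0 ≤ ∫ z : Vec d, wt d z := integral_nonneg wt_nonneg
  exact ⟨2 ^ 2 * 2 ^ r * ∫ z : Vec d, wt d z, by positivity, fun v => out_int (by omega) v⟩

theorem W_int1 {q : ℕ} (hq : d + 10 ≤ q) : ∃ K : ℝ, 0 ≤ K ∧ ∀ v : Vec d,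
    Integrable (fun m : Vec d => (1 + nsq m) * Wp q (v - m)) ∧
    ∫ m : Vec d, (1 + nsq m) * Wp q (v - m) ≤ K * (1 + nsq v) := by
  obtain ⟨r, rfl⟩ : ∃ r, q = r + 1 := ⟨q - 1, by omega⟩
  have hI : 0 ≤ ∫ z : Vec d, wt d z := integral_nonneg wt_nonneg
  refine ⟨2 ^ 1 * 2 ^ r * ∫ z : Vec d, wt d z, by positivity, fun v => ?_⟩
  have h := out_int (k := 1) (q := r) (by omega : d + 1 ≤ 2 * r) v
  simp only [pow_one] at h ⊢
  exact h

theorem outer (h0 : 0 ≤ γ) (h2 : γ ≤ 2) {q : ℕ} (hq : d + 10 ≤ q) : ∃ K : ℝ, 0 ≤ K ∧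
    ∀ (v : Vec d) (Φ : Vec d → ℝ) (A : ℝ), Measurable Φ → 0 ≤ A →
      (∀ m, |Φ m| ≤ A * ((1 + nsq m) * Wp q (v - m))) →
      Integrable (fun m => len m ^ γ * Φ m) ∧ |∫ m, len m ^ γ * Φ m| ≤ K * A * (1 + nsq v) ^ 2 := by
  obtain ⟨K, hK, h⟩ := W_int (d := d) hq
  refine ⟨K, hK, fun v Φ A hΦ hA hb => ?_⟩
  obtain ⟨h3, h4⟩ := h v
  have hm : Measurable fun m : Vec d => len m ^ γ * Φ m :=
    (continuous_len.measurable.pow_const γ).mul hΦ
  have hp : ∀ m : Vec d, ‖len m ^ γ * Φ m‖ ≤ A * ((1 + nsq m) ^ 2 * Wp q (v - m)) := by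
    intro m
    have e1 := out_len h0 h2 m
    have e2 : 0 ≤ len m ^ γ := Real.rpow_nonneg (len_nonneg m) _
    have e3 := sq_nonneg' m
    rw [Real.norm_eq_abs, abs_mul, abs_of_nonneg e2]
    calc len m ^ γ * |Φ m| ≤ (1 + nsq m) * (A * ((1 + nsq m) * Wp q (v - m))) :=
          mul_le_mul e1 (hb m) (abs_nonneg _) (by positivity)
      _ = _ := by ring
  have hJ := h3.const_mul A
  refine ⟨hJ.mono' hm.aestronglyMeasurable (Eventually.of_forall hp), ?_⟩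
  calc |∫ m, len m ^ γ * Φ m| ≤ ∫ m : Vec d, A * ((1 + nsq m) ^ 2 * Wp q (v - m)) := by
        rw [← Real.norm_eq_abs]
        exact norm_integral_le_of_norm_le hJ (Eventually.of_forall hp)
    _ = A * ∫ m : Vec d, (1 + nsq m) ^ 2 * Wp q (v - m) := integral_const_mul _ _
    _ ≤ A * (K * (1 + nsq v) ^ 2) := mul_le_mul_of_nonneg_left h4 hA
    _ = _ := by ring

end Pool.Agent.H15.HF
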