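import Pool.Agent.H15.HF.Iso
import Pool.Agent.H15.HF.Low
import Pool.Agent.H15.HF.JfB
import Pool.Agent.H15.HF.Out

/-!
# Module Coe: coercivity of the damping rate, without loss at large velocities

`Jf_low`: `P² = nsq m nsq κ - (dot m κ)² ≥ 1`; `a = κ`, `|κ_⊥|² = nsq κ - (dot m κ)²/nsq m = P²/nsq m`, `R = 1/|κ_⊥| = len m/P ≤ len m`. On `len h ≤ R`, `dot m h = 0`: `|dot κ h| ≤ |κ_⊥| len h ≤ 1 ≤ π`, `1 - cos y ≥ (2/π²) y²` (`Real.cos_le_one_sub_mul_cos_sq`). So `Jf ≥ (2/π²) ∫_{len h ≤ R} (dot κ h)² ≥ (2/π²)(|κ_⊥|²/d) ∫_{len h ≤ R} nsq h` (`iso`) `≥ (2/(π² d)) |κ_⊥|² c len m^(2s) R^(2-2s) = c' P^(2s)` (`sec_low`).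
`sg_low`: unit `n ⊥ κ` (`d ≥ 2`: from two coordinates, or a vector of the orthogonal complement); `P ≥ len κ |dot n m|` (Bessel: `nsq m ≥ (dot m κ)²/nsq κ + (dot n m)²`). One of the two balls `B(v₀ ± (r₀/2) n, r₀/8)` in the variable `u = v - m` has `|dot n (v-u)| ≥ r₀/4` throughout; there `F u ≥ m₀`, `len m ≥ r₀/4`, `Jf ≥ c' (len κ r₀/4)^(2s)` if `len κ r₀/4 ≥ 1`. The integrand of `sgE` is `≥ 0` and integrable (`Jf_le`, `outer`), so `sgE ≥` the integral over that ball (volume `≥ c r₀^d`, translation invariant).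
-/

set_option autoImplicit false

open MeasureTheory Set Filter Topology Pool.Agent.H25.Kin Pool.Agent.H48.PL Pool.Agent.H48.PD
open Pool.Agent.H82.BK Pool.Agent.H82.CM Pool.Agent.H48.PR Pool.Agent.H82.HF
open scoped ENNReal

namespace Pool.Agent.H15.HF

variable {d : ℕ} {γ s C Ca cb : ℝ} {b : ℝ → ℝ}

private lemma Coe_sq {m h : Vec d} (κ : Vec d) (hm : m ≠ 0) (hmh : dot m h = 0) {R : ℝ}
    (hR : len h ≤ R) : dot κ h ^ 2 ≤ (nsq κ - dot m κ ^ 2 / nsq m) * R ^ 2 := by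
  have hn := sq_pos_of_ne hm
  have e1 : dot (κ - (dot m κ / nsq m) • m) h = dot κ h := by
    rw [dot_comm, dot_sub, dot_smul, dot_comm h m, hmh, mul_zero, sub_zero, dot_comm]
  have e2 : nsq (κ - (dot m κ / nsq m) • m) = nsq κ - dot m κ ^ 2 / nsq m := by
    rw [nsq_sub, dot_smul, nsq_smul, dot_comm κ m]
    field_simp
    ring
  have h3 := dot_sq_le (κ - (dot m κ / nsq m) • m) h
  rw [e1, e2] at h3
  have h4 : nsq h ≤ R ^ 2 := by
    rw [← len_sq]
    exact pow_le_pow_left₀ (len_nonneg h) hR 2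
  have h5 : 0 ≤ nsq κ - dot m κ ^ 2 / nsq m := by
    rw [← e2]
    exact sq_nonneg' _
  exact h3.trans (mul_le_mul_of_nonneg_left h4 h5)

private lemma Coe_pow {l P s : ℝ} (hl : 0 < l) (hP : 0 < P) :
    (P ^ 2 / l ^ 2) * (l ^ (2 * s) * (l / P) ^ (2 - 2 * s)) = (P ^ 2) ^ s := by
  have e0 : (P ^ 2) ^ s = P ^ (2 * s) := by
    rw [← Real.rpow_natCast P 2, ← Real.rpow_mul hP.le]
    norm_num
  have e1 : l ^ (2 * s) * l ^ (2 - 2 * s) = l ^ 2 := by
    rw [← Real.rpow_add hl, show 2 * s + (2 - 2 * s) = (2 : ℝ) by ring, Real.rpow_two]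
  have e2 : P ^ (2 * s) * P ^ (2 - 2 * s) = P ^ 2 := by
    rw [← Real.rpow_add hP, show 2 * s + (2 - 2 * s) = (2 : ℝ) by ring, Real.rpow_two]
  have hX : 0 < P ^ (2 - 2 * s) := Real.rpow_pos_of_pos hP _
  have hl2 : l ^ 2 ≠ 0 := by positivity
  rw [e0, Real.div_rpow hl.le hP.le, ← mul_div_assoc, e1, ← e2]
  field_simp

theorem Jf_low (HL : HypL d γ s b C Ca cb) (h0 : 0 ≤ γ) (hs : 2 * s < 1) : ∃ c : ℝ, 0 < c ∧
    ∀ m κ : Vec d, 1 ≤ nsq m * nsq κ - dot m κ ^ 2 →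
      c * (nsq m * nsq κ - dot m κ ^ 2) ^ s ≤ Jf γ b 0 κ m := by
  obtain ⟨c₀, hc₀, hlow⟩ := sec_low HL h0
  obtain ⟨A, hA, hJ⟩ := Jf_le HL.H hs
  have hd : (0 : ℝ) < d := by
    have h2 := HL.H.hd
    exact_mod_cast (by omega : 0 < d)
  have hπ := Real.pi_pos
  refine ⟨2 / Real.pi ^ 2 * (c₀ / d), by positivity, fun m κ hP => ?_⟩
  have hm : m ≠ 0 := by
    rintro rfl
    have e1 : nsq (0 : Vec d) = 0 := by
      rw [← len_sq, len_zero]
      norm_num
    rw [e1, zero_mul] at hP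
    nlinarith [sq_nonneg (dot (0 : Vec d) κ)]
  set Q : ℝ := nsq m * nsq κ - dot m κ ^ 2 with hQ
  have hn := sq_pos_of_ne hm
  have hl := len_pos hm
  set P : ℝ := Real.sqrt Q with hPd
  have hP1 : 1 ≤ P := Real.one_le_sqrt.2 hP
  have hP0 : 0 < P := by linarith
  have hPQ : P ^ 2 = Q := Real.sq_sqrt (by linarith)
  set R : ℝ := len m / P with hRd
  have hR : 0 < R := by positivity
  have hRm : R ≤ len m := div_le_self hl.le hP1
  have hκ : nsq κ - dot m κ ^ 2 / nsq m = P ^ 2 / len m ^ 2 := by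
    rw [hPQ, hQ, len_sq]
    field_simp
  have hI := (hJ 0 le_rfl κ κ m).1
  have hnn : ∀ h : Vec d, 0 ≤ 1 - Real.cos (dot κ h) := fun h => by
    linarith [Real.cos_le_one (dot κ h)]
  have e1 : ENNReal.ofReal (Jf γ b 0 κ m) =
      ∫⁻ h, ENNReal.ofReal (1 - Real.cos (dot κ h)) ∂(Nm γ b 0 m) := by
    unfold Jf
    exact ofReal_integral_eq_lintegral_ofReal hI (Eventually.of_forall hnn)
  have h1 := iso HL.H 0 hm κ R
  have h2 := hlow m R hm hR hRm
  set T : Set (Vec d) := {h : Vec d | len h ≤ R} with hT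
  have hTm : MeasurableSet T := measurableSet_le continuous_len.measurable measurable_const
  have hdm : Measurable fun h : Vec d => ENNReal.ofReal (dot κ h ^ 2) :=
    ((dot_cont κ).pow 2).measurable.ennreal_ofReal
  have hc2 : (0 : ℝ) ≤ 2 / Real.pi ^ 2 := by positivity
  have hpt : ∀ h : Vec d, dot m h = 0 → len h ≤ R →
      2 / Real.pi ^ 2 * dot κ h ^ 2 ≤ 1 - Real.cos (dot κ h) := by
    intro h hh hR'
    have h3 := Coe_sq κ hm hh hR'
    have h4 : P ^ 2 / len m ^ 2 * R ^ 2 = 1 := by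
      rw [hRd]
      field_simp
    rw [hκ, h4] at h3
    have h5 : |dot κ h| ≤ 1 := (sq_le_one_iff_abs_le_one _).1 h3
    have h6 := Real.cos_le_one_sub_mul_cos_sq (h5.trans (by linarith [Real.pi_gt_three]))
    linarith
  have key : ENNReal.ofReal (2 / Real.pi ^ 2 * (c₀ / d) * Q ^ s) ≤
      ENNReal.ofReal (Jf γ b 0 κ m) := by
    rw [e1]
    calc ENNReal.ofReal (2 / Real.pi ^ 2 * (c₀ / d) * Q ^ s)
        = ENNReal.ofReal (2 / Real.pi ^ 2) *
            (ENNReal.ofReal ((nsq κ - dot m κ ^ 2 / nsq m) / d) *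
              ENNReal.ofReal (c₀ * len m ^ (2 * s) * R ^ (2 - 2 * s))) := by
          rw [← ENNReal.ofReal_mul (by rw [hκ]; positivity), ← ENNReal.ofReal_mul hc2, hκ,
            ← hPQ, ← Coe_pow hl hP0]
          congr 1
          ring
      _ ≤ ENNReal.ofReal (2 / Real.pi ^ 2) *
            (ENNReal.ofReal ((nsq κ - dot m κ ^ 2 / nsq m) / d) *
              ∫⁻ h in T, ENNReal.ofReal (nsq h) ∂(Nm γ b 0 m)) :=
          mul_le_mul_right (mul_le_mul_right h2 _) _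
      _ ≤ ENNReal.ofReal (2 / Real.pi ^ 2) *
            ∫⁻ h in T, ENNReal.ofReal (dot κ h ^ 2) ∂(Nm γ b 0 m) := mul_le_mul_right h1 _
      _ = ∫⁻ h in T, ENNReal.ofReal (2 / Real.pi ^ 2) * ENNReal.ofReal (dot κ h ^ 2)
            ∂(Nm γ b 0 m) := (lintegral_const_mul _ hdm).symm
      _ ≤ ∫⁻ h in T, ENNReal.ofReal (1 - Real.cos (dot κ h)) ∂(Nm γ b 0 m) := by
          refine lintegral_mono_ae ?_
          filter_upwards [ae_restrict_of_ae (Nm_ae HL.H 0 m), ae_restrict_mem hTm] with h hh hR'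
          rw [← ENNReal.ofReal_mul hc2]
          exact ENNReal.ofReal_le_ofReal (hpt h hh.1 hR')
      _ ≤ _ := setLIntegral_le_lintegral _ _
  exact (ENNReal.ofReal_le_ofReal_iff (Jf_nonneg γ b 0 κ m)).1 key

private lemma Coe_single (κ : Vec d) (i : Fin d) : dot κ (Pi.single i (1 : ℝ)) = κ i := by
  unfold dot
  rw [Finset.sum_eq_single i]
  · rw [Pi.single_eq_same, mul_one]
  · intro j _ hj
    rw [Pi.single_eq_of_ne hj, mul_zero]
  · intro h
    exact absurd (Finset.mem_univ i) h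

private lemma Coe_perp (hd : 2 ≤ d) (κ : Vec d) : ∃ n : Vec d, nsq n = 1 ∧ dot n κ = 0 := by
  have h01 : (⟨1, by omega⟩ : Fin d) ≠ ⟨0, by omega⟩ := by
    intro h
    have := congrArg Fin.val h
    simp at this
  set i0 : Fin d := ⟨0, by omega⟩ with hi0
  set i1 : Fin d := ⟨1, by omega⟩ with hi1
  by_cases h : κ i0 = 0
  · refine ⟨Pi.single i0 1, ?_, ?_⟩
    · rw [← dot_self, Coe_single, Pi.single_eq_same]
    · rw [dot_comm, Coe_single, h]
  · set w : Vec d := (-κ i1) • (Pi.single i0 (1 : ℝ) : Vec d) +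
      κ i0 • (Pi.single i1 (1 : ℝ) : Vec d) with hw'
    have hw : w ≠ 0 := by
      intro h0
      have h1 := congrFun h0 i1
      rw [hw', Pi.add_apply, Pi.smul_apply, Pi.smul_apply, Pi.single_eq_same,
        Pi.single_eq_of_ne h01, smul_zero, zero_add, smul_eq_mul, mul_one] at h1
      exact h h1
    refine ⟨dir w, nsq_dir hw, ?_⟩
    have h2 : dot w κ = 0 := by
      rw [dot_comm, hw', dot_add, dot_smul, dot_smul, Coe_single, Coe_single]
      ring
    unfold dir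
    rw [smul_dot, h2, mul_zero]

private lemma Coe_abs {n : Vec d} (hn : nsq n = 1) (z : Vec d) : |dot n z| ≤ len z := by
  have h1 := dot_sq_le n z
  rw [hn, one_mul, ← len_sq] at h1
  exact abs_le_of_sq_le_sq h1 (len_nonneg _)

private lemma Coe_cen {n : Vec d} (hn : nsq n = 1) {r : ℝ} (hr : 0 < r) (v v₀ : Vec d) :
    ∃ c : Vec d, ∀ u, len (u - c) ≤ r / 8 → len (u - v₀) ≤ r ∧ r / 4 ≤ |dot n (v - u)| := by
  have hln : len n = 1 := by
    unfold len
    rw [hn, Real.sqrt_one]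
  have hls : len ((r / 2) • n) = r / 2 := by
    rw [len_smul (by positivity), hln, mul_one]
  rcases le_total 0 (dot n (v - v₀)) with h | h
  · refine ⟨v₀ - (r / 2) • n, fun u hu => ⟨?_, ?_⟩⟩
    · have h1 := len_sub_le (u - (v₀ - (r / 2) • n)) ((r / 2) • n)
      rw [hls, show u - (v₀ - (r / 2) • n) - (r / 2) • n = u - v₀ by abel] at h1
      linarith
    · have h2 := (abs_le.1 ((Coe_abs hn _).trans hu)).2
      have e : dot n (v - u) = dot n (v - v₀) + r / 2 - dot n (u - (v₀ - (r / 2) • n)) := by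
        simp only [dot_sub, dot_smul, dot_self, hn]
        ring
      refine le_trans ?_ (le_abs_self _)
      rw [e]
      linarith
  · refine ⟨v₀ + (r / 2) • n, fun u hu => ⟨?_, ?_⟩⟩
    · have h1 := len_add_le (u - (v₀ + (r / 2) • n)) ((r / 2) • n)
      rw [hls, show u - (v₀ + (r / 2) • n) + (r / 2) • n = u - v₀ by abel] at h1
      linarith
    · have h2 := (abs_le.1 ((Coe_abs hn _).trans hu)).1
      have e : dot n (v - u) = dot n (v - v₀) - r / 2 - dot n (u - (v₀ + (r / 2) • n)) := by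
        simp only [dot_sub, dot_add, dot_smul, dot_self, hn]
        ring
      refine le_trans ?_ (neg_le_abs _)
      rw [e]
      linarith

private lemma Coe_bes {n κ : Vec d} (hn : nsq n = 1) (hnκ : dot n κ = 0) (m : Vec d) :
    nsq κ * dot n m ^ 2 ≤ nsq m * nsq κ - dot m κ ^ 2 := by
  have h1 := dot_sq_le (m - (dot n m) • n) κ
  have e1 : dot (m - (dot n m) • n) κ = dot m κ := by
    rw [dot_comm, dot_sub, dot_smul, dot_comm κ n, hnκ, mul_zero, sub_zero, dot_comm]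
  have e2 : nsq (m - (dot n m) • n) = nsq m - dot n m ^ 2 := by
    rw [nsq_sub, dot_smul, nsq_smul, dot_comm m n, hn]
    ring
  rw [e1, e2] at h1
  linarith

private lemma Coe_vol {ρ : ℝ} (hρ : 0 < ρ) : 0 < volume.real {z : Vec d | len z ≤ ρ} ∧
    volume {z : Vec d | len z ≤ ρ} ≠ ⊤ := by
  have hfin : volume {z : Vec d | len z ≤ ρ} ≠ ⊤ := by
    refine ne_top_of_le_ne_top (measure_closedBall_lt_top (x := (0 : Vec d)) (r := ρ)).ne
      (measure_mono fun z hz => ?_)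
    rw [mem_closedBall_zero_iff]
    exact (norm_le_len z).trans hz
  have hpos : 0 < volume {z : Vec d | len z ≤ ρ} := by
    have ho : IsOpen {z : Vec d | len z < ρ} := isOpen_lt continuous_len continuous_const
    have hn : (0 : Vec d) ∈ {z : Vec d | len z < ρ} := by
      show len 0 < ρ
      rw [len_zero]
      exact hρ
    refine (ho.measure_pos volume ⟨0, hn⟩).trans_le (measure_mono fun z hz => ?_)
    have h2 : len z < ρ := hz
    exact h2.le
  exact ⟨ENNReal.toReal_pos hpos.ne' hfin, hfin⟩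

private lemma Coe_lp (hs0 : 0 ≤ s) (hs : 2 * s < 1) (m : Vec d) :
    len m ^ (2 * s) ≤ 1 + nsq m := by
  have hl := len_nonneg m
  rcases le_total (len m) 1 with h | h
  · have h1 : len m ^ (2 * s) ≤ 1 := Real.rpow_le_one hl h (by linarith)
    linarith [sq_nonneg' m]
  · have h1 : len m ^ (2 * s) ≤ len m ^ (2 : ℝ) :=
      Real.rpow_le_rpow_of_exponent_le h (by linarith)
    rw [Real.rpow_two, len_sq] at h1
    linarith

theorem sg_low (HL : HypL d γ s b C Ca cb) (h0 : 0 ≤ γ) (hs : 2 * s < 1) {q : ℕ}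
    (hq : d + 10 ≤ q) {r₀ m₀ : ℝ} (hr : 0 < r₀) (hm : 0 < m₀) :
    ∃ c : ℝ, 0 < c ∧ ∃ N : ℝ, ∀ (F : Vec d → ℝ) (A : ℝ) (v₀ : Vec d), Continuous F →
      (∀ u, 0 ≤ F u) → (∀ u, F u ≤ A * Wp q u) → (∀ u, len (u - v₀) ≤ r₀ → m₀ ≤ F u) →
      ∀ κ v : Vec d, N ≤ len κ → c * len κ ^ (2 * s) ≤ sgE γ b 0 F κ v := by
  obtain ⟨c', hc', hJl⟩ := Jf_low HL h0 hs
  obtain ⟨A₀, hA₀, hJ⟩ := Jf_le HL.H hs
  obtain ⟨K, hK, hout⟩ := outer (d := d) h0 HL.H.g2 hq
  obtain ⟨hV, hVt⟩ := Coe_vol (d := d) (ρ := r₀ / 8) (by positivity)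
  set V : ℝ := volume.real {z : Vec d | len z ≤ r₀ / 8} with hVd
  have hρ : 0 < r₀ / 4 := by positivity
  refine ⟨(r₀ / 4) ^ γ * (m₀ * (c' * (r₀ / 4) ^ (2 * s))) * V, by positivity, 4 / r₀,
    fun F A v₀ hFc hF0 hFA hFm κ v hκ => ?_⟩
  obtain ⟨n, hn, hnκ⟩ := Coe_perp HL.H.hd κ
  obtain ⟨c, hc⟩ := Coe_cen hn hr v v₀
  have hκ1 : 1 ≤ len κ * (r₀ / 4) := by
    rw [ge_iff_le.symm, ge_iff_le, div_le_iff₀ hr] at hκ
    linarith
  have hlκ := len_nonneg κ
  set S : Set (Vec d) := {m : Vec d | len (v - c - m) ≤ r₀ / 8} with hS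
  have hpt : ∀ m ∈ S, (r₀ / 4) ^ γ * (m₀ * (c' * ((r₀ / 4) ^ (2 * s) * len κ ^ (2 * s)))) ≤
      len m ^ γ * (F (v - m) * Jf γ b 0 κ m) := by
    intro m hmS
    have h1 := hc (v - m) (by rw [show v - m - c = v - c - m by abel]; exact hmS)
    rw [sub_sub_cancel] at h1
    obtain ⟨h2, h3⟩ := h1
    have h4 : m₀ ≤ F (v - m) := hFm _ h2
    have h5 : r₀ / 4 ≤ len m := h3.trans (Coe_abs hn m)
    have h6 : (len κ * (r₀ / 4)) ^ 2 ≤ nsq m * nsq κ - dot m κ ^ 2 := by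
      refine le_trans ?_ (Coe_bes hn hnκ m)
      rw [mul_pow, len_sq, ← sq_abs (dot n m)]
      exact mul_le_mul_of_nonneg_left (pow_le_pow_left₀ hρ.le h3 2) (sq_nonneg' κ)
    have h7 : 1 ≤ (len κ * (r₀ / 4)) ^ 2 := one_le_pow₀ hκ1
    have h8 := hJl m κ (h7.trans h6)
    have h9 : c' * ((r₀ / 4) ^ (2 * s) * len κ ^ (2 * s)) ≤ Jf γ b 0 κ m := by
      refine le_trans (mul_le_mul_of_nonneg_left ?_ hc'.le) h8
      have h10 := Real.rpow_le_rpow (by positivity) h6 HL.H.hs.le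
      refine le_trans (le_of_eq ?_) h10
      rw [← Real.rpow_natCast (len κ * (r₀ / 4)) 2, ← Real.rpow_mul (by positivity),
        Nat.cast_ofNat, Real.mul_rpow hlκ hρ.le, mul_comm]
    have h11 : (r₀ / 4) ^ γ ≤ len m ^ γ := Real.rpow_le_rpow hρ.le h5 h0
    have h12 : m₀ * (c' * ((r₀ / 4) ^ (2 * s) * len κ ^ (2 * s))) ≤ F (v - m) * Jf γ b 0 κ m :=
      mul_le_mul h4 h9 (by positivity) (hF0 _)
    exact mul_le_mul h11 h12 (by positivity) (Real.rpow_nonneg (len_nonneg m) _)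
  have hA : 0 ≤ A := by
    have h1 := (hF0 0).trans (hFA 0)
    exact nonneg_of_mul_nonneg_left h1 (Wp_pos q 0)
  have hint : Integrable (fun m => len m ^ γ * (F (v - m) * Jf γ b 0 κ m)) := by
    refine (hout v (fun m => F (v - m) * Jf γ b 0 κ m) (A * (A₀ * len κ ^ (2 * s))) ?_
      (by positivity) fun m => ?_).1
    · exact (hFc.comp (continuous_const.sub continuous_id)).measurable.mul (Jf_meas HL.H.bm γ 0 κ)
    · have h1 := (hJ 0 le_rfl κ κ m).2.1
      rw [Real.mul_rpow hlκ (len_nonneg m)] at h1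
      have h2 := Coe_lp HL.H.hs.le hs m
      have h3 := Jf_nonneg γ b 0 κ m
      have hW := (Wp_pos q (v - m)).le
      have h4 : 0 ≤ len κ ^ (2 * s) := Real.rpow_nonneg hlκ _
      rw [abs_of_nonneg (mul_nonneg (hF0 _) h3)]
      calc F (v - m) * Jf γ b 0 κ m
          ≤ (A * Wp q (v - m)) * (A₀ * (len κ ^ (2 * s) * len m ^ (2 * s))) :=
            mul_le_mul (hFA _) h1 h3 (by positivity)
        _ = A * (A₀ * len κ ^ (2 * s)) * (len m ^ (2 * s) * Wp q (v - m)) := by ring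
        _ ≤ _ := mul_le_mul_of_nonneg_left (mul_le_mul_of_nonneg_right h2 hW) (by positivity)
  have hnn : ∀ m, 0 ≤ len m ^ γ * (F (v - m) * Jf γ b 0 κ m) := fun m =>
    mul_nonneg (Real.rpow_nonneg (len_nonneg m) _) (mul_nonneg (hF0 _) (Jf_nonneg γ b 0 κ m))
  have hBm : MeasurableSet {z : Vec d | len z ≤ r₀ / 8} :=
    measurableSet_le continuous_len.measurable measurable_const
  have hpr : S = (fun m : Vec d => (v - c) - m) ⁻¹' {z : Vec d | len z ≤ r₀ / 8} := rfl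
  have hSm : MeasurableSet S := by
    rw [hpr]
    exact (measurable_const.sub measurable_id) hBm
  have hSV : volume S = volume {z : Vec d | len z ≤ r₀ / 8} := by
    rw [hpr]
    exact (Measure.measurePreserving_sub_left volume (v - c)).measure_preimage hBm.nullMeasurableSet
  have hSr : volume.real S = V := by
    rw [hVd, Measure.real, Measure.real, hSV]
  unfold sgE
  calc (r₀ / 4) ^ γ * (m₀ * (c' * (r₀ / 4) ^ (2 * s))) * V * len κ ^ (2 * s)
      = volume.real S •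
          ((r₀ / 4) ^ γ * (m₀ * (c' * ((r₀ / 4) ^ (2 * s) * len κ ^ (2 * s))))) := by
        rw [hSr, smul_eq_mul]
        ring
    _ = ∫ m in S, ((r₀ / 4) ^ γ * (m₀ * (c' * ((r₀ / 4) ^ (2 * s) * len κ ^ (2 * s))))) :=
        (setIntegral_const _).symm
    _ ≤ ∫ m in S, len m ^ γ * (F (v - m) * Jf γ b 0 κ m) :=
        setIntegral_mono_on (integrableOn_const (by rw [hSV]; exact hVt)) hint.integrableOn hSm hpt
    _ ≤ ∫ m, len m ^ γ * (F (v - m) * Jf γ b 0 κ m) :=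
        setIntegral_le_integral hint (Eventually.of_forall hnn)


end Pool.Agent.H15.HF
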