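import Pool.Agent.H82.HF.Defs
import Pool.Agent.H48.NE.AngN
import Pool.Agent.H48.NE.Mxw

/-!
# Block R of the layer lemma (MP_c15324_an): definitions

Velocity space only. `m = v - w'`, `h = v' - v` (perpendicular to `m`). `Nm m` is the law of `h` at given `m` under the folded,
cut-off kernel (`ε = 0`: the full kernel, an infinite measure near `h = 0`). The operator is
`boltzCut g v = ∫ len m ^ γ ∫ (g(v-m) g(v+h) - q(m,h) g(v-m) g(v)) dNm(h) dm`, `q = c^(d+γ)`.
-/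

set_option autoImplicit false

open MeasureTheory Set Filter Topology Pool.Agent.H25.Kin Pool.Agent.H48.PL Pool.Agent.H48.PD
open Pool.Agent.H82.BK Pool.Agent.H82.CM Pool.Agent.H48.PR
open scoped ENNReal

namespace Pool.Agent.H15.HF

variable {d : ℕ}

/-- the law of the displacement `h = hh σ m` -/
noncomputable def Nm (γ : ℝ) (b : ℝ → ℝ) (ε : ℝ) (m : Vec d) : Measure (Vec d) :=
  (((surf d).restrict {σ : Vec d | 0 < dot m σ}).withDensity
    fun σ => ENNReal.ofReal (Kn d γ (bt b ε) (co m σ))).map fun σ => hh σ m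

/-- `c^(d+γ)` as a function of `m` and `h`, `c² = |m|²/(|m|²+|h|²)` -/
noncomputable def qf (d : ℕ) (γ : ℝ) (m h : Vec d) : ℝ :=
  (nsq m / (nsq m + nsq h)) ^ (((d : ℝ) + γ) / 2)

/-- `∫ (1 - cos (κ·h)) dNm(h)` -/
noncomputable def Jf (γ : ℝ) (b : ℝ → ℝ) (ε : ℝ) (κ m : Vec d) : ℝ :=
  ∫ h, (1 - Real.cos (dot κ h)) ∂(Nm γ b ε m)

/-- the damping rate of the frequency `κ`; `ε = 0`: the full kernel -/
noncomputable def sgE (γ : ℝ) (b : ℝ → ℝ) (ε : ℝ) (F : Vec d → ℝ) (κ v : Vec d) : ℝ :=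
  ∫ m, len m ^ γ * (F (v - m) * Jf γ b ε κ m)

end Pool.Agent.H15.HF
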