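import Pool.Agent.H15.HF.Sym

/-!
# Module Iso: isotropy of the second moments

`N = Nm γ b ε m`, `m ≠ 0`, `Q(a) = ∫⁻_{len h ≤ H} (a·h)²`. (1) for unit `p, p' ⊥ m`, `p ≠ p'`: `w = dir (p-p')`, `w ⊥ m`, `refl w m = -m`, so `N = Nm (-m) = Nm (refl w m) = N.map (refl w)` (`Nm_negm`, `Nm_refl`), and `p'·h = -(p·refl w h)` (`-refl w p = p'`), `len (refl w h) = len h`: `Q(p') = Q(p)`. Let `Q₀` be the common value (`0` if there is no unit vector `⊥ m`; not needed).
(2) `dot m h = 0` a.e. (`Nm_ae`), so `Q(a) = Q(a')`, `a' = a - (dot m a/nsq m) • m ⊥ m`, `nsq a' = nsq a - (dot m a)²/nsq m`, `Q(a) = nsq a' Q₀` (`a' = 0` trivial). (3) basis `e_i = Pi.single i 1`: `nsq h = Σ_i (e_i·h)²`: `∫⁻ nsq h = Σ_i Q(e_i) ≤ d Q₀` since `nsq (e_i)' ≤ 1`. Hence the claim.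
-/

set_option autoImplicit false

open MeasureTheory Set Filter Topology Pool.Agent.H25.Kin Pool.Agent.H48.PL Pool.Agent.H48.PD
open Pool.Agent.H82.BK Pool.Agent.H82.CM Pool.Agent.H48.PR Pool.Agent.H82.HF
open scoped ENNReal

namespace Pool.Agent.H15.HF

variable {d : ℕ} {γ s C Ca cb : ℝ} {b : ℝ → ℝ}

private noncomputable def Iso_Q (N : Measure (Vec d)) (R : ℝ) (a : Vec d) : ℝ≥0∞ :=
  ∫⁻ h in {h : Vec d | len h ≤ R}, ENNReal.ofReal (dot a h ^ 2) ∂N

private lemma Iso_mS (R : ℝ) : MeasurableSet {h : Vec d | len h ≤ R} :=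
  (isClosed_le continuous_len continuous_const).measurableSet

private lemma Iso_mf (a : Vec d) : Measurable fun h : Vec d => ENNReal.ofReal (dot a h ^ 2) :=
  ((dot_cont a).measurable.pow_const 2).ennreal_ofReal

private lemma Iso_smul (N : Measure (Vec d)) (R r : ℝ) (a : Vec d) :
    Iso_Q N R (r • a) = ENNReal.ofReal (r ^ 2) * Iso_Q N R a := by
  unfold Iso_Q
  rw [← lintegral_const_mul _ (Iso_mf a)]
  refine lintegral_congr fun h => ?_
  rw [smul_dot, mul_pow, ENNReal.ofReal_mul (sq_nonneg r)]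

private lemma Iso_perp {N : Measure (Vec d)} {m : Vec d} (hN : ∀ᵐ h ∂N, dot m h = 0) (R c : ℝ)
    (a : Vec d) : Iso_Q N R (a - c • m) = Iso_Q N R a := by
  unfold Iso_Q
  refine lintegral_congr_ae ?_
  filter_upwards [ae_restrict_of_ae hN] with h hh
  rw [dot_comm (a - c • m) h, dot_sub, dot_smul, dot_comm h m, hh, dot_comm h a, mul_zero, sub_zero]

private lemma Iso_adj (w p h : Vec d) : dot p (refl w h) = dot (refl w p) h := by
  rw [refl_apply w h, dot_sub, dot_smul, dot_comm (refl w p) h, refl_apply w p, dot_sub, dot_smul,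
    dot_comm p w, dot_comm h w, dot_comm h p]
  ring

private lemma Iso_eq (hd : 1 ≤ d) (hb : Measurable b) (γ ε : ℝ) {m p p' : Vec d} (R : ℝ)
    (h1 : dot m p = 0) (h2 : dot m p' = 0) (h3 : nsq p = nsq p') :
    Iso_Q (Nm γ b ε m) R p = Iso_Q (Nm γ b ε m) R p' := by
  rcases eq_or_ne p p' with rfl | hne
  · rfl
  have hw0 : p - p' ≠ 0 := sub_ne_zero.2 hne
  obtain ⟨w, hw⟩ : ∃ w, w = dir (p - p') := ⟨_, rfl⟩
  have hw1 : nsq w = 1 := by rw [hw]; exact nsq_dir hw0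
  have hw2 : w = (len (p - p'))⁻¹ • (p - p') := hw
  have hn : 0 < nsq (p - p') := sq_pos_of_ne hw0
  have hwm : refl w m = -m := by
    rw [refl_apply, hw2, smul_dot, dot_comm (p - p') m, dot_sub, h1, h2, sub_zero, mul_zero,
      mul_zero, zero_smul, zero_sub]
  have hwp : refl w p = -p' := by
    have e1 : nsq (p - p') = 2 * dot (p - p') p := by
      rw [nsq_sub, dot_comm (p - p') p, dot_sub, dot_self, ← h3]
      ring
    have e2 : (2 * dot w p) • w = p - p' := by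
      rw [hw2, smul_dot, smul_smul]
      have e3 : 2 * ((len (p - p'))⁻¹ * dot (p - p') p) * (len (p - p'))⁻¹ = 1 := by
        have e4 : 2 * ((len (p - p'))⁻¹ * dot (p - p') p) * (len (p - p'))⁻¹ =
            (2 * dot (p - p') p) * (len (p - p') ^ 2)⁻¹ := by ring
        rw [e4, len_sq, ← e1, mul_inv_cancel₀ hn.ne']
      rw [e3, one_smul]
    rw [refl_apply, e2]
    abel
  have hN : Nm γ b ε m = (Nm γ b ε m).map (refl w) := by
    rw [← Nm_refl hd hb γ ε hw1 m, hwm, Nm_negm hd hb γ ε m]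
  have hrm : Measurable (refl w) := (refl_preserving hd hw1).measurable
  calc Iso_Q (Nm γ b ε m) R p = Iso_Q ((Nm γ b ε m).map (refl w)) R p := by rw [← hN]
    _ = Iso_Q (Nm γ b ε m) R p' := by
      unfold Iso_Q
      rw [setLIntegral_map (Iso_mS R) (Iso_mf p) hrm]
      have hpre : (refl w) ⁻¹' {h : Vec d | len h ≤ R} = {h : Vec d | len h ≤ R} := by
        ext h
        show len (refl w h) ≤ R ↔ len h ≤ R
        unfold len
        rw [nsq_refl hw1]
      rw [hpre]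
      refine lintegral_congr fun h => ?_
      rw [Iso_adj, hwp, neg_dot, neg_sq]

private lemma Iso_sum (N : Measure (Vec d)) (R : ℝ) :
    ∫⁻ h in {h : Vec d | len h ≤ R}, ENNReal.ofReal (nsq h) ∂N =
      ∑ i : Fin d, Iso_Q N R (Pi.single i 1) := by
  unfold Iso_Q
  rw [← lintegral_finset_sum _ fun i _ => Iso_mf _]
  refine lintegral_congr fun h => ?_
  rw [← ENNReal.ofReal_sum_of_nonneg fun i _ => sq_nonneg _]
  congr 1
  unfold nsq
  refine Finset.sum_congr rfl fun i _ => ?_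
  congr 1
  simp [dot, Pi.single_apply]

theorem iso (H : Hyp d γ s b C Ca) (ε : ℝ) {m : Vec d} (hm : m ≠ 0) (a : Vec d) (R : ℝ) :
    ENNReal.ofReal ((nsq a - dot m a ^ 2 / nsq m) / d) *
        ∫⁻ h in {h : Vec d | len h ≤ R}, ENNReal.ofReal (nsq h) ∂(Nm γ b ε m) ≤
      ∫⁻ h in {h : Vec d | len h ≤ R}, ENNReal.ofReal (dot a h ^ 2) ∂(Nm γ b ε m) := by
  have hd : 1 ≤ d := H.hd1
  have hn : 0 < nsq m := sq_pos_of_ne hm
  obtain ⟨N, hNe⟩ : ∃ N, N = Nm γ b ε m := ⟨_, rfl⟩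
  have hN : ∀ᵐ h ∂N, dot m h = 0 := by
    rw [hNe]
    exact (Nm_ae H ε m).mono fun h hh => hh.1
  have pr : ∀ c : Vec d, ∃ c' : Vec d, dot m c' = 0 ∧ nsq c' = nsq c - dot m c ^ 2 / nsq m ∧
      Iso_Q N R c' = Iso_Q N R c := by
    intro c
    refine ⟨c - (dot m c / nsq m) • m, ?_, ?_, Iso_perp hN R _ c⟩
    · rw [dot_sub, dot_smul, dot_self, div_mul_cancel₀ _ hn.ne', sub_self]
    · rw [nsq_sub, nsq_smul, dot_smul, dot_comm c m]
      field_simp
      ring
  obtain ⟨a', ha1, ha2, ha3⟩ := pr a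
  rw [← ha2, ← hNe]
  have key : ∀ i : Fin d, ENNReal.ofReal (nsq a') * Iso_Q N R (Pi.single i 1) ≤ Iso_Q N R a := by
    intro i
    obtain ⟨e, h1, h2, h3⟩ := pr (Pi.single i 1)
    have he1 : nsq e ≤ 1 := by
      rw [h2]
      have e1 : nsq (Pi.single i (1 : ℝ) : Vec d) = 1 := by
        unfold nsq
        rw [Finset.sum_eq_single i]
        · simp
        · intro j _ hj
          simp [Pi.single_eq_of_ne hj]
        · intro h
          exact absurd (Finset.mem_univ i) h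
      have e2 := div_nonneg (sq_nonneg (dot m (Pi.single i 1))) hn.le
      rw [e1]
      linarith
    have h4 : Iso_Q N R (Real.sqrt (nsq a') • e) = Iso_Q N R (Real.sqrt (nsq e) • a') := by
      rw [hNe]
      refine Iso_eq hd H.bm γ ε R (by rw [dot_smul, h1, mul_zero])
        (by rw [dot_smul, ha1, mul_zero]) ?_
      rw [nsq_smul, nsq_smul, Real.sq_sqrt (sq_nonneg' _), Real.sq_sqrt (sq_nonneg' _), mul_comm]
    rw [Iso_smul, Iso_smul, Real.sq_sqrt (sq_nonneg' _), Real.sq_sqrt (sq_nonneg' _)] at h4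
    rw [← h3, h4, ← ha3]
    calc ENNReal.ofReal (nsq e) * Iso_Q N R a' ≤ 1 * Iso_Q N R a' :=
          mul_le_mul' (ENNReal.ofReal_le_one.2 he1) le_rfl
      _ = Iso_Q N R a' := one_mul _
  rw [Iso_sum]
  show _ ≤ Iso_Q N R a
  have hd0 : (0 : ℝ) < d := by exact_mod_cast hd
  rw [ENNReal.ofReal_div_of_pos hd0, ENNReal.ofReal_natCast, ← ENNReal.mul_div_right_comm]
  refine ENNReal.div_le_of_le_mul' ?_
  rw [Finset.mul_sum]
  calc ∑ i : Fin d, ENNReal.ofReal (nsq a') * Iso_Q N R (Pi.single i 1)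
      ≤ ∑ _i : Fin d, Iso_Q N R a := Finset.sum_le_sum fun i _ => key i
    _ = (d : ℝ≥0∞) * Iso_Q N R a := by
        rw [Finset.sum_const, Finset.card_univ, Fintype.card_fin, nsmul_eq_mul]

end Pool.Agent.H15.HF
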