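import Pool.Agent.H15.HF.Upp
import Pool.Agent.H15.HF.Out
import Pool.Agent.H82.BK.Loss
import Pool.Agent.H82.BK.Coll

/-!
# Module Mea: the cut-off operator as an integral over `(m, h)`

For `g` continuous, `|g| ≤ A Wp q`, any sign. Gain: `∫∫ kerB g(w') g(v')` over `volume.prod (surf d)` is absolutely integrable: `(1+nsq w')(1+nsq v') ≥ 1 + nsq v + nsq w` (`energy_post`), so `|g(w') g(v')| ≤ A² Wp q w`, `|kerB| ≤ C ε^(-β) len (v-w)^γ` (see `Real_int` in H82/CM/RealG). FOLD `σ ↦ -σ` (`neg_preserving`): `post (-σ) = post'`, so the kernel `b 1_{cos ≤ 1-ε}` may be replaced by `bt b ε`: private lemma `Fold_inner` / `boltzCut_fold` in H15/AVB/Fold (there for rapidly decaying `g`; copy).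
CHANGE OF VARIABLES: `coll_cv` (H82/BK/Coll) with `β = bt b ε` and `Φ = ofReal (g g)`, `Φ = ofReal (-(g g))`; both sides finite; subtract (`integral_eq_lintegral_pos_part_sub_lintegral_neg_part`), then `lint_Nm` for the inner integral, Fubini. Loss: `∫∫ kerB g(w) g(v) = ∫ len m^γ g(v-m) g(v) BB b ε (dir m) dm` (`loss_eq` for positive and negative parts, or as there: `w = v - m`), `BB b ε (dir m) = ∫⁻ Kn c^(d+γ) = ∫⁻ qf dNm` (`BB_eq`, `qf_eq`).
Integrability of the outer function: `outer`, the inner integral is `≤ 2A² M ...`: `|g(v-m) g(v+h)| ≤ A² Wp q (v-m)`, `Nm univ ≤ M`; measurable by `meas_Nm`.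
-/

set_option autoImplicit false

open MeasureTheory Set Filter Topology Pool.Agent.H25.Kin Pool.Agent.H48.PL Pool.Agent.H48.PD
open Pool.Agent.H82.BK Pool.Agent.H82.CM Pool.Agent.H48.PR Pool.Agent.H82.HF
open scoped ENNReal

namespace Pool.Agent.H15.HF

variable {d : ℕ} {γ s C Ca cb : ℝ} {b : ℝ → ℝ}

private lemma Mea_post (v w σ : Vec d) : post v w (-σ) = post' v w σ := by
  unfold post post'; rw [smul_neg, ← sub_eq_add_neg]

private lemma Mea_post' (v w σ : Vec d) : post' v w (-σ) = post v w σ := by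
  unfold post post'; rw [smul_neg, sub_neg_eq_add]

private lemma Mea_cos (v w σ : Vec d) : cosTh v w (-σ) = -cosTh v w σ := by
  unfold cosTh; rw [neg_dot, neg_div]

private lemma Mea_ker (γ : ℝ) (b : ℝ → ℝ) (ε : ℝ) (v w σ : Vec d) :
    kerB γ b ε v w σ = len (v - w) ^ γ * bcut b ε (cosTh v w σ) := by
  unfold kerB bcut
  split_ifs
  · rfl
  · rw [mul_zero]

/-- the folded kernel -/
private noncomputable def Mea_k (γ : ℝ) (b : ℝ → ℝ) (ε : ℝ) (v : Vec d) (q : Vec d × Vec d) : ℝ :=
  len (v - q.1) ^ γ * bt b ε (cosTh v q.1 q.2)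

private lemma Mea_cosm (v : Vec d) : Measurable fun q : Vec d × Vec d => cosTh v q.1 q.2 :=
  measurable_cosTh.comp (measurable_const.prodMk (measurable_fst.prodMk measurable_snd))

private lemma Mea_kmeas (γ : ℝ) (hb : Measurable b) (ε : ℝ) (v : Vec d) :
    Measurable (Mea_k γ b ε v) := by
  unfold Mea_k
  have h0 : Measurable fun q : Vec d × Vec d => v - q.1 := measurable_const.sub measurable_fst
  exact ((continuous_len.measurable.comp h0).pow_const γ).mul
    ((measurable_bt hb ε).comp (Mea_cosm v))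

private lemma Mea_bt_le {β ε : ℝ} (hC : AngBound b C β) (hβ : 0 ≤ β) (hε : 0 < ε) {x : ℝ}
    (h1 : -1 ≤ x) (h2 : x ≤ 1) : bt b ε x ≤ 2 * (C * ε ^ (-β)) := by
  have hC0 := hC.1
  have hp : 0 ≤ ε ^ (-β) := Real.rpow_nonneg hε.le _
  have key : ∀ y : ℝ, -1 ≤ y → bcut b ε y ≤ C * ε ^ (-β) := by
    intro y hy
    unfold bcut
    split_ifs with h
    · refine (hC.2 y hy (by linarith)).2.trans ?_
      refine mul_le_mul_of_nonneg_left ?_ hC0
      exact Real.rpow_le_rpow_of_nonpos hε (by linarith) (by linarith)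
    · positivity
  have h3 : (if 0 < x then bcut b ε x else 0) ≤ C * ε ^ (-β) := by
    split_ifs
    · exact key x h1
    · positivity
  have h4 : (if 0 ≤ x then bcut b ε (-x) else 0) ≤ C * ε ^ (-β) := by
    split_ifs
    · exact key (-x) (by linarith)
    · positivity
  unfold bt
  linarith

private lemma Mea_k_nonneg {β ε : ℝ} (hC : AngBound b C β) (hε : 0 < ε) (v : Vec d)
    {q : Vec d × Vec d} (hq : nsq q.2 = 1) : 0 ≤ Mea_k γ b ε v q := by
  have h := abs_le.1 (abs_cosTh_le (v := v) (w := q.1) hq)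
  exact mul_nonneg (Real.rpow_nonneg (len_nonneg _) _) (bt_nonneg hC hε h.1 h.2)

private lemma Mea_k_le {β ε : ℝ} (hC : AngBound b C β) (hβ : 0 ≤ β) (hε : 0 < ε) (v : Vec d)
    {q : Vec d × Vec d} (hq : nsq q.2 = 1) :
    Mea_k γ b ε v q ≤ len (v - q.1) ^ γ * (2 * (C * ε ^ (-β))) := by
  have h := abs_le.1 (abs_cosTh_le (v := v) (w := q.1) hq)
  exact mul_le_mul_of_nonneg_left (Mea_bt_le hC hβ hε h.1 h.2) (Real.rpow_nonneg (len_nonneg _) _)

private lemma Mea_len (h0 : 0 ≤ γ) (h2 : γ ≤ 2) (m : Vec d) : len m ^ γ ≤ 1 + nsq m := by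
  have hl := len_nonneg m
  have hn := sq_nonneg' m
  rcases le_or_gt (len m) 1 with h | h
  · have := Real.rpow_le_one hl h h0
    linarith
  · have h3 : len m ^ γ ≤ len m ^ (2 : ℝ) := Real.rpow_le_rpow_of_exponent_le h.le h2
    have h4 : len m ^ (2 : ℝ) = nsq m := by
      rw [← len_sq m]
      norm_cast
    linarith

/-- integrability against the folded kernel -/
private lemma Mea_int (H : Hyp d γ s b C Ca) (h0 : 0 ≤ γ) {q : ℕ} (hq : d + 10 ≤ q) {ε : ℝ}
    (hε : 0 < ε) (v : Vec d) {P : Vec d × Vec d → ℝ} (hP : Measurable P) {A : ℝ} (hA : 0 ≤ A)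
    (hb : ∀ w σ, nsq σ = 1 → |P (w, σ)| ≤ A * Wp q w) :
    Integrable (fun z : Vec d × Vec d => Mea_k γ b ε v z * P z)
      ((volume : Measure (Vec d)).prod (surf d)) := by
  obtain ⟨K, hK, hW⟩ := W_int1 (d := d) hq
  have i0 : Integrable fun w : Vec d => (1 + nsq (v - w)) * Wp q w := by
    have := (hW v).1.comp_sub_left v
    refine this.congr (Eventually.of_forall fun w => ?_)
    simp only [sub_sub_cancel]
  have i1 : Integrable (fun z : Vec d × Vec d => ((1 + nsq (v - z.1)) * Wp q z.1) * (1 : ℝ))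
      ((volume : Measure (Vec d)).prod (surf d)) := i0.mul_prod (integrable_const (1 : ℝ))
  set B : ℝ := 2 * (C * ε ^ (-(((d : ℝ) - 1) / 2 + s))) with hB
  have i2 := i1.const_mul (B * A)
  refine i2.mono' ((Mea_kmeas γ H.bm ε v).mul hP).aestronglyMeasurable ?_
  have hae : ∀ᵐ z ∂((volume : Measure (Vec d)).prod (surf d)), nsq z.2 = 1 :=
    (Measure.quasiMeasurePreserving_snd).ae surf_ae
  filter_upwards [hae] with z hz
  obtain ⟨w, σ⟩ := z
  have hσ : nsq σ = 1 := hz
  have hε' := Real.rpow_nonneg hε.le (-(((d : ℝ) - 1) / 2 + s))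
  have hC0 := H.bd.1
  have hB0 : 0 ≤ B := by rw [hB]; positivity
  have a0 := Mea_k_nonneg (γ := γ) H.bd hε v (q := (w, σ)) hσ
  have a1 := Mea_k_le (γ := γ) H.bd H.β0 hε v (q := (w, σ)) hσ
  have a2 := hb w σ hσ
  have a3 := Mea_len (d := d) h0 H.g2 (v - w)
  have a4 := (Wp_pos q w).le
  have hn := sq_nonneg' (v - w)
  rw [norm_mul, Real.norm_eq_abs, Real.norm_eq_abs, abs_of_nonneg a0]
  calc Mea_k γ b ε v (w, σ) * |P (w, σ)|
      ≤ (len (v - w) ^ γ * B) * (A * Wp q w) :=
        mul_le_mul a1 a2 (abs_nonneg _) (mul_nonneg (Real.rpow_nonneg (len_nonneg _) _) hB0)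
    _ ≤ ((1 + nsq (v - w)) * B) * (A * Wp q w) := by gcongr
    _ = B * A * ((1 + nsq (v - w)) * Wp q w * 1) := by ring

private lemma Mea_inner (H : Hyp d γ s b C Ca) {ε : ℝ} (hε : 0 < ε) {D : Vec d → ℝ}
    (hD : Measurable D) {D0 : ℝ} (hD0 : ∀ σ, nsq σ = 1 → |D σ| ≤ D0)
    (hev : ∀ σ, D (-σ) = D σ) (v w : Vec d) :
    ∫ σ, kerB γ b ε v w σ * D σ ∂(surf d) = ∫ σ, Mea_k γ b ε v (w, σ) * D σ ∂(surf d) := by
  classical
  have hc := measurable_cosTh' v w
  set Fp : Vec d → ℝ := fun σ => if 0 < cosTh v w σ then D σ else 0 with hFp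
  set Fm : Vec d → ℝ := fun σ => if cosTh v w σ ≤ 0 then D σ else 0 with hFm
  have mp : Measurable Fp := Measurable.ite (hc measurableSet_Ioi) hD measurable_const
  have mm : Measurable Fm := Measurable.ite (hc measurableSet_Iic) hD measurable_const
  have bp : ∀ σ, nsq σ = 1 → |Fp σ| ≤ D0 := by
    intro σ hσ
    simp only [hFp]
    split_ifs
    · exact hD0 σ hσ
    · rw [abs_zero]; exact (abs_nonneg _).trans (hD0 σ hσ)
  have bm : ∀ σ, nsq σ = 1 → |Fm σ| ≤ D0 := by
    intro σ hσ
    simp only [hFm]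
    split_ifs
    · exact hD0 σ hσ
    · rw [abs_zero]; exact (abs_nonneg _).trans (hD0 σ hσ)
  have ip := inner_integrable (γ := γ) (v := v) (w := w) H.bm H.bd H.β0 hε mp bp
  have im := inner_integrable (γ := γ) (v := v) (w := w) H.bm H.bd H.β0 hε mm bm
  have hneg := neg_preserving (d := d) H.hd1
  have mkm : Measurable fun σ => kerB γ b ε v w σ * Fm σ :=
    (measurable_kerB' γ H.bm ε v w).mul mm
  have im' : Integrable (fun σ => kerB γ b ε v w (-σ) * Fm (-σ)) (surf d) :=
    hneg.integrable_comp_of_integrable im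
  have e1 : ∫ σ, kerB γ b ε v w (-σ) * Fm (-σ) ∂(surf d) =
      ∫ σ, kerB γ b ε v w σ * Fm σ ∂(surf d) := by
    have h := integral_map (μ := surf d) (φ := fun σ : Vec d => -σ)
      hneg.measurable.aemeasurable (f := fun σ => kerB γ b ε v w σ * Fm σ)
      mkm.aestronglyMeasurable
    rw [hneg.map_eq] at h
    exact h.symm
  have e2 : ∫ σ, kerB γ b ε v w σ * D σ ∂(surf d) =
      (∫ σ, kerB γ b ε v w σ * Fp σ ∂(surf d)) + ∫ σ, kerB γ b ε v w σ * Fm σ ∂(surf d) := by
    rw [← integral_add ip im]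
    refine integral_congr_ae (Eventually.of_forall fun σ => ?_)
    simp only [hFp, hFm]
    by_cases h : 0 < cosTh v w σ
    · rw [if_pos h, if_neg (not_le.2 h)]; ring
    · rw [if_neg h, if_pos (not_lt.1 h)]; ring
  rw [e2, ← e1, ← integral_add ip im']
  refine integral_congr_ae (Eventually.of_forall fun σ => ?_)
  simp only [hFp, hFm, Mea_ker, Mea_cos, hev]
  unfold Mea_k bt
  simp only
  rcases lt_trichotomy (cosTh v w σ) 0 with h | h | h
  · have h1 : ¬ -cosTh v w σ ≤ 0 := by linarith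
    rw [if_neg (not_lt.2 h.le), if_neg h1, if_neg (not_lt.2 h.le), if_neg (not_le.2 h)]
    ring
  · rw [h]
    simp
  · have h1 : -cosTh v w σ ≤ 0 := by linarith
    rw [if_pos h, if_pos h1, if_pos h, if_pos h.le]
    ring

private lemma Mea_KK (hb : Measurable b) (γ ε : ℝ) : Measurable fun z : Vec d × Vec d =>
    len z.1 ^ γ * Kn d γ (bt b ε) (co z.1 z.2) := by
  have h1 : Measurable fun q : Vec d × Vec d => len q.1 ^ γ :=
    (continuous_len.measurable.comp measurable_fst).pow_const γ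
  have hβ := measurable_bt hb ε
  have hK : Measurable fun c : ℝ => Kn d γ (bt b ε) c := by
    unfold Kn
    exact (measurable_const.mul (measurable_id.pow_const _)).mul (hβ.comp (by fun_prop))
  have h2 : Measurable fun q : Vec d × Vec d => Kn d γ (bt b ε) (co q.1 q.2) :=
    hK.comp measurable_co
  exact h1.mul h2

private lemma Mea_p1 (v : Vec d) : Measurable fun q : Vec d × Vec d =>
    ((post' v q.1 q.2, post v q.1 q.2) : Vec d × Vec d) := by
  have hi : Measurable fun q : Vec d × Vec d => ((v, q.1, q.2) : Vec d × Vec d × Vec d) := by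
    fun_prop
  exact (continuous_post'.measurable.comp hi).prodMk (continuous_post.measurable.comp hi)

private lemma Mea_p2 (v : Vec d) : Measurable fun q : Vec d × Vec d =>
    ((v - q.1, v + hh q.2 q.1) : Vec d × Vec d) := by
  exact (measurable_const.sub measurable_fst).prodMk (measurable_const.add measurable_hh)

private lemma Mea_S : MeasurableSet {q : Vec d × Vec d | 0 < dot q.1 q.2} :=
  (isOpen_lt continuous_const continuous_dot).measurableSet

private noncomputable def Mea_m1 (γ : ℝ) (b : ℝ → ℝ) (ε : ℝ) (v : Vec d) :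
    Measure (Vec d × Vec d) :=
  (((volume : Measure (Vec d)).prod (surf d)).withDensity
    fun q => ENNReal.ofReal (Mea_k γ b ε v q)).map fun q => (post' v q.1 q.2, post v q.1 q.2)

private noncomputable def Mea_m2 (γ : ℝ) (b : ℝ → ℝ) (ε : ℝ) (v : Vec d) :
    Measure (Vec d × Vec d) :=
  ((((volume : Measure (Vec d)).prod (surf d)).restrict
    {q : Vec d × Vec d | 0 < dot q.1 q.2}).withDensity
    fun q => ENNReal.ofReal (len q.1 ^ γ * Kn d γ (bt b ε) (co q.1 q.2))).map
      fun q => (v - q.1, v + hh q.2 q.1)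

private lemma Mea_meq (hd : 2 ≤ d) (hb : Measurable b) (γ ε : ℝ) (v : Vec d) :
    Mea_m1 γ b ε v = Mea_m2 γ b ε v := by
  refine Measure.ext fun T hT => ?_
  have hI : Measurable (T.indicator (1 : Vec d × Vec d → ℝ≥0∞)) :=
    measurable_one.indicator hT
  have hc := coll_cv hd γ (measurable_bt hb ε)
    (Φ := fun x y => T.indicator (1 : Vec d × Vec d → ℝ≥0∞) (x, y)) hI v
  rw [← lintegral_indicator_one hT, ← lintegral_indicator_one hT]
  unfold Mea_m1 Mea_m2
  have k1 := (Mea_kmeas γ hb ε v).ennreal_ofReal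
  have k2 := (Mea_KK (d := d) hb γ ε).ennreal_ofReal
  have hI1 : Measurable fun q : Vec d × Vec d =>
      T.indicator (1 : Vec d × Vec d → ℝ≥0∞) (post' v q.1 q.2, post v q.1 q.2) :=
    hI.comp (Mea_p1 v)
  have hI2 : Measurable fun q : Vec d × Vec d =>
      T.indicator (1 : Vec d × Vec d → ℝ≥0∞) (v - q.1, v + hh q.2 q.1) :=
    hI.comp (Mea_p2 v)
  rw [lintegral_map hI (Mea_p1 v), lintegral_map hI (Mea_p2 v),
    lintegral_withDensity_eq_lintegral_mul _ k1 hI1,
    lintegral_withDensity_eq_lintegral_mul _ k2 hI2, lintegral_prod _ (k1.mul hI1).aemeasurable]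
  have e1 : ∫⁻ z in {q : Vec d × Vec d | 0 < dot q.1 q.2},
      ((fun q : Vec d × Vec d => ENNReal.ofReal (len q.1 ^ γ * Kn d γ (bt b ε) (co q.1 q.2))) *
        fun q : Vec d × Vec d =>
          T.indicator (1 : Vec d × Vec d → ℝ≥0∞) (v - q.1, v + hh q.2 q.1)) z
        ∂((volume : Measure (Vec d)).prod (surf d)) =
      ∫⁻ m, ∫⁻ σ in {σ : Vec d | 0 < dot m σ},
        ENNReal.ofReal (len m ^ γ * Kn d γ (bt b ε) (co m σ)) *
          T.indicator (1 : Vec d × Vec d → ℝ≥0∞) (v - m, v + hh σ m) ∂(surf d) := by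
    rw [← lintegral_indicator Mea_S, lintegral_prod _ ((k2.mul hI2).indicator Mea_S).aemeasurable]
    refine lintegral_congr fun m => ?_
    rw [← lintegral_indicator (measurableSet_half m)]
    refine lintegral_congr fun σ => ?_
    by_cases h : 0 < dot m σ
    · rw [indicator_of_mem (show σ ∈ {σ : Vec d | 0 < dot m σ} from h),
        indicator_of_mem (show (m, σ) ∈ {q : Vec d × Vec d | 0 < dot q.1 q.2} from h)]
      rfl
    · rw [indicator_of_notMem (show σ ∉ {σ : Vec d | 0 < dot m σ} from h),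
        indicator_of_notMem (show (m, σ) ∉ {q : Vec d × Vec d | 0 < dot q.1 q.2} from h)]
  rw [e1]
  exact hc

/-- the collisional change of variables for functions of any sign -/
private lemma Mea_cv (H : Hyp d γ s b C Ca) {ε : ℝ} (hε : 0 < ε) (v : Vec d)
    {P : Vec d × Vec d → ℝ} (hP : Measurable P)
    (hi : Integrable (fun q : Vec d × Vec d => Mea_k γ b ε v q *
      P (post' v q.1 q.2, post v q.1 q.2)) ((volume : Measure (Vec d)).prod (surf d))) :
    Integrable (fun m => len m ^ γ * ∫ h, P (v - m, v + h) ∂(Nm γ b ε m)) ∧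
    ∫ q, Mea_k γ b ε v q * P (post' v q.1 q.2, post v q.1 q.2)
      ∂((volume : Measure (Vec d)).prod (surf d)) =
      ∫ m, len m ^ γ * ∫ h, P (v - m, v + h) ∂(Nm γ b ε m) := by
  have k1 := (Mea_kmeas γ H.bm ε v).ennreal_ofReal
  have k2 := (Mea_KK (d := d) H.bm γ ε).ennreal_ofReal
  have hae : ∀ᵐ z ∂((volume : Measure (Vec d)).prod (surf d)), nsq z.2 = 1 :=
    (Measure.quasiMeasurePreserving_snd).ae surf_ae
  have l1 : ∀ᵐ q ∂((volume : Measure (Vec d)).prod (surf d)),
      (ENNReal.ofReal (Mea_k γ b ε v q)).toReal • P (post' v q.1 q.2, post v q.1 q.2) =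
      Mea_k γ b ε v q * P (post' v q.1 q.2, post v q.1 q.2) := by
    filter_upwards [hae] with q hq
    rw [ENNReal.toReal_ofReal (Mea_k_nonneg H.bd hε v hq), smul_eq_mul]
  have hPm1 : AEStronglyMeasurable P (Mea_m1 γ b ε v) := hP.aestronglyMeasurable
  have hPm2 : AEStronglyMeasurable P (Mea_m2 γ b ε v) := hP.aestronglyMeasurable
  -- integrability on the first measure
  have I1 : Integrable P (Mea_m1 γ b ε v) := by
    unfold Mea_m1 at hPm1 ⊢
    rw [integrable_map_measure hPm1 (Mea_p1 v).aemeasurable,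
      integrable_withDensity_iff_integrable_smul' k1
        (Eventually.of_forall fun _ => ENNReal.ofReal_lt_top)]
    exact hi.congr (by filter_upwards [l1] with q hq; exact hq.symm)
  have E1 : ∫ p, P p ∂(Mea_m1 γ b ε v) = ∫ q, Mea_k γ b ε v q *
      P (post' v q.1 q.2, post v q.1 q.2) ∂((volume : Measure (Vec d)).prod (surf d)) := by
    unfold Mea_m1 at hPm1 ⊢
    rw [integral_map (Mea_p1 v).aemeasurable hPm1,
      integral_withDensity_eq_integral_toReal_smul k1
        (Eventually.of_forall fun _ => ENNReal.ofReal_lt_top)]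
    exact integral_congr_ae l1
  have hM := Mea_meq H.hd H.bm γ ε v
  have I2 : Integrable P (Mea_m2 γ b ε v) := hM ▸ I1
  have I3 : Integrable (fun q : Vec d × Vec d =>
      (ENNReal.ofReal (len q.1 ^ γ * Kn d γ (bt b ε) (co q.1 q.2))).toReal •
        P (v - q.1, v + hh q.2 q.1)) (((volume : Measure (Vec d)).prod (surf d)).restrict
        {q : Vec d × Vec d | 0 < dot q.1 q.2}) := by
    unfold Mea_m2 at I2 hPm2
    rw [integrable_map_measure hPm2 (Mea_p2 v).aemeasurable,
      integrable_withDensity_iff_integrable_smul' k2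
        (Eventually.of_forall fun _ => ENNReal.ofReal_lt_top)] at I2
    exact I2
  have E2 : ∫ p, P p ∂(Mea_m2 γ b ε v) = ∫ q in {q : Vec d × Vec d | 0 < dot q.1 q.2},
      (ENNReal.ofReal (len q.1 ^ γ * Kn d γ (bt b ε) (co q.1 q.2))).toReal •
        P (v - q.1, v + hh q.2 q.1) ∂((volume : Measure (Vec d)).prod (surf d)) := by
    unfold Mea_m2 at hPm2 ⊢
    rw [integral_map (Mea_p2 v).aemeasurable hPm2,
      integral_withDensity_eq_integral_toReal_smul k2
        (Eventually.of_forall fun _ => ENNReal.ofReal_lt_top)]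
  set R : Vec d × Vec d → ℝ := indicator {q : Vec d × Vec d | 0 < dot q.1 q.2}
    (fun q : Vec d × Vec d =>
      (ENNReal.ofReal (len q.1 ^ γ * Kn d γ (bt b ε) (co q.1 q.2))).toReal •
        P (v - q.1, v + hh q.2 q.1)) with hR
  have I4 : Integrable R ((volume : Measure (Vec d)).prod (surf d)) :=
    (integrable_indicator_iff Mea_S).2 I3
  have E3 : ∀ m : Vec d, ∫ σ, R (m, σ) ∂(surf d) =
      len m ^ γ * ∫ h, P (v - m, v + h) ∂(Nm γ b ε m) := by
    intro m
    have hφ : Measurable fun h : Vec d => P (v - m, v + h) :=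
      hP.comp (measurable_const.prodMk (measurable_const.add measurable_id))
    rw [int_Nm H.bm γ ε m hφ, ← integral_const_mul, ← integral_indicator (measurableSet_half m)]
    refine integral_congr_ae (Eventually.of_forall fun σ => ?_)
    simp only [hR]
    by_cases h : 0 < dot m σ
    · rw [indicator_of_mem (show σ ∈ {σ : Vec d | 0 < dot m σ} from h),
        indicator_of_mem (show (m, σ) ∈ {q : Vec d × Vec d | 0 < dot q.1 q.2} from h)]
      have hl := Real.rpow_nonneg (len_nonneg m) γ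
      simp only [smul_eq_mul]
      rw [ENNReal.toReal_ofReal', ← mul_assoc, mul_max_of_nonneg _ _ hl, mul_zero]
    · rw [indicator_of_notMem (show σ ∉ {σ : Vec d | 0 < dot m σ} from h),
        indicator_of_notMem (show (m, σ) ∉ {q : Vec d × Vec d | 0 < dot q.1 q.2} from h)]
  refine ⟨?_, ?_⟩
  · have := I4.integral_prod_left
    exact this.congr (Eventually.of_forall E3)
  · rw [← E1, hM, E2, ← integral_indicator Mea_S, integral_prod _ I4]
    exact integral_congr_ae (Eventually.of_forall E3)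

private lemma Mea_qm (γ : ℝ) (m : Vec d) : Measurable fun h : Vec d => qf d γ m h := by
  have h1 : Measurable fun h : Vec d => ((m, h) : Vec d × Vec d) :=
    measurable_const.prodMk measurable_id
  have h2 := (meas_qf (d := d) γ).comp h1
  exact h2

private lemma Mea_loss (H : Hyp d γ s b C Ca) (h0 : 0 ≤ γ) {ε : ℝ} (hε : 0 < ε) (v : Vec d)
    {m : Vec d} (hm : m ≠ 0) :
    ∫ σ, bt b ε (cosTh v (v - m) σ) ∂(surf d) = ∫ h, qf d γ m h ∂(Nm γ b ε m) := by
  have hcm := measurable_cosTh' v (v - m)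
  have hqm := Mea_qm (d := d) γ m
  have n1 : 0 ≤ᵐ[surf d] fun σ => bt b ε (cosTh v (v - m) σ) := by
    filter_upwards [surf_ae] with σ hσ
    have h := abs_le.1 (abs_cosTh_le (v := v) (w := v - m) hσ)
    exact bt_nonneg H.bd hε h.1 h.2
  have n2 : 0 ≤ᵐ[Nm γ b ε m] fun h => qf d γ m h :=
    Eventually.of_forall fun h => (qf_01 h0 m h).1
  rw [integral_eq_lintegral_of_nonneg_ae n1
    (((measurable_bt H.bm ε).comp hcm).aestronglyMeasurable),
    integral_eq_lintegral_of_nonneg_ae n2 hqm.aestronglyMeasurable]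
  congr 1
  rw [lint_Nm H.bm γ ε m hqm.ennreal_ofReal]
  have e1 : ∫⁻ σ in {σ : Vec d | 0 < dot m σ}, ENNReal.ofReal (Kn d γ (bt b ε) (co m σ)) *
      ENNReal.ofReal (qf d γ m (hh σ m)) ∂(surf d) =
      ∫⁻ σ in {σ : Vec d | 0 < dot m σ}, ENNReal.ofReal
      (Kn d γ (bt b ε) (co m σ) * co m σ ^ ((d : ℝ) + γ)) ∂(surf d) := by
    refine lintegral_congr_ae ?_
    filter_upwards [ae_restrict_of_ae surf_ae, ae_restrict_mem (measurableSet_half m)] with σ hσ hs
    rw [qf_eq hσ hs, ← ENNReal.ofReal_mul' (Real.rpow_nonneg (co_pos hs).le _)]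
  rw [e1, BB_eq H.hd γ H.bm ε hm]
  unfold BB
  refine lintegral_congr fun σ => ?_
  rw [cosTh_eq]
  unfold dirk dir
  rw [sub_sub_cancel]

private lemma Mea_Wp {q : ℕ} {v w σ : Vec d} (hσ : nsq σ = 1) :
    Wp q (post' v w σ) * Wp q (post v w σ) ≤ Wp q w := by
  unfold Wp
  rw [← mul_inv, ← mul_pow]
  have h1 := energy_post (v := v) (w := w) hσ
  have a := sq_nonneg' (post v w σ)
  have b := sq_nonneg' (post' v w σ)
  have c := sq_nonneg' v
  have e := sq_nonneg' w
  have h2 : 1 + nsq w ≤ (1 + nsq (post' v w σ)) * (1 + nsq (post v w σ)) := by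
    nlinarith [mul_nonneg a b]
  exact inv_anti₀ (by positivity) (pow_le_pow_left₀ (by linarith) h2 q)

theorem cutM (H : Hyp d γ s b C Ca) (h0 : 0 ≤ γ) {q : ℕ} (hq : d + 10 ≤ q) {ε : ℝ} (hε : 0 < ε)
    {g : Vec d → ℝ} (hg : Continuous g) {A : ℝ} (hA : ∀ u, |g u| ≤ A * Wp q u) (v : Vec d) :
    boltzCut γ b ε g v = ∫ m, len m ^ γ * ∫ h, (g (v - m) * g (v + h) -
      qf d γ m h * (g (v - m) * g v)) ∂(Nm γ b ε m) := by
  have hA0 : 0 ≤ A := by
    have := (abs_nonneg _).trans (hA 0)
    exact nonneg_of_mul_nonneg_left this (Wp_pos q 0)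
  have hgb : ∀ u, |g u| ≤ A := fun u => (hA u).trans (by
    have := Wp_le_one q u
    nlinarith [Wp_pos q u])
  have mg := hg.measurable
  set P1 : Vec d × Vec d → ℝ := fun p => g p.1 * g p.2 with hP1
  set P2 : Vec d × Vec d → ℝ := fun p => g p.1 * g v with hP2
  have m1 : Measurable P1 := (mg.comp measurable_fst).mul (mg.comp measurable_snd)
  have m2 : Measurable P2 := (mg.comp measurable_fst).mul measurable_const
  have i1 := Mea_int H h0 hq hε v (P := fun p => P1 (post' v p.1 p.2, post v p.1 p.2))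
    (m1.comp (Mea_p1 v)) (A := A * A) (by positivity) (fun w σ hσ => by
      simp only [hP1]
      rw [abs_mul]
      calc |g (post' v w σ)| * |g (post v w σ)|
          ≤ (A * Wp q (post' v w σ)) * (A * Wp q (post v w σ)) :=
            mul_le_mul (hA _) (hA _) (abs_nonneg _) (mul_nonneg hA0 (Wp_pos q _).le)
        _ = A * A * (Wp q (post' v w σ) * Wp q (post v w σ)) := by ring
        _ ≤ A * A * Wp q w := by
            gcongr
            exact Mea_Wp hσ)
  have i2 := Mea_int H h0 hq hε v (P := P2) m2 (A := A * A) (by positivity) (fun w σ _ => by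
      simp only [hP2]
      rw [abs_mul]
      calc |g w| * |g v| ≤ (A * Wp q w) * A :=
            mul_le_mul (hA _) (hgb _) (abs_nonneg _) (mul_nonneg hA0 (Wp_pos q _).le)
        _ = A * A * Wp q w := by ring)
  obtain ⟨j1, e1⟩ := Mea_cv H hε v m1 i1
  -- the folded form
  have e0 : boltzCut γ b ε g v =
      (∫ z, Mea_k γ b ε v z * P1 (post' v z.1 z.2, post v z.1 z.2)
        ∂((volume : Measure (Vec d)).prod (surf d))) -
      ∫ z, Mea_k γ b ε v z * P2 z ∂((volume : Measure (Vec d)).prod (surf d)) := by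
    have i3 : Integrable (fun z : Vec d × Vec d =>
        Mea_k γ b ε v z * P1 (post' v z.1 z.2, post v z.1 z.2) -
        Mea_k γ b ε v z * P2 z) ((volume : Measure (Vec d)).prod (surf d)) := i1.sub i2
    rw [← integral_sub i1 i2, integral_prod _ i3]
    unfold boltzCut
    refine integral_congr_ae (Eventually.of_forall fun w => ?_)
    have h := Mea_inner H hε (D := fun σ => Dl g v w σ) (Dl_meas hg v w) (D0 := A * A + A * A)
      (fun σ _ => by
        unfold Dl
        refine (abs_sub _ _).trans ?_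
        rw [abs_mul, abs_mul]
        exact add_le_add (mul_le_mul (hgb _) (hgb _) (abs_nonneg _) hA0)
          (mul_le_mul (hgb _) (hgb _) (abs_nonneg _) hA0)) (fun σ => by
        unfold Dl
        rw [Mea_post, Mea_post']
        ring) v w
    unfold Dl at h
    simp only
    rw [h]
    refine integral_congr_ae (Eventually.of_forall fun σ => ?_)
    simp only [hP1, hP2]
    ring
  -- the loss term
  have hne : ∀ᵐ m : Vec d, m ≠ 0 := by
    have : Nonempty (Fin d) := ⟨⟨0, by have := H.hd; omega⟩⟩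
    exact Measure.ae_ne _ _
  set Q : Vec d → ℝ := fun m => len m ^ γ * ∫ h, qf d γ m h * (g (v - m) * g v)
    ∂(Nm γ b ε m) with hQ
  have e3 : ∀ m : Vec d, m ≠ 0 →
      ∫ σ, Mea_k γ b ε v (v - m, σ) * P2 (v - m, σ) ∂(surf d) = Q m := by
    intro m hm
    simp only [hQ]
    rw [integral_mul_const, ← Mea_loss H h0 hε v hm, ← integral_mul_const, ← integral_const_mul]
    refine integral_congr_ae (Eventually.of_forall fun σ => ?_)
    simp only [hP2]
    unfold Mea_k
    simp only [sub_sub_cancel]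
    ring
  have j2' : Integrable fun m : Vec d =>
      ∫ σ, Mea_k γ b ε v (v - m, σ) * P2 (v - m, σ) ∂(surf d) :=
    i2.integral_prod_left.comp_sub_left v
  have j2 : Integrable Q := j2'.congr (by filter_upwards [hne] with m hm; exact e3 m hm)
  have e2 : ∫ z, Mea_k γ b ε v z * P2 z ∂((volume : Measure (Vec d)).prod (surf d)) =
      ∫ m, Q m := by
    rw [integral_prod _ i2, ← integral_sub_left_eq_self _ _ v]
    refine integral_congr_ae ?_
    filter_upwards [hne] with m hm
    exact e3 m hm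
  rw [e0, e1, e2, ← integral_sub j1 j2]
  refine integral_congr_ae (Eventually.of_forall fun m => ?_)
  simp only [hQ, hP1]
  -- the inner integral
  obtain ⟨M, hM, hN⟩ := Nm_le H hε
  have : IsFiniteMeasure (Nm γ b ε m) :=
    ⟨lt_of_le_of_lt (hN m) ENNReal.ofReal_lt_top⟩
  have k1 : Integrable (fun h => g (v - m) * g (v + h)) (Nm γ b ε m) := by
    refine Integrable.mono' (integrable_const (A * A)) ?_ (Eventually.of_forall fun h => ?_)
    · exact (measurable_const.mul
        (mg.comp (measurable_const.add measurable_id))).aestronglyMeasurable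
    · rw [Real.norm_eq_abs, abs_mul]
      exact mul_le_mul (hgb _) (hgb _) (abs_nonneg _) hA0
  have hqm := Mea_qm (d := d) γ m
  have k2 : Integrable (fun h => qf d γ m h * (g (v - m) * g v)) (Nm γ b ε m) := by
    refine Integrable.mul_const ?_ _
    refine Integrable.mono' (integrable_const (1 : ℝ)) hqm.aestronglyMeasurable
      (Eventually.of_forall fun h => ?_)
    have := qf_01 (d := d) h0 m h
    rw [Real.norm_eq_abs, abs_of_nonneg this.1]
    exact this.2
  rw [← mul_sub, ← integral_sub k1 k2]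

end Pool.Agent.H15.HF
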