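import Pool.Agent.H15.HF.Def

/-!
# Module NmA: the measure `Nm`: integrals, mass, support, measurability

`lint_Nm`: `lintegral_map` (`measurable_hh`), `lintegral_withDensity_eq_lintegral_mul` (`measurable_co`, `measurable_bt`, `Kn` measurable in `c`), `measurableSet_half`.
`Nm_le`: `Kn d γ (bt b ε) c ≤ K (1-c)^(-β)` on the support, and `bt b ε x = 0` or `b (-x)`-bounded for `x > 1 - ε`: `bt b ε x ≤ 2 C ε^(-β)` type bound (`bt_le`: `bt b ε x ≤ 2 C (1-x)^(-β)` for `x ≤ 1-ε`, and `≤ C`-bound of `b(-x)` else; see its statement and the bound of `Ls`), `c^(-2-γ) ≤ 4` where `2c²-1 ≥ 0`; `surf d` is finite.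
`Nm_ae`: `ae_map_iff`, `surf_ae` (`nsq σ = 1`), `dot_hh`, `nsq_hh`: where the density is positive `2c²-1 ≥ 0` (`bt_neg`), so `(1-c²)/c² ≤ 1`. `ae_withDensity_iff`.
`int_Nm`: `integral_map`, `integral_withDensity_eq_integral_toReal_smul`. `meas_Nm`: from `int_Nm` with the indicator of `{(m,σ) | 0 < dot m σ}`: `StronglyMeasurable.integral_prod_right` (`surf d` is s-finite).
`qf_eq`: `c² = |m|²/(|m|²+|h|²)` by `nsq_hh`.
-/

set_option autoImplicit false

open MeasureTheory Set Filter Topology Pool.Agent.H25.Kin Pool.Agent.H48.PL Pool.Agent.H48.PD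
open Pool.Agent.H82.BK Pool.Agent.H82.CM Pool.Agent.H48.PR Pool.Agent.H82.HF
open scoped ENNReal

namespace Pool.Agent.H15.HF

variable {d : ℕ} {γ s C Ca cb : ℝ} {b : ℝ → ℝ}

lemma meas_hm (m : Vec d) : Measurable fun σ : Vec d => hh σ m := by
  have h : Measurable fun σ : Vec d => ((m, σ) : Vec d × Vec d) :=
    measurable_const.prodMk measurable_id
  have h2 := (measurable_hh (d := d)).comp h
  exact h2

private lemma NmA_Km (hb : Measurable b) (γ ε : ℝ) :
    Measurable fun c : ℝ => Kn d γ (bt b ε) c := by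
  have hβ := measurable_bt hb ε
  unfold Kn
  exact (measurable_const.mul (measurable_id.pow_const _)).mul (hβ.comp (by fun_prop))

private lemma NmA_Kp (hb : Measurable b) (γ ε : ℝ) :
    Measurable fun q : Vec d × Vec d => Kn d γ (bt b ε) (co q.1 q.2) :=
  (NmA_Km hb γ ε).comp measurable_co

private lemma NmA_Ks (hb : Measurable b) (γ ε : ℝ) (m : Vec d) :
    Measurable fun σ : Vec d => Kn d γ (bt b ε) (co m σ) := by
  have h : Measurable fun σ : Vec d => ((m, σ) : Vec d × Vec d) :=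
    measurable_const.prodMk measurable_id
  have h2 : Measurable fun σ : Vec d => co m σ := by
    have h3 := (measurable_co (d := d)).comp h
    exact h3
  exact (NmA_Km hb γ ε).comp h2

private lemma NmA_bt_le {β ε : ℝ} (hC : AngBound b C β) (hβ : 0 ≤ β) (hε : 0 < ε) {x : ℝ}
    (h1 : -1 ≤ x) (h2 : x ≤ 1) : bt b ε x ≤ 2 * (C * ε ^ (-β)) := by
  have hC0 := hC.1
  have hp : 0 ≤ ε ^ (-β) := Real.rpow_nonneg hε.le _
  have key : ∀ y : ℝ, -1 ≤ y → bcut b ε y ≤ C * ε ^ (-β) := by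
    intro y hy
    unfold bcut
    split_ifs with h
    · refine (hC.2 y hy (by linarith)).2.trans ?_
      refine mul_le_mul_of_nonneg_left ?_ hC0
      exact Real.rpow_le_rpow_of_nonpos hε (by linarith) (by linarith)
    · positivity
  have h3 : (if 0 < x then bcut b ε x else 0) ≤ C * ε ^ (-β) := by
    split_ifs
    · exact key x h1
    · positivity
  have h4 : (if 0 ≤ x then bcut b ε (-x) else 0) ≤ C * ε ^ (-β) := by
    split_ifs
    · exact key (-x) (by linarith)
    · positivity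
  unfold bt
  linarith

/-- bound of the kernel on the unit sphere -/
private lemma NmA_K_le (H : Hyp d γ s b C Ca) {ε : ℝ} (hε : 0 < ε) {c : ℝ} (hc : 0 < c)
    (hc1 : c ≤ 1) : Kn d γ (bt b ε) c ≤
      2 ^ (d - 1) * (1 / 2 : ℝ) ^ (-2 - γ) * (2 * (C * ε ^ (-(((d : ℝ) - 1) / 2 + s)))) := by
  have hC0 := H.bd.1
  have hp : 0 ≤ ε ^ (-(((d : ℝ) - 1) / 2 + s)) := Real.rpow_nonneg hε.le _
  have hq : 0 ≤ (1 / 2 : ℝ) ^ (-2 - γ) := Real.rpow_nonneg (by norm_num) _
  unfold Kn
  rcases lt_or_ge (2 * c ^ 2 - 1) 0 with h | h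
  · rw [bt_neg h, mul_zero]
    positivity
  · have h1 : (1 : ℝ) / 2 ≤ c := by nlinarith
    have h2 : c ^ (-2 - γ) ≤ (1 / 2 : ℝ) ^ (-2 - γ) := by
      refine Real.rpow_le_rpow_of_nonpos (by norm_num) h1 ?_
      have := H.g1
      linarith
    have h3 : bt b ε (2 * c ^ 2 - 1) ≤ 2 * (C * ε ^ (-(((d : ℝ) - 1) / 2 + s))) :=
      NmA_bt_le H.bd H.β0 hε (by linarith) (by nlinarith)
    have h4 : 0 ≤ bt b ε (2 * c ^ 2 - 1) := bt_nonneg H.bd hε (by linarith) (by nlinarith)
    have h5 : 0 ≤ c ^ (-2 - γ) := Real.rpow_nonneg hc.le _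
    gcongr

private lemma NmA_S : MeasurableSet {q : Vec d × Vec d | 0 < dot q.1 q.2} :=
  (isOpen_lt continuous_const continuous_dot).measurableSet

theorem lint_Nm (hb : Measurable b) (γ ε : ℝ) (m : Vec d) {φ : Vec d → ℝ≥0∞} (hφ : Measurable φ) :
    ∫⁻ h, φ h ∂(Nm γ b ε m) = ∫⁻ σ in {σ : Vec d | 0 < dot m σ},
      ENNReal.ofReal (Kn d γ (bt b ε) (co m σ)) * φ (hh σ m) ∂(surf d) := by
  have k := (NmA_Ks (d := d) hb γ ε m).ennreal_ofReal
  have hc : Measurable fun σ : Vec d => φ (hh σ m) := hφ.comp (meas_hm m)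
  unfold Nm
  rw [lintegral_map hφ (meas_hm m), lintegral_withDensity_eq_lintegral_mul _ k hc]
  rfl

theorem int_Nm (hb : Measurable b) (γ ε : ℝ) (m : Vec d) {φ : Vec d → ℝ} (hφ : Measurable φ) :
    ∫ h, φ h ∂(Nm γ b ε m) = ∫ σ in {σ : Vec d | 0 < dot m σ},
      max (Kn d γ (bt b ε) (co m σ)) 0 * φ (hh σ m) ∂(surf d) := by
  have k := (NmA_Ks (d := d) hb γ ε m).ennreal_ofReal
  unfold Nm
  rw [integral_map (meas_hm m).aemeasurable hφ.aestronglyMeasurable,
    integral_withDensity_eq_integral_toReal_smul k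
      (Eventually.of_forall fun _ => ENNReal.ofReal_lt_top)]
  refine integral_congr_ae (Eventually.of_forall fun σ => ?_)
  simp only [smul_eq_mul, ENNReal.toReal_ofReal']

theorem Nm_le (H : Hyp d γ s b C Ca) {ε : ℝ} (hε : 0 < ε) :
    ∃ M : ℝ, 0 ≤ M ∧ ∀ m : Vec d, Nm γ b ε m univ ≤ ENNReal.ofReal M := by
  have hC0 := H.bd.1
  have hp : 0 ≤ ε ^ (-(((d : ℝ) - 1) / 2 + s)) := Real.rpow_nonneg hε.le _
  have hq : 0 ≤ (1 / 2 : ℝ) ^ (-2 - γ) := Real.rpow_nonneg (by norm_num) _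
  set M0 : ℝ := 2 ^ (d - 1) * (1 / 2 : ℝ) ^ (-2 - γ) *
    (2 * (C * ε ^ (-(((d : ℝ) - 1) / 2 + s)))) with hM0
  have hM00 : 0 ≤ M0 := by rw [hM0]; positivity
  refine ⟨M0 * (surf d univ).toReal, by positivity, fun m => ?_⟩
  have e := lint_Nm H.bm γ ε m (φ := fun _ => 1) measurable_const
  rw [lintegral_one] at e
  rw [e]
  calc ∫⁻ σ in {σ : Vec d | 0 < dot m σ},
      ENNReal.ofReal (Kn d γ (bt b ε) (co m σ)) * 1 ∂(surf d)
      ≤ ∫⁻ _σ in {σ : Vec d | 0 < dot m σ}, ENNReal.ofReal M0 ∂(surf d) := by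
        refine lintegral_mono_ae ?_
        filter_upwards [ae_restrict_of_ae surf_ae, ae_restrict_mem (measurableSet_half m)]
          with σ hσ hs
        rw [mul_one]
        exact ENNReal.ofReal_le_ofReal (NmA_K_le H hε (co_pos hs) (co_le_one hσ))
    _ = ENNReal.ofReal M0 * surf d {σ : Vec d | 0 < dot m σ} := by
        rw [setLIntegral_const]
    _ ≤ ENNReal.ofReal M0 * surf d univ := by
        gcongr
        exact subset_univ _
    _ = ENNReal.ofReal (M0 * (surf d univ).toReal) := by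
        rw [ENNReal.ofReal_mul hM00, ENNReal.ofReal_toReal (measure_ne_top _ _)]

theorem Nm_ae (H : Hyp d γ s b C Ca) (ε : ℝ) (m : Vec d) :
    ∀ᵐ h ∂(Nm γ b ε m), dot m h = 0 ∧ len h ≤ len m := by
  have k := (NmA_Ks (d := d) H.bm γ ε m).ennreal_ofReal
  have hset : MeasurableSet {h : Vec d | dot m h = 0 ∧ len h ≤ len m} :=
    ((isClosed_eq (dot_cont m) continuous_const).inter
      (isClosed_le continuous_len continuous_const)).measurableSet
  unfold Nm
  rw [ae_map_iff (meas_hm m).aemeasurable hset, ae_withDensity_iff k]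
  filter_upwards [ae_restrict_of_ae surf_ae, ae_restrict_mem (measurableSet_half m)] with σ hσ hs hne
  have hs' : 0 < dot m σ := hs
  refine ⟨by rw [dot_comm]; exact dot_hh hs', ?_⟩
  have hK : 0 < Kn d γ (bt b ε) (co m σ) := by
    by_contra hcon
    exact hne (ENNReal.ofReal_eq_zero.2 (not_lt.1 hcon))
  have hc := co_pos hs'
  have h2 : 0 ≤ 2 * co m σ ^ 2 - 1 := by
    by_contra hcon
    unfold Kn at hK
    rw [bt_neg (not_le.1 hcon), mul_zero] at hK
    exact lt_irrefl _ hK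
  have h3 : nsq (hh σ m) ≤ nsq m := by
    rw [nsq_hh hσ hs']
    have hc2 : 0 < co m σ ^ 2 := by positivity
    have h4 : (1 - co m σ ^ 2) / co m σ ^ 2 ≤ 1 := by
      rw [div_le_one hc2]
      linarith
    have hn := sq_nonneg' m
    calc nsq m * ((1 - co m σ ^ 2) / co m σ ^ 2) ≤ nsq m * 1 :=
          mul_le_mul_of_nonneg_left h4 hn
      _ = nsq m := mul_one _
  exact Real.sqrt_le_sqrt h3

theorem meas_Nm (hb : Measurable b) (γ ε : ℝ) {Ψ : Vec d × Vec d → ℝ} (hΨ : Measurable Ψ) :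
    Measurable fun m => ∫ h, Ψ (m, h) ∂(Nm γ b ε m) := by
  have hK : Measurable fun q : Vec d × Vec d => max (Kn d γ (bt b ε) (co q.1 q.2)) 0 :=
    (NmA_Kp hb γ ε).max measurable_const
  have hP : Measurable fun q : Vec d × Vec d => Ψ (q.1, hh q.2 q.1) :=
    hΨ.comp (measurable_fst.prodMk measurable_hh)
  have hR : Measurable (indicator {q : Vec d × Vec d | 0 < dot q.1 q.2}
      (fun q : Vec d × Vec d => max (Kn d γ (bt b ε) (co q.1 q.2)) 0 * Ψ (q.1, hh q.2 q.1))) :=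
    (hK.mul hP).indicator NmA_S
  have h1 : (fun m => ∫ h, Ψ (m, h) ∂(Nm γ b ε m)) = fun m => ∫ σ,
      indicator {q : Vec d × Vec d | 0 < dot q.1 q.2}
      (fun q : Vec d × Vec d => max (Kn d γ (bt b ε) (co q.1 q.2)) 0 * Ψ (q.1, hh q.2 q.1))
        (m, σ) ∂(surf d) := by
    funext m
    rw [int_Nm hb γ ε m (φ := fun h => Ψ (m, h))
      (hΨ.comp (measurable_const.prodMk measurable_id)),
      ← integral_indicator (measurableSet_half m)]
    refine integral_congr_ae (Eventually.of_forall fun σ => ?_)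
    by_cases h : 0 < dot m σ
    · simp only
      rw [indicator_of_mem (show σ ∈ {σ : Vec d | 0 < dot m σ} from h),
        indicator_of_mem (show (m, σ) ∈ {q : Vec d × Vec d | 0 < dot q.1 q.2} from h)]
    · simp only
      rw [indicator_of_notMem (show σ ∉ {σ : Vec d | 0 < dot m σ} from h),
        indicator_of_notMem (show (m, σ) ∉ {q : Vec d × Vec d | 0 < dot q.1 q.2} from h)]
  rw [h1]
  exact (hR.stronglyMeasurable.integral_prod_right').measurable

lemma qf_eq {m σ : Vec d} (hσ : nsq σ = 1) (h : 0 < dot m σ) :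
    qf d γ m (hh σ m) = co m σ ^ ((d : ℝ) + γ) := by
  have hc := co_pos h
  have hm : 0 < nsq m := sq_pos_of_ne (ne_zero_of_dot h)
  have hc2 : 0 < co m σ ^ 2 := by positivity
  have h1 : nsq m / (nsq m + nsq (hh σ m)) = co m σ ^ 2 := by
    rw [nsq_hh hσ h]
    have h2 : nsq m + nsq m * ((1 - co m σ ^ 2) / co m σ ^ 2) = nsq m / co m σ ^ 2 := by
      field_simp
      ring
    rw [h2, div_div_eq_mul_div, mul_comm, mul_div_assoc, div_self hm.ne', mul_one]
  unfold qf
  rw [h1, ← Real.rpow_natCast, ← Real.rpow_mul hc.le]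
  congr 1
  push_cast
  ring

lemma meas_qf (γ : ℝ) : Measurable fun z : Vec d × Vec d => qf d γ z.1 z.2 := by
  have h1 : Measurable fun z : Vec d × Vec d => nsq z.1 :=
    (continuous_sq.comp continuous_fst).measurable
  have h2 : Measurable fun z : Vec d × Vec d => nsq z.2 :=
    (continuous_sq.comp continuous_snd).measurable
  unfold qf
  exact (h1.div (h1.add h2)).pow_const _

lemma qf_01 (h0 : 0 ≤ γ) (m h : Vec d) : 0 ≤ qf d γ m h ∧ qf d γ m h ≤ 1 := by
  have h1 := sq_nonneg' m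
  have h2 := sq_nonneg' h
  have h3 : 0 ≤ nsq m / (nsq m + nsq h) := div_nonneg h1 (add_nonneg h1 h2)
  have h4 : nsq m / (nsq m + nsq h) ≤ 1 := div_le_one_of_le₀ (by linarith) (add_nonneg h1 h2)
  unfold qf
  exact ⟨Real.rpow_nonneg h3 _, Real.rpow_le_one h3 h4 (by positivity)⟩

end Pool.Agent.H15.HF
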