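import Pool.Agent.H15.HF.Coe
import Pool.Agent.H15.HF.Sg
import Pool.Agent.H82.HF.Lay0

/-!
# Module SgF: the damping rate has the properties `SgH`

From `sg_int` (`up`), `sg_low` (`low`), `sg_hol`, `sg_kap`, `sg_nonneg`, all with `ε = 0`; `HR α q M F` gives `|F| ≤ M Wp q` and continuity (Hoelder, `α > 0`).
-/

set_option autoImplicit false

open MeasureTheory Set Filter Topology Pool.Agent.H25.Kin Pool.Agent.H48.PL Pool.Agent.H48.PD
open Pool.Agent.H82.BK Pool.Agent.H82.CM Pool.Agent.H48.PR Pool.Agent.H82.HF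
open scoped ENNReal

namespace Pool.Agent.H15.HF

variable {d : ℕ} {γ s C Ca cb : ℝ} {b : ℝ → ℝ}

private lemma SgF_cont {α : ℝ} (hα : 0 < α) {q : ℕ} {M : ℝ} {a : Vec d → ℝ} (h : HR α q M a) :
    Continuous a := by
  rw [continuous_iff_continuousAt]
  intro v
  unfold ContinuousAt
  rw [tendsto_iff_norm_sub_tendsto_zero]
  have hc : Continuous (fun w : Vec d => 2 * M * min 1 (len (w - v)) ^ α) := by
    have h1 : Continuous (fun w : Vec d => len (w - v)) :=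
      (continuous_sq.sqrt).comp (continuous_id.sub continuous_const)
    exact continuous_const.mul ((continuous_const.min h1).rpow_const fun _ => Or.inr hα.le)
  have h2 := hc.tendsto v
  have h3 : 2 * M * min 1 (len (v - v)) ^ α = 0 := by
    rw [sub_self, len_zero, min_eq_right zero_le_one, Real.zero_rpow hα.ne', mul_zero]
  rw [h3] at h2
  refine squeeze_zero (fun w => norm_nonneg _) (fun w => ?_) h2
  have h4 : |a (v + (w - v)) - a v| ≤ 2 * M * min 1 (len (w - v)) ^ α := by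
    refine (h.hol v (w - v)).trans ?_
    have e1 : 0 ≤ min 1 (len (w - v)) ^ α :=
      Real.rpow_nonneg (le_min zero_le_one (len_nonneg _)) α
    have e0 := h.nn
    have e2 := Wp_le_one q v
    have e3 := Wp_le_one q (v + (w - v))
    calc M * min 1 (len (w - v)) ^ α * (Wp q v + Wp q (v + (w - v)))
        ≤ M * min 1 (len (w - v)) ^ α * 2 :=
          mul_le_mul_of_nonneg_left (by linarith) (mul_nonneg e0 e1)
      _ = _ := by ring
  rw [add_sub_cancel] at h4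
  exact h4

theorem sg_H (HL : HypL d γ s b C Ca cb) (h0 : 0 ≤ γ) (hs : 2 * s < 1) {α : ℝ} (h1 : 0 < α)
    {q : ℕ} (hq : d + 10 ≤ q) (M : ℝ) {r₀ m₀ : ℝ} (hr : 0 < r₀) (hm : 0 < m₀) :
    ∃ K c κ₀ : ℝ, ∀ (F : Vec d → ℝ) (v₀ : Vec d), HR α q M F → (∀ u, 0 ≤ F u) →
      (∀ u, len (u - v₀) ≤ r₀ → m₀ ≤ F u) →
      SgH s α K c κ₀ (fun κ v => sgE γ b 0 F κ v) := by
  obtain ⟨K₁, hK₁, H₁⟩ := sg_int HL.H h0 hs hq
  obtain ⟨K₂, hK₂, H₂⟩ := sg_hol HL.H h0 hs hq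
  obtain ⟨K₃, hK₃, H₃⟩ := sg_kap HL.H h0 hs hq
  obtain ⟨c, hc, N, H₄⟩ := sg_low HL h0 hs hq hr hm
  refine ⟨(K₁ + K₂ + K₃) * max M 0, c, max N 0, fun F v₀ hF hF0 hb => ?_⟩
  have hM : 0 ≤ M := hF.nn
  rw [max_eq_left hM]
  have hFc : Continuous F := SgF_cont h1 hF
  have hFm : Measurable F := hFc.measurable
  have hrp : ∀ κ : Vec d, 0 ≤ len κ ^ (2 * s) := fun κ => Real.rpow_nonneg (len_nonneg κ) _
  have hn : ∀ v : Vec d, 0 ≤ nsq v := sq_nonneg'
  have hKM₁ : 0 ≤ K₁ * M := mul_nonneg hK₁ hM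
  have hKM₂ : 0 ≤ K₂ * M := mul_nonneg hK₂ hM
  have hKM₃ : 0 ≤ K₃ * M := mul_nonneg hK₃ hM
  have hle₁ : K₁ * M ≤ (K₁ + K₂ + K₃) * M := by nlinarith
  have hle₂ : K₂ * M ≤ (K₁ + K₂ + K₃) * M := by nlinarith
  have hle₃ : K₃ * M ≤ (K₁ + K₂ + K₃) * M := by nlinarith
  refine ⟨by nlinarith, hc, le_max_right _ _, fun κ v => sg_nonneg γ b 0 hF0 κ v,
    fun κ v => ?_, fun κ v hκ => ?_, fun κ v h => ?_, fun κ κ' v => ?_⟩
  · calc sgE γ b 0 F κ v ≤ |sgE γ b 0 F κ v| := le_abs_self _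
      _ ≤ K₁ * M * len κ ^ (2 * s) * (1 + nsq v) := (H₁ 0 le_rfl F M hFm hM hF.le κ v).2
      _ = K₁ * M * ((1 + nsq v) * len κ ^ (2 * s)) := by ring
      _ ≤ (K₁ + K₂ + K₃) * M * ((1 + nsq v) * len κ ^ (2 * s)) :=
          mul_le_mul_of_nonneg_right hle₁ (mul_nonneg (by linarith [hn v]) (hrp κ))
      _ = _ := by ring
  · exact H₄ F M v₀ hFc hF0 (fun u => (le_abs_self _).trans (hF.le u)) hb κ v
      ((le_max_left _ _).trans hκ)
  · calc |sgE γ b 0 F κ (v + h) - sgE γ b 0 F κ v|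
        ≤ K₂ * M * min 1 (len h) ^ α * len κ ^ (2 * s) * (1 + nsq v + nsq (v + h)) :=
          H₂ 0 le_rfl α M F h1 hF κ v h
      _ = K₂ * M * (min 1 (len h) ^ α * (1 + nsq v + nsq (v + h)) * len κ ^ (2 * s)) := by ring
      _ ≤ (K₁ + K₂ + K₃) * M *
            (min 1 (len h) ^ α * (1 + nsq v + nsq (v + h)) * len κ ^ (2 * s)) :=
          mul_le_mul_of_nonneg_right hle₂ (mul_nonneg (mul_nonneg
            (Real.rpow_nonneg (le_min zero_le_one (len_nonneg h)) α)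
            (by linarith [hn v, hn (v + h)])) (hrp κ))
      _ = _ := by ring
  · calc |sgE γ b 0 F κ v - sgE γ b 0 F κ' v|
        ≤ K₃ * M * len (κ - κ') ^ (2 * s) * (1 + nsq v) :=
          H₃ 0 le_rfl F M hFm hM hF.le κ κ' v
      _ = K₃ * M * ((1 + nsq v) * len (κ - κ') ^ (2 * s)) := by ring
      _ ≤ (K₁ + K₂ + K₃) * M * ((1 + nsq v) * len (κ - κ') ^ (2 * s)) :=
          mul_le_mul_of_nonneg_right hle₃ (mul_nonneg (by linarith [hn v]) (hrp _))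
      _ = _ := by ring

end Pool.Agent.H15.HF
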