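import Pool.Agent.H15.HF.NmA

/-!
# Module Sym: symmetries of `Nm`

`R = refl u`, `nsq u = 1`: linear, `dot (R x) (R y) = dot x y`, `nsq (R x) = nsq x`, `R (R x) = x`, so `hh (R σ) (R m) = R (hh σ m)`, `co (R m) (R σ) = co m σ`; `refl_preserving`: `surf d` is invariant. Hence `Nm_refl`. `Nm_neg`: `m ≠ 0`: `u = dir m`: `R m = m`, `hh (R σ) m = -hh σ m` (`hh_refl`), `dot_refl_dir`; `m = 0`: both sides `0`.
`Nm_negm`: `σ ↦ -σ` (`neg_preserving`): `hh (-σ) (-m) = -hh σ m`, `co (-m) (-σ) = co m σ`; then `Nm_neg`. `Nm_smul`: `hh σ (r•m) = r • hh σ m`, `co (r•m) σ = co m σ`, `dot (r•m) σ = r dot m σ`. All by `Measure.ext_of_lintegral` (or `ext` on sets) and `lint_Nm`, `lintegral_map`.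
-/

set_option autoImplicit false

open MeasureTheory Set Filter Topology Pool.Agent.H25.Kin Pool.Agent.H48.PL Pool.Agent.H48.PD
open Pool.Agent.H82.BK Pool.Agent.H82.CM Pool.Agent.H48.PR Pool.Agent.H82.HF
open scoped ENNReal

namespace Pool.Agent.H15.HF

variable {d : ℕ} {γ s C Ca cb : ℝ} {b : ℝ → ℝ}

private lemma Sym_meas_Kn (d : ℕ) (γ : ℝ) {β : ℝ → ℝ} (hβ : Measurable β) :
    Measurable (Kn d γ β) := by
  unfold Kn
  exact ((measurable_const.mul (measurable_id.pow_const _))).mul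
    (hβ.comp (by fun_prop))

private lemma Sym_meas_co (m : Vec d) : Measurable fun σ : Vec d => co m σ := by
  have h1 : Measurable fun q : Vec d × Vec d => co q.1 q.2 := measurable_co
  have h : Measurable fun σ : Vec d => ((m, σ) : Vec d × Vec d) :=
    measurable_const.prodMk measurable_id
  exact h1.comp h

/-- change of variables -/
private lemma Sym_cv (hb : Measurable b) (γ ε : ℝ) {A : Vec d → Vec d}
    (hA : MeasurePreserving A (surf d) (surf d)) {m m' : Vec d} {B : Vec d → Vec d}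
    (hB : Measurable B) (h1 : ∀ σ, 0 < dot m' (A σ) ↔ 0 < dot m σ)
    (h2 : ∀ σ, co m' (A σ) = co m σ) (h3 : ∀ σ, 0 < dot m σ → hh (A σ) m' = B (hh σ m)) :
    Nm γ b ε m' = (Nm γ b ε m).map B := by
  refine Measure.ext_of_lintegral _ fun G hG => ?_
  have hGB : Measurable fun x => G (B x) := hG.comp hB
  rw [lintegral_map hG hB, lint_Nm hb γ ε m' hG, lint_Nm hb γ ε m hGB]
  have hmeas : Measurable fun σ : Vec d =>
      ENNReal.ofReal (Kn d γ (bt b ε) (co m' σ)) * G (hh σ m') :=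
    (((Sym_meas_Kn d γ (measurable_bt hb ε)).comp (Sym_meas_co m')).ennreal_ofReal).mul
      (hG.comp (meas_hm m'))
  have hpre : A ⁻¹' {σ : Vec d | 0 < dot m' σ} = {σ : Vec d | 0 < dot m σ} := by
    ext σ
    exact h1 σ
  rw [← hA.setLIntegral_comp_preimage (measurableSet_half m') hmeas, hpre]
  refine setLIntegral_congr_fun (measurableSet_half m) fun σ hσ => ?_
  have hσ' : 0 < dot m σ := hσ
  simp only [h2, h3 σ hσ']

private lemma Sym_dot {u : Vec d} (hu : nsq u = 1) (x y : Vec d) :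
    dot (refl u x) (refl u y) = dot x y := by
  rw [refl_apply u y, dot_sub, dot_smul, dot_comm _ u, dot_refl hu, dot_comm (refl u x) y,
    refl_apply u x, dot_sub, dot_smul, dot_comm y u, dot_comm y x]
  ring

theorem Nm_refl (hd : 1 ≤ d) (hb : Measurable b) (γ ε : ℝ) {u : Vec d} (hu : nsq u = 1) (m : Vec d) :
    Nm γ b ε (refl u m) = (Nm γ b ε m).map (refl u) := by
  have e0 : nsq (refl u m) = nsq m := nsq_refl hu m
  have e1 : len (refl u m) = len m := by
    unfold len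
    rw [e0]
  refine Sym_cv hb γ ε (A := fun σ => refl u σ) (refl_preserving hd hu)
    (refl_preserving hd hu).measurable (fun σ => ?_) (fun σ => ?_) (fun σ _ => ?_)
  · rw [Sym_dot hu]
  · unfold co
    rw [Sym_dot hu, e1]
  · unfold hh
    rw [Sym_dot hu, e0, map_sub, map_smul]

theorem Nm_neg (hd : 1 ≤ d) (hb : Measurable b) (γ ε : ℝ) (m : Vec d) :
    (Nm γ b ε m).map (fun h => -h) = Nm γ b ε m := by
  symm
  rcases eq_or_ne m 0 with rfl | hm
  · have h0 : ∀ σ : Vec d, dot (0 : Vec d) σ = 0 := fun σ => by simp [dot]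
    refine Sym_cv hb γ ε (A := fun σ => σ) (MeasurePreserving.id _) measurable_neg
      (fun σ => Iff.rfl) (fun σ => rfl) (fun σ h => ?_)
    rw [h0] at h
    exact absurd h (lt_irrefl _)
  · refine Sym_cv hb γ ε (A := fun σ => refl (dir m) σ) (refl_preserving hd (nsq_dir hm))
      measurable_neg (fun σ => ?_) (fun σ => ?_) (fun σ h => hh_refl h)
    · rw [dot_refl_dir hm]
    · unfold co
      rw [dot_refl_dir hm]

theorem Nm_negm (hd : 1 ≤ d) (hb : Measurable b) (γ ε : ℝ) (m : Vec d) :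
    Nm γ b ε (-m) = Nm γ b ε m := by
  have e0 : nsq (-m) = nsq m := sq_neg m
  have e2 : ∀ σ : Vec d, dot (-m) (-σ) = dot m σ := fun σ => by rw [dot_neg, neg_dot, neg_neg]
  have e3 : (Nm γ b ε m).map (fun h => -h) = Nm γ b ε m := Nm_neg hd hb γ ε m
  refine (Sym_cv hb γ ε (A := fun σ => -σ) (neg_preserving hd) measurable_neg
      (fun σ => ?_) (fun σ => ?_) (fun σ _ => ?_)).trans e3
  · rw [e2]
  · unfold co
    rw [e2, len_neg]
  · unfold hh
    rw [e2, e0, smul_neg]
    abel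

theorem Nm_smul (hb : Measurable b) (γ ε : ℝ) {r : ℝ} (hr : 0 < r) (m : Vec d) :
    Nm γ b ε (r • m) = (Nm γ b ε m).map (fun h => r • h) := by
  have e2 : ∀ σ : Vec d, dot (r • m) σ = r * dot m σ := fun σ => smul_dot r m σ
  refine Sym_cv hb γ ε (A := fun σ => σ) (MeasurePreserving.id _) (measurable_const_smul r)
    (fun σ => ?_) (fun σ => ?_) (fun σ h => ?_)
  · rw [e2]
    exact mul_pos_iff_of_pos_left hr
  · unfold co
    rw [e2, len_smul hr.le, mul_div_mul_left _ _ hr.ne']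
  · unfold hh
    rw [e2, nsq_smul, smul_sub, smul_smul]
    congr 2
    field_simp

/-- odd functions have integral `0` -/
theorem int_odd (hd : 1 ≤ d) (hb : Measurable b) (γ ε : ℝ) (m : Vec d) {φ : Vec d → ℝ}
    (hφ : Measurable φ) (ho : ∀ h, φ (-h) = -φ h) : ∫ h, φ h ∂(Nm γ b ε m) = 0 := by
  have h1 : ∫ h, φ h ∂(Nm γ b ε m) = ∫ h, φ (-h) ∂(Nm γ b ε m) := by
    conv_lhs => rw [← Nm_neg hd hb γ ε m]
    rw [integral_map measurable_neg.aemeasurable hφ.aestronglyMeasurable]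
  have h2 : ∫ h, φ (-h) ∂(Nm γ b ε m) = -∫ h, φ h ∂(Nm γ b ε m) := by
    rw [← integral_neg]
    exact integral_congr_ae (Eventually.of_forall fun h => ho h)
  linarith

end Pool.Agent.H15.HF
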