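import Pool.Agent.H15.HF.NmA
import Pool.Agent.H48.PR.AngK

/-!
# Module Upp: upper bounds for `Nm`, uniform in the cut-off `ε ≥ 0`

As `ang_min`, `ang_one` (H48/PR/AngK) and `angMu` (H48/NE/AngN): copy their private lemmas; they hold for every `ε ≥ 0` (the bound of `Kn` for `0 < c < 1` does not use `ε > 0`; at `c = 1`, `h = 0` and all three integrands vanish, resp. `1 - qf = 0`).
`upp_mu`: on the support `c² ≥ 1/2`, `|h|² = |m|²(1-c²)/c² ≤ 4|m|²(1-c)`, `min 1 (μ|h|) ≤ min ((2μ|m|)²(1-c)) 1 ^ (1/2)`, `ang_scale` with `τ = 1/2 > s`, `ρ = 2 μ |m|`: `≤ A (2μ|m|)^(2s)` (keep `(len m)^(2s)`; for `m = 0` or `μ = 0` the left side is `0`).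
Bochner forms: `Integrable` from the finite `lintegral` of the bound; `|∫ φ| ≤ ∫ |φ| ≤` toReal.
-/

set_option autoImplicit false

open MeasureTheory Set Filter Topology Pool.Agent.H25.Kin Pool.Agent.H48.PL Pool.Agent.H48.PD
open Pool.Agent.H82.BK Pool.Agent.H82.CM Pool.Agent.H48.PR Pool.Agent.H82.HF
open scoped ENNReal

namespace Pool.Agent.H15.HF

variable {d : ℕ} {γ s C Ca cb : ℝ} {b : ℝ → ℝ}

private lemma Upp_kn (H : Hyp d γ s b C Ca) (ε : ℝ) {c : ℝ} (hc : 0 < c) (hc1 : c < 1) :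
    Kn d γ (bt b ε) c ≤
      2 ^ (d - 1) * 4 * (2 * C) * (1 - c) ^ (-(((d : ℝ) - 1) / 2 + s)) := by
  have hC0 : 0 ≤ C := H.bd.1
  have hβ := H.β0
  have hp : 0 ≤ (1 - c) ^ (-(((d : ℝ) - 1) / 2 + s)) := Real.rpow_nonneg (by linarith) _
  unfold Kn
  rcases lt_or_ge (2 * c ^ 2 - 1) 0 with hx | hx
  · rw [bt_neg hx, mul_zero]
    positivity
  · have h1 := bt_le (ε := ε) H.bd hβ hx (by nlinarith)
    have h2 : (1 - (2 * c ^ 2 - 1)) ^ (-(((d : ℝ) - 1) / 2 + s)) ≤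
        (1 - c) ^ (-(((d : ℝ) - 1) / 2 + s)) :=
      Real.rpow_le_rpow_of_nonpos (by linarith) (by nlinarith) (by linarith)
    have h3 : c ^ (-2 - γ) ≤ 4 := by
      have hg := H.g2
      have e1 : c ^ (-2 - γ) ≤ c ^ (-4 : ℝ) :=
        Real.rpow_le_rpow_of_exponent_ge hc hc1.le (by linarith)
      have e2 : c ^ (-4 : ℝ) = (c ^ 4)⁻¹ := by
        rw [Real.rpow_neg hc.le, show (4 : ℝ) = ((4 : ℕ) : ℝ) by norm_num, Real.rpow_natCast]
      rw [e2] at e1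
      refine e1.trans ?_
      have hc2 : 1 / 2 ≤ c ^ 2 := by linarith
      have hc4 : 1 / 4 ≤ c ^ 4 := by nlinarith
      calc (c ^ 4)⁻¹ ≤ (1 / 4 : ℝ)⁻¹ := inv_anti₀ (by norm_num) hc4
        _ = 4 := by norm_num
    have h4 : 0 ≤ c ^ (-2 - γ) := Real.rpow_nonneg hc.le _
    have h5 : bt b ε (2 * c ^ 2 - 1) ≤ 2 * C * (1 - c) ^ (-(((d : ℝ) - 1) / 2 + s)) :=
      h1.trans (mul_le_mul_of_nonneg_left h2 (by positivity))
    calc 2 ^ (d - 1) * c ^ (-2 - γ) * bt b ε (2 * c ^ 2 - 1)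
        ≤ 2 ^ (d - 1) * c ^ (-2 - γ) * (2 * C * (1 - c) ^ (-(((d : ℝ) - 1) / 2 + s))) :=
          mul_le_mul_of_nonneg_left h5 (by positivity)
      _ ≤ 2 ^ (d - 1) * 4 * (2 * C * (1 - c) ^ (-(((d : ℝ) - 1) / 2 + s))) :=
          mul_le_mul_of_nonneg_right (mul_le_mul_of_nonneg_left h3 (by positivity))
            (by positivity)
      _ = _ := by ring

private lemma Upp_kn_zero {ε c : ℝ} (h : 2 * c ^ 2 - 1 < 0) : Kn d γ (bt b ε) c = 0 := by
  unfold Kn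
  rw [bt_neg h, mul_zero]

/-- the majorant -/
private noncomputable def Upp_G (s τ ρ : ℝ) (m : Vec d) (σ : Vec d) : ℝ :=
  (1 - dot (dir m) σ) ^ (-(((d : ℝ) - 1) / 2 + s)) *
    min (ρ ^ 2 * (1 - dot (dir m) σ)) 1 ^ τ

private lemma Upp_G_meas (s τ ρ : ℝ) (m : Vec d) :
    Measurable fun σ : Vec d => ENNReal.ofReal (Upp_G s τ ρ m σ) := by
  have h0 : Measurable fun σ : Vec d => 1 - dot (dir m) σ :=
    (continuous_const.sub (dot_cont _)).measurable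
  exact ((h0.pow_const _).mul
    (((measurable_const.mul h0).min measurable_const).pow_const _)).ennreal_ofReal

private lemma Upp_lint (H : Hyp d γ s b C Ca) {ε : ℝ} {m : Vec d} {F : Vec d → ℝ}
    (hF : Measurable F) (hF0 : ∀ h, 0 ≤ F h) {M A ρ τ : ℝ} (hM : 0 ≤ M)
    (hA : ∫⁻ σ, ENNReal.ofReal (Upp_G s τ ρ m σ) ∂(surf d) ≤ ENNReal.ofReal (A * ρ ^ (2 * s)))
    (hpt : ∀ σ, nsq σ = 1 → 0 < dot m σ →
      Kn d γ (bt b ε) (co m σ) * F (hh σ m) ≤ M * Upp_G s τ ρ m σ) :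
    ∫⁻ h, ENNReal.ofReal (F h) ∂(Nm γ b ε m) ≤ ENNReal.ofReal (M * (A * ρ ^ (2 * s))) := by
  rw [lint_Nm H.bm γ ε m hF.ennreal_ofReal]
  calc ∫⁻ σ in {σ : Vec d | 0 < dot m σ},
        ENNReal.ofReal (Kn d γ (bt b ε) (co m σ)) * ENNReal.ofReal (F (hh σ m)) ∂(surf d)
      ≤ ∫⁻ σ in {σ : Vec d | 0 < dot m σ}, ENNReal.ofReal M *
          ENNReal.ofReal (Upp_G s τ ρ m σ) ∂(surf d) := by
        refine lintegral_mono_ae ?_
        filter_upwards [ae_restrict_of_ae surf_ae, ae_restrict_mem (measurableSet_half m)]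
          with σ hσ hd
        rw [← ENNReal.ofReal_mul hM, ← ENNReal.ofReal_mul' (hF0 _)]
        exact ENNReal.ofReal_le_ofReal (hpt σ hσ hd)
    _ ≤ ∫⁻ σ, ENNReal.ofReal M * ENNReal.ofReal (Upp_G s τ ρ m σ) ∂(surf d) :=
        setLIntegral_le_lintegral _ _
    _ ≤ ENNReal.ofReal M * ENNReal.ofReal (A * ρ ^ (2 * s)) := by
        rw [lintegral_const_mul _ (Upp_G_meas s τ ρ m)]
        exact mul_le_mul_right hA _
    _ = _ := by rw [← ENNReal.ofReal_mul hM]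

private lemma Upp_fin {μ : Measure (Vec d)} {φ F : Vec d → ℝ} (hφ : Measurable φ)
    (hF : Measurable F) (hF0 : ∀ h, 0 ≤ F h) (hle : ∀ h, |φ h| ≤ F h) {B : ℝ} (hB : 0 ≤ B)
    (hl : ∫⁻ h, ENNReal.ofReal (F h) ∂μ ≤ ENNReal.ofReal B) :
    Integrable φ μ ∧ |∫ h, φ h ∂μ| ≤ B := by
  have hFi : Integrable F μ := by
    refine ⟨hF.aestronglyMeasurable, ?_⟩
    rw [hasFiniteIntegral_iff_ofReal (Filter.Eventually.of_forall hF0)]
    exact lt_of_le_of_lt hl ENNReal.ofReal_lt_top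
  have hφi : Integrable φ μ := hFi.mono' hφ.aestronglyMeasurable (ae_of_all _ fun h => by
    rw [Real.norm_eq_abs]
    exact hle h)
  refine ⟨hφi, ?_⟩
  calc |∫ h, φ h ∂μ| ≤ ∫ h, |φ h| ∂μ := abs_integral_le_integral_abs
    _ ≤ ∫ h, F h ∂μ := integral_mono hφi.abs hFi hle
    _ = (∫⁻ h, ENNReal.ofReal (F h) ∂μ).toReal :=
      integral_eq_lintegral_of_nonneg_ae (ae_of_all _ hF0) hF.aestronglyMeasurable
    _ ≤ B := ENNReal.toReal_le_of_le_ofReal hB hl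

private lemma Upp_zero (γ : ℝ) (b : ℝ → ℝ) (ε : ℝ) : Nm γ b ε (0 : Vec d) = 0 := by
  have h1 : {σ : Vec d | 0 < dot (0 : Vec d) σ} = ∅ := by
    ext σ
    simp [dot]
  unfold Nm
  rw [h1, Measure.restrict_empty, withDensity_zero_left, Measure.map_zero]

private lemma Upp_pt (H : Hyp d γ s b C Ca) (ε : ℝ) {μ : ℝ} (hμ : 0 ≤ μ) {m σ : Vec d}
    (hσ : nsq σ = 1) (hd : 0 < dot m σ) :
    Kn d γ (bt b ε) (co m σ) * min 1 (μ * len (hh σ m)) ≤
      2 ^ (d - 1) * 4 * (2 * C) * Upp_G s (1 / 2) (2 * μ * len m) m σ := by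
  unfold Upp_G
  have hC0 : 0 ≤ C := H.bd.1
  have hc := co_pos hd
  have hc1 := co_le_one (m := m) hσ
  have hn := nsq_hh hσ hd
  rw [← co_eq]
  set c := co m σ with hcdef
  have hy : 0 ≤ 1 - c := by linarith
  have hR : 0 ≤ min ((2 * μ * len m) ^ 2 * (1 - c)) 1 := le_min (by positivity) zero_le_one
  have hRHS : 0 ≤ 2 ^ (d - 1) * 4 * (2 * C) * ((1 - c) ^ (-(((d : ℝ) - 1) / 2 + s)) *
        min ((2 * μ * len m) ^ 2 * (1 - c)) 1 ^ (1 / 2 : ℝ)) := by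
    have h1 : 0 ≤ (1 - c) ^ (-(((d : ℝ) - 1) / 2 + s)) := Real.rpow_nonneg hy _
    have h2 := Real.rpow_nonneg hR (1 / 2)
    positivity
  rcases hc1.eq_or_lt with h1 | h1
  · have h2 : nsq (hh σ m) = 0 := by
      rw [hn, h1]
      norm_num
    have h3 : len (hh σ m) = 0 := by
      unfold len
      rw [h2, Real.sqrt_zero]
    rw [h3, mul_zero, min_eq_right zero_le_one, mul_zero]
    exact hRHS
  rcases lt_or_ge (2 * c ^ 2 - 1) 0 with hx | hx
  · rw [Upp_kn_zero hx, zero_mul]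
    exact hRHS
  have hk := Upp_kn H ε hc h1
  have hc2 : 0 < c ^ 2 := by positivity
  have hm0 : 0 ≤ nsq m := sq_nonneg' m
  have h4 : μ ^ 2 * nsq (hh σ m) ≤ (2 * μ * len m) ^ 2 * (1 - c) := by
    rw [hn, mul_pow, mul_pow, len_sq]
    have h5 : (1 - c ^ 2) / c ^ 2 ≤ 4 * (1 - c) := by
      rw [div_le_iff₀ hc2]
      nlinarith
    have h6 : nsq m * ((1 - c ^ 2) / c ^ 2) ≤ nsq m * (4 * (1 - c)) :=
      mul_le_mul_of_nonneg_left h5 hm0
    have h7 := mul_le_mul_of_nonneg_left h6 (sq_nonneg μ)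
    linarith
  have h7 : 0 ≤ min 1 (μ * len (hh σ m)) :=
    le_min zero_le_one (mul_nonneg hμ (len_nonneg _))
  have h6 : min 1 (μ * len (hh σ m)) ≤ min ((2 * μ * len m) ^ 2 * (1 - c)) 1 ^ (1 / 2 : ℝ) := by
    rw [← Real.sqrt_eq_rpow]
    refine Real.le_sqrt_of_sq_le (le_min ?_ ?_)
    · refine le_trans ?_ h4
      rw [← len_sq (hh σ m), ← mul_pow]
      exact pow_le_pow_left₀ h7 (min_le_right _ _) 2
    · exact pow_le_one₀ h7 (min_le_left _ _)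
  have h10 : 0 ≤ 2 ^ (d - 1) * 4 * (2 * C) * (1 - c) ^ (-(((d : ℝ) - 1) / 2 + s)) := by
    have h1 : 0 ≤ (1 - c) ^ (-(((d : ℝ) - 1) / 2 + s)) := Real.rpow_nonneg hy _
    positivity
  calc Kn d γ (bt b ε) c * min 1 (μ * len (hh σ m))
      ≤ (2 ^ (d - 1) * 4 * (2 * C) * (1 - c) ^ (-(((d : ℝ) - 1) / 2 + s))) *
        min ((2 * μ * len m) ^ 2 * (1 - c)) 1 ^ (1 / 2 : ℝ) :=
        (mul_le_mul_of_nonneg_right hk h7).trans (mul_le_mul_of_nonneg_left h6 h10)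
    _ = _ := by ring

private lemma Upp_pt2 (H : Hyp d γ s b C Ca) {α : ℝ} (hα : 0 < α) (ε : ℝ) {m σ : Vec d}
    (hσ : nsq σ = 1) (hd : 0 < dot m σ) :
    Kn d γ (bt b ε) (co m σ) * min 1 (len (hh σ m)) ^ α ≤
      2 ^ (d - 1) * 4 * (2 * C) * Upp_G s (α / 2) (2 * len m) m σ := by
  unfold Upp_G
  have hC0 : 0 ≤ C := H.bd.1
  have hc := co_pos hd
  have hc1 := co_le_one (m := m) hσ
  have hn := nsq_hh hσ hd
  rw [← co_eq]
  set c := co m σ with hcdef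
  have hy : 0 ≤ 1 - c := by linarith
  have hR : 0 ≤ min ((2 * len m) ^ 2 * (1 - c)) 1 := le_min (by positivity) zero_le_one
  have hRHS : 0 ≤ 2 ^ (d - 1) * 4 * (2 * C) * ((1 - c) ^ (-(((d : ℝ) - 1) / 2 + s)) *
        min ((2 * len m) ^ 2 * (1 - c)) 1 ^ (α / 2)) := by
    have h1 : 0 ≤ (1 - c) ^ (-(((d : ℝ) - 1) / 2 + s)) := Real.rpow_nonneg hy _
    have h2 := Real.rpow_nonneg hR (α / 2)
    positivity
  rcases hc1.eq_or_lt with h1 | h1
  · have h2 : nsq (hh σ m) = 0 := by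
      rw [hn, h1]
      norm_num
    have h3 : len (hh σ m) = 0 := by
      unfold len
      rw [h2, Real.sqrt_zero]
    rw [h3, min_eq_right zero_le_one, Real.zero_rpow hα.ne', mul_zero]
    exact hRHS
  rcases lt_or_ge (2 * c ^ 2 - 1) 0 with hx | hx
  · rw [Upp_kn_zero hx, zero_mul]
    exact hRHS
  have hk := Upp_kn H ε hc h1
  have hc2 : 0 < c ^ 2 := by positivity
  have hm0 : 0 ≤ nsq m := sq_nonneg' m
  have h4 : nsq (hh σ m) ≤ (2 * len m) ^ 2 * (1 - c) := by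
    rw [hn, mul_pow, len_sq]
    have h5 : (1 - c ^ 2) / c ^ 2 ≤ 4 * (1 - c) := by
      rw [div_le_iff₀ hc2]
      nlinarith
    nlinarith [mul_le_mul_of_nonneg_left h5 hm0]
  have h6 : min 1 (len (hh σ m)) ^ α ≤ min ((2 * len m) ^ 2 * (1 - c)) 1 ^ (α / 2) := by
    have h7 : 0 ≤ min 1 (len (hh σ m)) := le_min zero_le_one (len_nonneg _)
    have h8 : min 1 (len (hh σ m)) ^ α = ((min 1 (len (hh σ m))) ^ 2) ^ (α / 2) := by
      rw [← Real.rpow_natCast, ← Real.rpow_mul h7]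
      congr 1
      push_cast
      ring
    rw [h8]
    refine Real.rpow_le_rpow (by positivity) (le_min ?_ ?_) (by positivity)
    · refine le_trans ?_ h4
      rw [← len_sq (hh σ m)]
      exact pow_le_pow_left₀ h7 (min_le_right _ _) 2
    · exact pow_le_one₀ h7 (min_le_left _ _)
  have h9 : 0 ≤ min 1 (len (hh σ m)) ^ α :=
    Real.rpow_nonneg (le_min zero_le_one (len_nonneg _)) _
  have h10 : 0 ≤ 2 ^ (d - 1) * 4 * (2 * C) * (1 - c) ^ (-(((d : ℝ) - 1) / 2 + s)) := by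
    have h1 : 0 ≤ (1 - c) ^ (-(((d : ℝ) - 1) / 2 + s)) := Real.rpow_nonneg hy _
    positivity
  calc Kn d γ (bt b ε) c * min 1 (len (hh σ m)) ^ α
      ≤ (2 ^ (d - 1) * 4 * (2 * C) * (1 - c) ^ (-(((d : ℝ) - 1) / 2 + s))) *
        min ((2 * len m) ^ 2 * (1 - c)) 1 ^ (α / 2) :=
        (mul_le_mul_of_nonneg_right hk h9).trans (mul_le_mul_of_nonneg_left h6 h10)
    _ = _ := by ring

private lemma Upp_pt1 (H : Hyp d γ s b C Ca) (h0 : 0 ≤ γ) (ε : ℝ) {m σ : Vec d}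
    (hσ : nsq σ = 1) (hd : 0 < dot m σ) :
    Kn d γ (bt b ε) (co m σ) * |1 - qf d γ m (hh σ m)| ≤
      2 ^ (d - 1) * 4 * (2 * C) * ((d : ℝ) + γ) * Upp_G s 1 1 m σ := by
  unfold Upp_G
  rw [qf_eq hσ hd]
  have hC0 : 0 ≤ C := H.bd.1
  have hc := co_pos hd
  have hc1 := co_le_one (m := m) hσ
  have hdd : (2 : ℝ) ≤ d := by exact_mod_cast H.hd
  rw [← co_eq]
  set c := co m σ with hcdef
  have hy : 0 ≤ 1 - c := by linarith
  have e1 : min (1 ^ 2 * (1 - c)) 1 ^ (1 : ℝ) = 1 - c := by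
    rw [Real.rpow_one, one_pow, one_mul, min_eq_left (by linarith)]
  rw [e1]
  have hβ0 : 0 ≤ (1 - c) ^ (-(((d : ℝ) - 1) / 2 + s)) := Real.rpow_nonneg hy _
  rcases hc1.eq_or_lt with h1 | h1
  · rw [h1, Real.one_rpow, sub_self, abs_zero, mul_zero, mul_zero, mul_zero]
  have hk := Upp_kn H ε hc h1
  have h2 : |1 - c ^ ((d : ℝ) + γ)| ≤ ((d : ℝ) + γ) * (1 - c) := by
    have h3 := one_add_mul_self_le_rpow_one_add (s := c - 1) (by linarith)
      (p := (d : ℝ) + γ) (by linarith)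
    have h4 : 1 + (c - 1) = c := by ring
    rw [h4] at h3
    have h5 : c ^ ((d : ℝ) + γ) ≤ 1 := Real.rpow_le_one hc.le hc1 (by linarith)
    rw [abs_of_nonneg (by linarith)]
    linarith
  have h10 : 0 ≤ 2 ^ (d - 1) * 4 * (2 * C) * (1 - c) ^ (-(((d : ℝ) - 1) / 2 + s)) := by
    positivity
  calc Kn d γ (bt b ε) c * |1 - c ^ ((d : ℝ) + γ)|
      ≤ (2 ^ (d - 1) * 4 * (2 * C) * (1 - c) ^ (-(((d : ℝ) - 1) / 2 + s))) *
        (((d : ℝ) + γ) * (1 - c)) :=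
        (mul_le_mul_of_nonneg_right hk (abs_nonneg _)).trans (mul_le_mul_of_nonneg_left h2 h10)
    _ = _ := by ring

private lemma Upp_mlen : Measurable fun h : Vec d => len h := by
  unfold len nsq
  fun_prop

theorem upp_mu (H : Hyp d γ s b C Ca) (hs : 2 * s < 1) : ∃ A : ℝ, 0 ≤ A ∧ ∀ ε : ℝ, 0 ≤ ε →
    ∀ (m : Vec d) (μ : ℝ), 0 ≤ μ → ∀ φ : Vec d → ℝ, Measurable φ →
      (∀ h, |φ h| ≤ min 1 (μ * len h)) →
      Integrable φ (Nm γ b ε m) ∧ |∫ h, φ h ∂(Nm γ b ε m)| ≤ A * (μ * len m) ^ (2 * s) := by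
  have hC0 : 0 ≤ C := H.bd.1
  have hs0 := H.hs
  obtain ⟨A, hA, h⟩ := ang_scale H (τ := 1 / 2) (by linarith) (by norm_num)
  refine ⟨2 ^ (d - 1) * 4 * (2 * C) * (A * 2), by positivity, fun ε hε m μ hμ φ hφ hle => ?_⟩
  have hB : 0 ≤ 2 ^ (d - 1) * 4 * (2 * C) * (A * 2) * (μ * len m) ^ (2 * s) := by
    have := Real.rpow_nonneg (mul_nonneg hμ (len_nonneg m)) (2 * s)
    positivity
  by_cases hm : m = 0
  · subst hm
    rw [Upp_zero]
    refine ⟨integrable_zero_measure, ?_⟩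
    rw [integral_zero_measure, abs_zero]
    exact hB
  rcases hμ.eq_or_lt with h0 | h0
  · subst h0
    have h1 : φ = fun _ => 0 := by
      funext x
      have h2 := hle x
      rw [zero_mul, min_eq_right zero_le_one] at h2
      exact abs_nonpos_iff.mp h2
    rw [h1]
    refine ⟨integrable_zero _ _ _, ?_⟩
    rw [integral_zero, abs_zero]
    exact hB
  have hl := len_pos hm
  have hF : Measurable fun h : Vec d => min 1 (μ * len h) :=
    measurable_const.min (measurable_const.mul Upp_mlen)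
  refine Upp_fin hφ hF (fun h => le_min zero_le_one (mul_nonneg hμ (len_nonneg _))) hle hB ?_
  refine (Upp_lint H (M := 2 ^ (d - 1) * 4 * (2 * C)) hF
    (fun h => le_min zero_le_one (mul_nonneg hμ (len_nonneg _))) (by positivity)
    (h (dir m) (nsq_dir hm) (2 * μ * len m) (by positivity))
    (fun σ hσ hd => Upp_pt H ε hμ hσ hd)).trans ?_
  refine ENNReal.ofReal_le_ofReal ?_
  have e1 : (2 * μ * len m) ^ (2 * s) ≤ 2 * (μ * len m) ^ (2 * s) := by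
    rw [mul_assoc, Real.mul_rpow (by norm_num) (by positivity)]
    have h2 : (2 : ℝ) ^ (2 * s) ≤ 2 := by
      have := Real.rpow_le_rpow_of_exponent_le one_le_two hs.le
      rwa [Real.rpow_one] at this
    exact mul_le_mul_of_nonneg_right h2 (Real.rpow_nonneg (by positivity) _)
  have e4 : 0 ≤ 2 ^ (d - 1) * 4 * (2 * C) * A := by positivity
  calc 2 ^ (d - 1) * 4 * (2 * C) * (A * (2 * μ * len m) ^ (2 * s))
      = 2 ^ (d - 1) * 4 * (2 * C) * A * (2 * μ * len m) ^ (2 * s) := by ring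
    _ ≤ 2 ^ (d - 1) * 4 * (2 * C) * A * (2 * (μ * len m) ^ (2 * s)) :=
        mul_le_mul_of_nonneg_left e1 e4
    _ = _ := by ring

theorem upp_al (H : Hyp d γ s b C Ca) {α : ℝ} (h1 : 2 * s < α) (h2 : α ≤ 1) : ∃ A : ℝ, 0 ≤ A ∧
    ∀ ε : ℝ, 0 ≤ ε → ∀ m : Vec d, ∀ φ : Vec d → ℝ, Measurable φ →
      (∀ h, |φ h| ≤ min 1 (len h) ^ α) →
      Integrable φ (Nm γ b ε m) ∧ |∫ h, φ h ∂(Nm γ b ε m)| ≤ A * (1 + nsq m) := by
  have hC0 : 0 ≤ C := H.bd.1
  have hs := H.hs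
  obtain ⟨A, hA, h⟩ := ang_scale H (τ := α / 2) (by linarith) (by linarith)
  refine ⟨2 ^ (d - 1) * 4 * (2 * C) * (A * 2), by positivity, fun ε hε m φ hφ hle => ?_⟩
  have hB : 0 ≤ 2 ^ (d - 1) * 4 * (2 * C) * (A * 2) * (1 + nsq m) := by
    have := sq_nonneg' m
    positivity
  by_cases hm : m = 0
  · rw [hm] at hB ⊢
    rw [Upp_zero]
    refine ⟨integrable_zero_measure, ?_⟩
    rw [integral_zero_measure, abs_zero]
    exact hB
  have hl := len_pos hm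
  have hF : Measurable fun h : Vec d => min 1 (len h) ^ α :=
    (measurable_const.min Upp_mlen).pow_const _
  have hF0 : ∀ h : Vec d, 0 ≤ min 1 (len h) ^ α := fun h =>
    Real.rpow_nonneg (le_min zero_le_one (len_nonneg _)) _
  refine Upp_fin hφ hF hF0 hle hB ?_
  refine (Upp_lint H (M := 2 ^ (d - 1) * 4 * (2 * C)) hF hF0 (by positivity)
    (h (dir m) (nsq_dir hm) (2 * len m) (by positivity))
    (fun σ hσ hd => Upp_pt2 H (by linarith) ε hσ hd)).trans ?_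
  refine ENNReal.ofReal_le_ofReal ?_
  have e1 : (2 * len m) ^ (2 * s) ≤ 2 * (1 + nsq m) := by
    have h2l : 0 < 2 * len m := by positivity
    have e2 : (2 * len m) ^ (2 * s) ≤ 1 + 2 * len m := by
      rcases le_total (2 * len m) 1 with h3 | h3
      · have := Real.rpow_le_one h2l.le h3 (by linarith : 0 ≤ 2 * s)
        linarith
      · have := Real.rpow_le_rpow_of_exponent_le h3 (by linarith : 2 * s ≤ 1)
        rw [Real.rpow_one] at this
        linarith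
    have e3 := len_sq m
    nlinarith [sq_nonneg (2 * len m - 1)]
  have e4 : 0 ≤ 2 ^ (d - 1) * 4 * (2 * C) * A := by positivity
  calc 2 ^ (d - 1) * 4 * (2 * C) * (A * (2 * len m) ^ (2 * s))
      = 2 ^ (d - 1) * 4 * (2 * C) * A * (2 * len m) ^ (2 * s) := by ring
    _ ≤ 2 ^ (d - 1) * 4 * (2 * C) * A * (2 * (1 + nsq m)) := mul_le_mul_of_nonneg_left e1 e4
    _ = _ := by ring

theorem upp_q (H : Hyp d γ s b C Ca) (h0 : 0 ≤ γ) : ∃ A : ℝ, 0 ≤ A ∧ ∀ ε : ℝ, 0 ≤ ε →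
    ∀ m : Vec d, Integrable (fun h => 1 - qf d γ m h) (Nm γ b ε m) ∧
      |∫ h, (1 - qf d γ m h) ∂(Nm γ b ε m)| ≤ A := by
  have hC0 : 0 ≤ C := H.bd.1
  obtain ⟨A, hA, h⟩ := ang_scale H (τ := 1) H.hs1 le_rfl
  refine ⟨2 ^ (d - 1) * 4 * (2 * C) * ((d : ℝ) + γ) * A, by positivity, fun ε hε m => ?_⟩
  have hB : 0 ≤ 2 ^ (d - 1) * 4 * (2 * C) * ((d : ℝ) + γ) * A := by positivity
  by_cases hm : m = 0
  · rw [hm, Upp_zero]
    refine ⟨integrable_zero_measure, ?_⟩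
    rw [integral_zero_measure, abs_zero]
    exact hB
  have hφ : Measurable fun x : Vec d => 1 - qf d γ m x := by
    have h3 : Measurable fun x : Vec d => ((m, x) : Vec d × Vec d) :=
      measurable_const.prodMk measurable_id
    have h4 := (meas_qf (d := d) γ).comp h3
    exact measurable_const.sub h4
  refine Upp_fin hφ (measurable_norm.comp hφ) (fun x => abs_nonneg _) (fun x => le_rfl) hB ?_
  have h5 := Upp_lint (γ := γ) (ε := ε) H (M := 2 ^ (d - 1) * 4 * (2 * C) * ((d : ℝ) + γ))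
    (F := fun x => |1 - qf d γ m x|) (measurable_norm.comp hφ) (fun x => abs_nonneg _)
    (by positivity) (h (dir m) (nsq_dir hm) 1 one_pos)
    (fun σ hσ hd => Upp_pt1 H h0 ε hσ hd)
  rw [Real.one_rpow, mul_one] at h5
  exact h5

end Pool.Agent.H15.HF
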